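import Pool.Agent.Helper684.Core3

set_option autoImplicit false

namespace Pool.Agent.Helper684

noncomputable section

variable {k : Type} [Field k]

/-- the chain of new vectors -/
def zz (N : ℕ) (u : ℕ →₀ k) (r : ℕ) : ℕ →₀ k := if r = 0 then u else Finsupp.single (N + r - 1) 1

theorem zz_succ (N : ℕ) (u : ℕ →₀ k) (r : ℕ) : zz N u (r + 1) = Finsupp.single (N + r) 1 := by
  unfold zz
  rw [if_neg (Nat.succ_ne_zero r)]
  congr 1

/-- adding new vectors one by one along the letters -/
theorem ext_steps (S : Stage k) (hI : Good S.Γ) (l : ℤ → Lt) (red : ∀ t, l (t + 1) ≠ inv (l t))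
    (s0 : ℤ) (u : ℕ →₀ k) (hu : u ∈ VN k S.N) (hd : ∀ y, (u, y) ∉ S.Γ (l s0)) (i : ℕ) :
    ∃ S' : Stage k, S.Le S' ∧ Good S'.Γ ∧ S'.N = S.N + i ∧
      (∀ r : ℕ, r < i → (zz S.N u r, zz S.N u (r + 1)) ∈ S'.Γ (l (s0 + r))) ∧
      (∀ y, (zz S.N u i, y) ∉ S'.Γ (l (s0 + i))) ∧ zz S.N u i ∈ VN k S'.N ∧
      (∀ (L : Lt) (x y : ℕ →₀ k) (r : ℕ), r < i → (x, y) ∈ S'.Γ L → x (S.N + r) ≠ 0 →
        (L = inv (l (s0 + r)) ∧ (∀ r', r = r' + 1 → y (S.N + r') ≠ 0)) ∨
          (r + 1 < i ∧ L = l (s0 + r + 1))) := by
  induction i with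
  | zero =>
    refine ⟨S, Stage.Le.refl S, hI, rfl, by intro r hr; omega, ?_, hu, by
      intro L x y r hr; omega⟩
    intro y
    simpa [zz] using hd y
  | succ i ih =>
    obtain ⟨S', hle, hG, hN, hp, hnd, hmem, hT⟩ := ih
    refine ⟨S'.add (l (s0 + i)) (zz S.N u i) hmem hnd, hle.trans (S'.le_add _ _ _ _),
      S'.add_good _ _ _ _ hG, ?_, ?_, ?_, ?_, ?_⟩
    · show S'.N + 1 = S.N + (i + 1)
      omega
    · intro r hr
      by_cases hri : r < i
      · exact (S'.le_add (l (s0 + i)) (zz S.N u i) hmem hnd).2 _ (hp r hri)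
      · have e : r = i := by omega
        subst e
        rw [zz_succ, ← hN]
        exact S'.add_new _ _ _ _
    · intro y hy
      rw [zz_succ] at hy
      have h1 := S'.add_coord _ _ hmem hnd hy (by rw [hN]; simp)
      apply red (s0 + i)
      rw [← h1]
      congr 1
      push_cast; ring
    · rw [zz_succ]
      apply single_mem_VN
      show S.N + i < S'.N + 1
      omega
    · intro L x y r hr hxy hx
      have hxy' : (x, y) ∈ addΓ S' (l (s0 + i)) (zz S.N u i) L := hxy
      have hzN : zz S.N u i (S.N + i) = 0 := mem_VN.1 hmem _ (by omega)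
      by_cases h1 : L = l (s0 + i)
      · subst h1
        rw [mem_addΓ_self] at hxy'
        obtain ⟨c, hc⟩ := hxy'
        by_cases hri : r = i
        · exfalso
          subst hri
          apply hx
          have h2 := mem_VN.1 (S'.bd _ _ _ hc) (S.N + r) (by omega)
          rw [Finsupp.sub_apply, Finsupp.smul_apply, hzN, smul_zero, sub_zero] at h2
          exact h2
        · have hri' : r < i := by omega
          by_cases h2 : (x - c • zz S.N u i) (S.N + r) ≠ 0
          · rcases hT _ _ _ r hri' hc h2 with ⟨h3, h4⟩ | ⟨h3, h4⟩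
            · left
              refine ⟨h3, fun r' hr' => ?_⟩
              have h5 := h4 r' hr'
              rw [Finsupp.sub_apply, Finsupp.smul_apply, Finsupp.single_apply,
                if_neg (by omega), smul_zero, sub_zero] at h5
              exact h5
            · right
              exact ⟨by omega, h4⟩
          · right
            push Not at h2
            refine ⟨by omega, ?_⟩
            have h3 : zz S.N u i (S.N + r) ≠ 0 := by
              intro h4
              apply hx
              rw [Finsupp.sub_apply, Finsupp.smul_apply, h4, smul_zero, sub_zero] at h2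
              exact h2
            have h4 : r + 1 = i := by
              obtain ⟨i', rfl⟩ : ∃ i', i = i' + 1 := ⟨i - 1, by omega⟩
              rw [zz_succ, Finsupp.single_apply] at h3
              by_contra hne
              rw [if_neg (by omega)] at h3
              exact h3 rfl
            rw [← h4]
            congr 1
            push_cast; ring
      · by_cases h2 : L = inv (l (s0 + i))
        · subst h2
          rw [mem_addΓ_inv] at hxy'
          obtain ⟨c, hc⟩ := hxy'
          by_cases hri : r = i
          · left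
            subst hri
            refine ⟨rfl, fun r' hr' => ?_⟩
            have hc0 : c ≠ 0 := by
              intro h3
              apply hx
              have h4 := mem_VN.1 (S'.bd _ _ _ hc) (S.N + r) (by omega)
              rw [h3, zero_smul, sub_zero] at h4
              exact h4
            subst hr'
            have h5 : (y - c • zz S.N u (r' + 1)) (S.N + r') = 0 := by
              by_contra hne
              rcases hT _ _ _ r' (by omega) (S'.sym' hc) hne with ⟨h3, _⟩ | ⟨h3, _⟩
              · apply red (s0 + r')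
                rw [← h3]
                congr 1
                push_cast; ring
              · omega
            rw [zz_succ, Finsupp.sub_apply, Finsupp.smul_apply, Finsupp.single_apply,
              if_pos rfl, smul_eq_mul, mul_one, sub_eq_zero] at h5
            rw [h5]; exact hc0
          · have hri' : r < i := by omega
            have h3 : (x - c • (Finsupp.single S'.N 1 : ℕ →₀ k)) (S.N + r) ≠ 0 := by
              rw [Finsupp.sub_apply, Finsupp.smul_apply, Finsupp.single_apply,
                if_neg (by omega), smul_zero, sub_zero]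
              exact hx
            rcases hT _ _ _ r hri' hc h3 with ⟨h4, h5⟩ | ⟨h4, h5⟩
            · left
              refine ⟨h4, fun r' hr' => ?_⟩
              have h6 := h5 r' hr'
              obtain ⟨i', rfl⟩ : ∃ i', i = i' + 1 := ⟨i - 1, by omega⟩
              rw [zz_succ, Finsupp.sub_apply, Finsupp.smul_apply, Finsupp.single_apply,
                if_neg (by omega), smul_zero, sub_zero] at h6
              exact h6
            · right
              exact ⟨by omega, h5⟩
        · rw [mem_addΓ_other h1 h2] at hxy'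
          by_cases hri : r = i
          · exfalso
            subst hri
            exact hx (mem_VN.1 (S'.bd _ _ _ hxy') _ (by omega))
          · rcases hT _ _ _ r (by omega) hxy' hx with h3 | ⟨h3, h4⟩
            · left; exact h3
            · right; exact ⟨by omega, h4⟩

/-- the minimal period -/
theorem min_period {l : ℤ → Lt} {q : ℕ} (hq : 0 < q) (hper : ∀ t, l (t + q) = l t) :
    ∃ m : ℕ, 0 < m ∧ (∀ t, l (t + m) = l t) ∧ (∀ o : ℤ, (∀ t, l (t + o) = l t) → (m : ℤ) ∣ o) := by
  classical
  have hex : ∃ m : ℕ, 0 < m ∧ ∀ t, l (t + m) = l t := ⟨q, hq, hper⟩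
  set m := Nat.find hex with hmdef
  obtain ⟨hm, hmper⟩ := Nat.find_spec hex
  refine ⟨m, hm, hmper, ?_⟩
  intro o ho
  by_contra hnd
  have hmz : (0 : ℤ) < m := by exact_mod_cast hm
  have h0 : 0 ≤ o % m := Int.emod_nonneg _ (by omega)
  have h1 : o % m < m := Int.emod_lt_of_pos _ hmz
  have h2 : o % m ≠ 0 := fun h => hnd (Int.dvd_of_emod_eq_zero h)
  have h3 : ∀ t, l (t + o % m) = l t := by
    intro t
    have e : t + o = (t + o % m) + (o / m) * m := by
      have := Int.emod_add_mul_ediv o m
      linarith [mul_comm (m : ℤ) (o / m)]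
    have h4 := ho t
    rw [e, periodic_mul (f := l) hmper] at h4
    exact h4
  apply Nat.find_min hex (m := (o % m).toNat)
  · rw [← hmdef]
    omega
  · refine ⟨by omega, fun t => ?_⟩
    rw [Int.toNat_of_nonneg h0]
    exact h3 t

theorem Core.le_D (E : Core k) {j : ℤ} {x y : ℕ →₀ k} (h : (x, y) ∈ E.S.Γ (E.l j)) :
    (x, y) ∈ E.D j := by
  rw [Core.mem_D]
  refine ⟨0, fun h => absurd rfl h, ?_⟩
  rwa [zero_smul, sub_zero]

/-- closing lemma -/
theorem hclo [CharZero k] [IsAlgClosed k] (S : Stage k) (hI : Good S.Γ) (l : ℤ → Lt) (q : ℕ)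
    (hq : 0 < q) (red : ∀ t, l (t + 1) ≠ inv (l t)) (hper : ∀ t, l (t + q) = l t)
    (v0 : ℕ →₀ k) (hv0 : v0 ∈ VN k S.N) :
    ∃ S' : Stage k, S.Le S' ∧ Good S'.Γ ∧ ∃ x : ℤ → (ℕ →₀ k),
      (∀ t, (x t, x (t + 1)) ∈ S'.Γ (l t)) ∧ x 0 = v0 ∧
      ∃ M : ℕ, (((Sh (q : ℤ) : Module.End k (ℤ → (ℕ →₀ k))) - 1) ^ M) x = 0 := by
  classical
  have hRper : ∀ t : ℤ, (fun t => S.Γ (l t)) (t + q) = (fun t => S.Γ (l t)) t := by
    intro t
    show S.Γ (l (t + q)) = _
    rw [hper]
  by_cases hF : Fwd (fun t => S.Γ (l t)) 0 v0
  · obtain ⟨τ, hτ, hτ0⟩ := bi (S.functional l) (S.cofunctional l) hq hRper (VN k S.N)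
      (fun _ _ _ h => S.bd _ _ _ h) hF
    obtain ⟨M, hM⟩ := nilp_of_eig (S.functional l) (S.cofunctional l) hRper (VN k S.N)
      (fun _ _ _ h => S.bd _ _ _ h)
      (fun w hw μ hμ hμ1 => hI l w q μ hq red hper hw hμ hμ1)
    exact ⟨S, Stage.Le.refl S, hI, τ, hτ, hτ0, M, hM τ hτ⟩
  · -- the maximal forward path
    have hex : ∃ K, ¬ FwdK (fun t => S.Γ (l t)) 0 K v0 := by
      by_contra hcon
      push Not at hcon
      exact hF (fwd_of_fwdK (S.functional l) hcon)
    set K := Nat.find hex with hKdef
    have hK := Nat.find_spec hex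
    rw [← hKdef] at hK
    have hK0 : K ≠ 0 := by
      intro h
      rw [h] at hK
      exact hK ⟨fun _ => v0, rfl, by intro t ht; omega⟩
    obtain ⟨s0, hs0⟩ : ∃ s0, K = s0 + 1 := ⟨K - 1, by omega⟩
    have hprev : FwdK (fun t => S.Γ (l t)) 0 s0 v0 := by
      by_contra hcon
      have : K ≤ s0 := Nat.find_min' hex hcon
      omega
    obtain ⟨u, hu0, hu⟩ := hprev
    have hnd : ∀ y, (u s0, y) ∉ S.Γ (l s0) := by
      intro y hy
      apply hK
      rw [hs0]
      refine ⟨fun t => if t ≤ s0 then u t else y, by simpa using hu0, fun t ht => ?_⟩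
      by_cases h1 : t < s0
      · have e1 : t ≤ s0 := by omega
        have e2 : t + 1 ≤ s0 := by omega
        simp only [if_pos e1, if_pos e2]
        exact hu t h1
      · have e0 : t = s0 := by omega
        subst e0
        have e2 : ¬ t + 1 ≤ t := by omega
        simp only [le_refl, if_true, if_neg e2, zero_add]
        exact hy
    have huN : u s0 ∈ VN k S.N := by
      by_cases h0 : s0 = 0
      · rw [h0, hu0]; exact hv0
      · have h1 := hu (s0 - 1) (by omega)
        have e : s0 - 1 + 1 = s0 := by omega
        rw [e] at h1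
        exact S.bd' h1
    obtain ⟨m, hm, hmper, hmin⟩ := min_period hq hper
    obtain ⟨S1, hle, hG, hN, hp, hnd1, hmem, hT⟩ := ext_steps S hI l red s0 (u s0) huN hnd m
    let E : Core k :=
      { S := S1
        l := l
        red := red
        m := m
        hm := hm
        per := hmper
        minp := hmin
        s := s0 + m
        f := zz S.N (u s0) m
        hf := hmem
        hdom := hnd1 }
    obtain ⟨m', hm'⟩ : ∃ m', m = m' + 1 := ⟨m - 1, by omega⟩
    -- vectors in the domain of the next letter have no last coordinate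
    have hA : ∀ x y, (x, y) ∈ S1.Γ (l (s0 + m)) → x (S.N + m') = 0 := by
      intro x y hxy
      by_contra hne
      rcases hT _ _ _ m' (by omega) hxy hne with ⟨h1, _⟩ | ⟨h1, _⟩
      · apply red (s0 + m')
        rw [← h1]
        congr 1
        rw [hm']; push_cast; ring
      · omega
    have hfm : zz S.N (u s0) m (S.N + m') = 1 := by
      rw [hm', zz_succ, Finsupp.single_apply, if_pos rfl]
    obtain ⟨S2, hle2, hG2, hS2⟩ := E.closing hG (zz S.N (u s0)) (by
        intro i hi
        have h1 := hp i hi
        show _ ∈ S1.Γ (l ((s0 : ℤ) + m - m + i))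
        rw [add_sub_cancel_right]
        exact h1) rfl (by
        intro R y x'' hR hy hx'' _ α β y'' hα hβ hyy
        have hR' : m ≤ R := hR
        have hy' : ∀ i : ℕ, i < R → (y i, y (i + 1)) ∈ S1.Γ (l ((s0 : ℤ) + m - R + i)) := hy
        have h1 := hA _ _ hx''
        have h1' : (y R - zz S.N (u s0) m) (S.N + m') = 0 := h1
        rw [Finsupp.sub_apply, hfm, sub_eq_zero] at h1'
        have h2 := hA _ _ hyy
        rw [Finsupp.add_apply, Finsupp.smul_apply, Finsupp.smul_apply, h1', smul_eq_mul,
          smul_eq_mul, mul_one] at h2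
        have h3 : y 0 (S.N + m') ≠ 0 := by
          intro h4
          rw [h4, mul_zero, add_zero] at h2
          exact hα h2
        have key : ∀ r : ℕ, r < m → y r (S.N + (m' - r)) ≠ 0 ∧
            l ((s0 : ℤ) + m - R + r) = inv (l ((s0 : ℤ) + m - 1 - r)) := by
          intro r
          induction r with
          | zero =>
            intro _
            refine ⟨by simpa using h3, ?_⟩
            rcases hT _ _ _ m' (by omega) (hy' 0 (by omega)) h3 with ⟨h5, _⟩ | ⟨h5, _⟩
            · rw [h5]
              congr 2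
              rw [hm']; push_cast; ring
            · omega
          | succ r ih =>
            intro hr
            obtain ⟨h5, h6⟩ := ih (by omega)
            have h7 : y (r + 1) (S.N + (m' - (r + 1))) ≠ 0 := by
              rcases hT _ _ _ (m' - r) (by omega) (hy' r (by omega)) h5 with ⟨_, h8⟩ | ⟨h8, h9⟩
              · exact h8 _ (by omega)
              · exfalso
                -- l (s - R + r) = l (s - r), but it also is inverse of l (s - 1 - r)
                apply red ((s0 : ℤ) + m - 1 - r)
                have e1 : (s0 : ℤ) + ((m' - r : ℕ) : ℤ) + 1 = (s0 : ℤ) + m - 1 - r + 1 := by omega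
                rw [← e1, ← h9, h6]
            refine ⟨h7, ?_⟩
            rcases hT _ _ _ (m' - (r + 1)) (by omega) (hy' (r + 1) (by omega)) h7 with
              ⟨h8, _⟩ | ⟨h8, h9⟩
            · rw [h8]
              congr 2
              omega
            · exfalso
              apply red ((s0 : ℤ) + m - R + r)
              have e1 : (s0 : ℤ) + m - R + ((r + 1 : ℕ) : ℤ) = (s0 : ℤ) + m - R + r + 1 := by
                push_cast; ring
              rw [e1] at h9
              rw [h9, h6, inv_inv]
              congr 1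
              omega
        exact parity_m red hm hmper (c := (s0 : ℤ) + m - R) (d := (s0 : ℤ) + m - 1)
          (fun r hr => (key r hr).2))
    -- the vector `v0` has an infinite path
    have hz : ∀ n : ℕ, n ≤ m → Fwd E.D ((s0 : ℤ) + ((m - n : ℕ) : ℤ)) (zz S.N (u s0) (m - n)) := by
      intro n
      induction n with
      | zero =>
        intro _
        apply Fwd.cons (y := 0) _ (Fwd.zero _ _)
        rw [Core.mem_D]
        refine ⟨1, fun _ => ?_, ?_⟩
        · show (m : ℤ) ∣ (s0 : ℤ) + ((m - 0 : ℕ) : ℤ) - (s0 + m)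
          simp
        · have e : zz S.N (u s0) (m - 0) - (1 : k) • E.f = 0 := by
            rw [one_smul]
            exact sub_self _
          rw [e]
          exact Submodule.zero_mem _
      | succ n ih =>
        intro hn
        have h1 := ih (by omega)
        have h2 := hp (m - (n + 1)) (by omega)
        have e : m - (n + 1) + 1 = m - n := by omega
        rw [e] at h2
        apply Fwd.cons (E.le_D h2)
        have e2 : (s0 : ℤ) + ((m - (n + 1) : ℕ) : ℤ) + 1 = (s0 : ℤ) + ((m - n : ℕ) : ℤ) := by omega
        rw [e2]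
        exact h1
    have hs0F : Fwd E.D (s0 : ℤ) (u s0) := by
      have := hz m (le_refl _)
      rw [Nat.sub_self] at this
      simpa [zz] using this
    have huF : ∀ n : ℕ, n ≤ s0 → Fwd E.D ((s0 - n : ℕ) : ℤ) (u (s0 - n)) := by
      intro n
      induction n with
      | zero => intro _; exact hs0F
      | succ n ih =>
        intro hn
        have h1 := ih (by omega)
        have h2 := hu (s0 - (n + 1)) (by omega)
        have e : s0 - (n + 1) + 1 = s0 - n := by omega
        rw [e] at h2
        have h3 : (u (s0 - (n + 1)), u (s0 - n)) ∈ S1.Γ (l ((s0 - (n + 1) : ℕ) : ℤ)) := by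
          apply hle.2
          have e3 : (0 : ℤ) + ((s0 - (n + 1) : ℕ) : ℤ) = ((s0 - (n + 1) : ℕ) : ℤ) := zero_add _
          rw [e3] at h2
          exact h2
        apply Fwd.cons (E.le_D h3)
        have e2 : ((s0 - (n + 1) : ℕ) : ℤ) + 1 = ((s0 - n : ℕ) : ℤ) := by omega
        rw [e2]
        exact h1
    have h0F : Fwd E.D 0 v0 := by
      have := huF s0 (le_refl _)
      rw [Nat.sub_self, hu0] at this
      exact this
    obtain ⟨x, hx, hx0, M, hM⟩ := hS2 0 v0 h0F
    refine ⟨S2, hle.trans hle2, hG2, x, hx, hx0, M, ?_⟩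
    obtain ⟨r, hr⟩ := hmin q hper
    have hr0 : 0 ≤ r := by
      by_contra hneg
      push Not at hneg
      have h1 : (0 : ℤ) < q := by exact_mod_cast hq
      have h2 : (0 : ℤ) < m := by exact_mod_cast hm
      nlinarith
    have := Sh_nilp_mul r.toNat hM
    have e : ((r.toNat : ℤ) * ((E.m : ℕ) : ℤ)) = q := by
      rw [Int.toNat_of_nonneg hr0, hr, mul_comm]
    rwa [e] at this

theorem hdom' (S : Stage k) (hI : Good S.Γ) (l0 : Lt) (u : ℕ →₀ k) (hu : u ∈ VN k S.N) :
    ∃ S' : Stage k, S.Le S' ∧ Good S'.Γ ∧ ∃ y, (u, y) ∈ S'.Γ l0 := by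
  by_cases h : ∃ y, (u, y) ∈ S.Γ l0
  · exact ⟨S, Stage.Le.refl S, hI, h⟩
  · push Not at h
    exact ⟨S.add l0 u hu h, S.le_add l0 u hu h, S.add_good l0 u hu h hI, _, S.add_new l0 u hu h⟩

end

end Pool.Agent.Helper684
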