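import Pool.Agent.Helper684.Loop

set_option autoImplicit false

namespace Pool.Agent.Helper684

noncomputable section

variable {k : Type} [Field k]

section PolyExt
open Polynomial

/-- the nodes in the class of `p` -/
def AA (m : ℕ) (a s p : ℤ) : Finset ℤ := (Finset.Icc a s).filter (fun i => (m : ℤ) ∣ i - p)

theorem mem_AA {m : ℕ} {a s p i : ℤ} : i ∈ AA m a s p ↔ (a ≤ i ∧ i ≤ s) ∧ (m : ℤ) ∣ i - p := by
  unfold AA
  rw [Finset.mem_filter, Finset.mem_Icc]

theorem AA_congr {m : ℕ} {a s p p' : ℤ} (h : (m : ℤ) ∣ p - p') : AA m a s p = AA m a s p' := by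
  ext i
  rw [mem_AA, mem_AA]
  constructor
  · rintro ⟨h1, h2⟩
    refine ⟨h1, ?_⟩
    have := dvd_add h2 h
    have e : i - p + (p - p') = i - p' := by ring
    rwa [e] at this
  · rintro ⟨h1, h2⟩
    refine ⟨h1, ?_⟩
    have := dvd_sub h2 h
    have e : i - p' - (p - p') = i - p := by ring
    rwa [e] at this

theorem AA_card {m : ℕ} {a s p : ℤ} : (AA m a s p).card ≤ (s + 1 - a).toNat := by
  unfold AA
  refine (Finset.card_filter_le _ _).trans ?_
  rw [Int.card_Icc]

/-- the node map -/
def nd (k : Type) [Field k] : ℤ → k := fun i => (i : k)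

theorem nd_inj [CharZero k] (S : Set ℤ) : Set.InjOn (nd k) S := fun _ _ _ _ h => Int.cast_injective h

theorem emod_eq_of_dvd {m : ℕ} {p p' : ℤ} (h : (m : ℤ) ∣ p - p') : p % (m : ℤ) = p' % (m : ℤ) :=
  Int.emod_eq_emod_iff_emod_sub_eq_zero.mpr (Int.emod_eq_zero_of_dvd h)

/-- the extended sequence -/
def vv (N m n : ℕ) (a s : ℤ) (v0 : ℤ → (ℕ →₀ k)) (j : ℤ) : ℕ →₀ k :=
  ∑ i ∈ AA m a s j, ((Lagrange.basis (AA m a s j) (nd k) i).eval (nd k j)) • v0 i +
    ((Lagrange.nodal (AA m a s j) (nd k)).eval (nd k j)) •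
      ∑ r ∈ Finset.range (n - (AA m a s j).card),
        ((nd k j) ^ r) • Finsupp.single (N + (j % (m : ℤ)).toNat * n + r) (1 : k)

/-- polynomial describing coordinate `q` on the class of `p` -/
def PP (N m n : ℕ) (a s : ℤ) (v0 : ℤ → (ℕ →₀ k)) (p : ℤ) (q : ℕ) : k[X] :=
  ∑ i ∈ AA m a s p, C (v0 i q) * Lagrange.basis (AA m a s p) (nd k) i +
    Lagrange.nodal (AA m a s p) (nd k) *
      ∑ r ∈ Finset.range (n - (AA m a s p).card),
        C (if N + (p % (m : ℤ)).toNat * n + r = q then (1 : k) else 0) * X ^ r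

theorem PP_eval (N m n : ℕ) (a s : ℤ) (v0 : ℤ → (ℕ →₀ k)) {p j : ℤ} (h : (m : ℤ) ∣ j - p) (q : ℕ) :
    vv N m n a s v0 j q = (PP N m n a s v0 p q).eval (nd k j) := by
  unfold vv PP
  rw [AA_congr h, emod_eq_of_dvd h]
  simp only [Finsupp.add_apply, Finsupp.finsetSum_apply, Finsupp.smul_apply, smul_eq_mul, eval_add,
    eval_finsetSum, eval_mul, eval_C, eval_pow, eval_X, Finsupp.single_apply]
  congr 1
  · exact Finset.sum_congr rfl fun i _ => mul_comm _ _
  · congr 1
    exact Finset.sum_congr rfl fun i _ => mul_comm _ _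

theorem PP_degree [CharZero k] (N m n : ℕ) (a s : ℤ) (hn : (s + 1 - a).toNat ≤ n)
    (v0 : ℤ → (ℕ →₀ k)) (p : ℤ) (q : ℕ) :
    (PP N m n a s v0 p q).degree < (n : WithBot ℕ) := by
  rw [← Polynomial.mem_degreeLT]
  unfold PP
  have hA : (AA m a s p).card ≤ n := AA_card.trans hn
  apply Submodule.add_mem
  · apply Submodule.sum_mem
    intro i hi
    rw [← smul_eq_C_mul]
    apply Submodule.smul_mem
    rw [Polynomial.mem_degreeLT, Lagrange.degree_basis (nd_inj _) hi]
    have : 0 < (AA m a s p).card := Finset.card_pos.mpr ⟨i, hi⟩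
    exact_mod_cast (by omega : (AA m a s p).card - 1 < n)
  · rw [Finset.mul_sum]
    apply Submodule.sum_mem
    intro r hr
    have hr' := Finset.mem_range.mp hr
    have e : Lagrange.nodal (AA m a s p) (nd k) *
        (C (if N + (p % (m : ℤ)).toNat * n + r = q then (1 : k) else 0) * X ^ r)
        = (if N + (p % (m : ℤ)).toNat * n + r = q then (1 : k) else 0) •
          (Lagrange.nodal (AA m a s p) (nd k) * X ^ r) := by
      rw [smul_eq_C_mul]; ring
    rw [e]
    apply Submodule.smul_mem
    rw [Polynomial.mem_degreeLT, degree_mul, Lagrange.degree_nodal, degree_X_pow]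
    exact_mod_cast (by omega : (AA m a s p).card + r < n)

/-- the linear functional -/
def phi (γ : ℤ →₀ k) (t : ℤ) : k[X] →ₗ[k] k :=
  ∑ j ∈ γ.support, γ j • Polynomial.leval (nd k (j + t))

theorem phi_apply (γ : ℤ →₀ k) (t : ℤ) (P : k[X]) :
    phi γ t P = ∑ j ∈ γ.support, γ j * P.eval (nd k (j + t)) := by
  unfold phi
  simp [LinearMap.sum_apply, Polynomial.leval]

theorem phi_decomp [CharZero k] (γ : ℤ →₀ k) (t : ℤ) (A : Finset ℤ) (n : ℕ)
    (hphi : ∀ r, r < n - A.card → phi γ t (Lagrange.nodal A (nd k) * X ^ r) = 0)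
    (R : k[X]) (hR : R.degree < (n : WithBot ℕ)) :
    phi γ t R = ∑ i ∈ A, R.eval (nd k i) * phi γ t (Lagrange.basis A (nd k) i) := by
  classical
  set om := Lagrange.nodal A (nd k) with hom
  have hmon : om.Monic := Lagrange.nodal_monic
  have hdec := Polynomial.modByMonic_add_div R om
  have h1 : R %ₘ om = Lagrange.interpolate A (nd k) (fun i => R.eval (nd k i)) := by
    apply Lagrange.eq_interpolate_of_eval_eq _ (nd_inj _)
    · have := Polynomial.degree_modByMonic_lt R hmon
      rwa [hom, Lagrange.degree_nodal] at this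
    · intro i hi
      have : eval (nd k i) (R %ₘ om + om * (R /ₘ om)) = eval (nd k i) R := by rw [hdec]
      rw [eval_add, eval_mul, hom, Lagrange.eval_nodal_at_node hi, zero_mul, add_zero] at this
      exact this
  set Q := R /ₘ om with hQ
  have hQc : ∀ d, n - A.card ≤ d → Q.coeff d = 0 := by
    intro d hd
    by_cases h0 : R.degree < om.degree
    · have : Q = 0 := by
        rw [hQ]
        exact (Polynomial.divByMonic_eq_zero_iff hmon).mpr h0
      rw [this]; simp
    · apply Polynomial.coeff_eq_zero_of_natDegree_lt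
      have h2 : Q.natDegree = R.natDegree - om.natDegree := by
        rw [hQ]; exact Polynomial.natDegree_divByMonic R hmon
      have h3 : om.natDegree = A.card := by rw [hom]; exact Lagrange.natDegree_nodal
      have hR0 : R ≠ 0 := by
        rintro rfl
        apply h0
        rw [degree_zero]
        exact bot_lt_iff_ne_bot.mpr (by rw [hom, Lagrange.degree_nodal]; exact WithBot.coe_ne_bot)
      have h4 : R.natDegree < n := (Polynomial.natDegree_lt_iff_degree_lt hR0).mpr hR
      have h5 : A.card ≤ R.natDegree := by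
        rw [hom, Lagrange.degree_nodal, not_lt] at h0
        exact Polynomial.le_natDegree_of_coe_le_degree h0
      omega
  have hQs : Q = ∑ r ∈ Finset.range (n - A.card), C (Q.coeff r) * X ^ r := by
    ext d
    rw [finsetSum_coeff]
    simp only [coeff_C_mul, coeff_X_pow, mul_ite, mul_one, mul_zero]
    by_cases hd : d < n - A.card
    · rw [Finset.sum_eq_single d]
      · rw [if_pos rfl]
      · intro b _ hb
        rw [if_neg (Ne.symm hb)]
      · intro hd'
        exact absurd (Finset.mem_range.mpr hd) hd'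
    · rw [hQc d (not_lt.mp hd)]
      symm
      apply Finset.sum_eq_zero
      intro b hb
      rw [if_neg]
      rintro rfl
      exact hd (Finset.mem_range.mp hb)
  have h6 : phi γ t (om * Q) = 0 := by
    rw [hQs, Finset.mul_sum, map_sum]
    apply Finset.sum_eq_zero
    intro r hr
    have e : om * (C (Q.coeff r) * X ^ r) = (Q.coeff r) • (om * X ^ r) := by
      rw [smul_eq_C_mul]; ring
    rw [e, map_smul, hphi r (Finset.mem_range.mp hr), smul_zero]
  rw [← hdec, map_add, h6, add_zero, h1, Lagrange.interpolate_apply, map_sum]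
  apply Finset.sum_congr rfl
  intro i hi
  rw [← smul_eq_C_mul, map_smul, smul_eq_mul]
  congr 1
  rw [← Lagrange.interpolate_apply, ← h1, hdec]

/-- unipotence of the shift on piecewise polynomial sequences -/
theorem sh_nil (m : ℕ) : ∀ (n : ℕ) (g : ℤ → (ℕ →₀ k)),
    (∀ (p : ℤ) (q : ℕ), ∃ P : k[X], P.degree < (n : WithBot ℕ) ∧
      ∀ j : ℤ, (m : ℤ) ∣ j - p → g j q = P.eval (nd k j)) →
    (((Sh (m : ℤ) : Module.End k (ℤ → (ℕ →₀ k))) - 1) ^ n) g = 0 := by
  intro n
  induction n with
  | zero =>
    intro g hg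
    rw [pow_zero]
    show g = 0
    funext j
    ext q
    obtain ⟨P, hP, hj⟩ := hg j q
    have hP0 : P = 0 := by
      rw [Nat.cast_zero] at hP
      by_contra hne
      exact absurd hP (not_lt.mpr (Polynomial.zero_le_degree_iff.mpr hne))
    rw [hj j (by simp), hP0]
    simp
  | succ n ih =>
    intro g hg
    rw [pow_succ]
    show (((Sh (m : ℤ) : Module.End k (ℤ → (ℕ →₀ k))) - 1) ^ n)
      (((Sh (m : ℤ) : Module.End k (ℤ → (ℕ →₀ k))) - 1) g) = 0
    apply ih
    intro p q
    obtain ⟨P, hP, hj⟩ := hg p q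
    refine ⟨taylor (m : k) P - P, ?_, ?_⟩
    · by_cases hP0 : P = 0
      · rw [hP0]
        simp only [map_zero, sub_zero, degree_zero]
        exact WithBot.bot_lt_coe n
      · have hlt : (taylor (m : k) P - P).degree < (taylor (m : k) P).degree := by
          apply Polynomial.degree_sub_lt_left
          · rw [degree_taylor]
          · intro h0
            exact hP0 ((taylor_eq_zero (m : k) P).mp h0)
          · rw [leadingCoeff_taylor]
        rw [degree_taylor] at hlt
        have h1 : P.degree ≤ (n : WithBot ℕ) := by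
          rw [Polynomial.degree_eq_natDegree hP0] at hP ⊢
          have : P.natDegree < n + 1 := by exact_mod_cast hP
          exact_mod_cast Nat.lt_succ_iff.mp this
        exact lt_of_lt_of_le hlt h1
    · intro j hjp
      have h2 : (m : ℤ) ∣ (j + m) - p := by
        have := dvd_add hjp (dvd_refl (m : ℤ))
        have e : j - p + (m : ℤ) = j + m - p := by ring
        rwa [e] at this
      show (g (j + m) - g j) q = _
      rw [Finsupp.sub_apply, hj j hjp, hj _ h2, eval_sub, taylor_eval]
      congr 2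
      unfold nd
      push_cast
      ring

end PolyExt

/-- polynomial extension of a finite piece `v0 a, ..., v0 s` to a sequence on `ℤ` -/
theorem poly_ext [CharZero k] (N m : ℕ) (hm : 0 < m) (a s : ℤ) (has : a ≤ s)
    (v0 : ℤ → (ℕ →₀ k)) (hv0 : ∀ i, a ≤ i → i ≤ s → v0 i ∈ VN k N) (Λ : ℕ) :
    ∃ (N' : ℕ) (v : ℤ → (ℕ →₀ k)) (π : ℤ → (ℕ →₀ k) →ₗ[k] (ℕ → k)) (M : ℕ), N ≤ N' ∧
      (∀ j, v j ∈ VN k N') ∧
      (∀ i, a ≤ i → i ≤ s → v i = v0 i) ∧
      (∀ p x, x ∈ VN k N → π p x = 0) ∧
      (∀ p p', (m : ℤ) ∣ p - p' → π p = π p') ∧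
      (∀ p j, ¬ (m : ℤ) ∣ j - p → π p (v j) = 0) ∧
      (∀ (γ : ℤ →₀ k) (c t : ℤ), Cls m γ c → π (c + t) (ev v γ t) = 0 →
        ∃ γ' : ℤ →₀ k, (∀ j ∈ γ'.support, a ≤ j ∧ j ≤ s ∧ (m : ℤ) ∣ j - (c + t)) ∧
          ∀ r, ev v γ (t + r) = ev v γ' r) ∧
      (∀ (γ : ℤ →₀ k) (c t : ℤ), Cls m γ c → γ.support.card ≤ Λ →
        π (c + t) (ev v γ t) = 0 → ∀ j ∈ γ.support, a ≤ j + t ∧ j + t ≤ s) ∧
      (((Sh (m : ℤ) : Module.End k (ℤ → (ℕ →₀ k))) - 1) ^ M) v = 0 := by
  classical
  set n : ℕ := Λ + (s + 1 - a).toNat with hn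
  have hnpos : (s + 1 - a).toNat ≤ n := Nat.le_add_left _ _
  have hblock : ∀ j : ℤ, (j % (m : ℤ)).toNat < m := by
    intro j
    have h1 : 0 ≤ j % (m : ℤ) := Int.emod_nonneg _ (by exact_mod_cast hm.ne')
    have h2 : j % (m : ℤ) < m := Int.emod_lt_of_pos _ (by exact_mod_cast hm)
    omega
  set v : ℤ → (ℕ →₀ k) := vv N m n a s v0 with hv
  have hv0' : ∀ (j : ℤ) (i : ℤ), i ∈ AA m a s j → ∀ q, N ≤ q → v0 i q = 0 := by
    intro j i hi q hq
    rw [mem_AA] at hi
    exact mem_VN.mp (hv0 i hi.1.1 hi.1.2) q hq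
  -- coordinates in the blocks
  have hcoord : ∀ (p j : ℤ) (r : ℕ), r < n →
      v j (N + (p % (m : ℤ)).toNat * n + r) =
        if (m : ℤ) ∣ j - p ∧ r < n - (AA m a s j).card then
          (Lagrange.nodal (AA m a s j) (nd k)).eval (nd k j) * (nd k j) ^ r else 0 := by
    intro p j r hr
    rw [hv]
    unfold vv
    simp only [Finsupp.add_apply, Finsupp.finsetSum_apply, Finsupp.smul_apply, smul_eq_mul,
      Finsupp.single_apply]
    have e1 : ∑ i ∈ AA m a s j, (Lagrange.basis (AA m a s j) (nd k) i).eval (nd k j) *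
        v0 i (N + (p % (m : ℤ)).toNat * n + r) = 0 := by
      apply Finset.sum_eq_zero
      intro i hi
      rw [hv0' j i hi _ (by omega), mul_zero]
    rw [e1, zero_add]
    by_cases hjp : (m : ℤ) ∣ j - p
    · rw [emod_eq_of_dvd hjp]
      by_cases hr2 : r < n - (AA m a s j).card
      · rw [if_pos ⟨hjp, hr2⟩]
        congr 1
        rw [Finset.sum_eq_single r]
        · rw [if_pos rfl, mul_one]
        · intro b _ hb
          rw [if_neg (by omega), mul_zero]
        · intro hd'
          exact absurd (Finset.mem_range.mpr hr2) hd'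
      · rw [if_neg (fun h => hr2 h.2)]
        rw [Finset.sum_eq_zero, mul_zero]
        intro b hb
        have := Finset.mem_range.mp hb
        rw [if_neg (by omega), mul_zero]
    · rw [if_neg (fun h => hjp h.1)]
      rw [Finset.sum_eq_zero, mul_zero]
      intro b hb
      have hb' : b < n := lt_of_lt_of_le (Finset.mem_range.mp hb) (Nat.sub_le _ _)
      rw [if_neg, mul_zero]
      intro heq
      apply hjp
      have h3 : (j % (m : ℤ)).toNat * n + b = (p % (m : ℤ)).toNat * n + r := by omega
      have h4 : (j % (m : ℤ)).toNat = (p % (m : ℤ)).toNat := by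
        have h5 : ((j % (m : ℤ)).toNat * n + b) / n = (j % (m : ℤ)).toNat := by
          rw [mul_comm, Nat.mul_add_div (by omega), Nat.div_eq_of_lt hb', add_zero]
        have h6 : ((p % (m : ℤ)).toNat * n + r) / n = (p % (m : ℤ)).toNat := by
          rw [mul_comm, Nat.mul_add_div (by omega), Nat.div_eq_of_lt hr, add_zero]
        rw [← h5, ← h6, h3]
      have h7 : j % (m : ℤ) = p % (m : ℤ) := by
        have h8 : 0 ≤ j % (m : ℤ) := Int.emod_nonneg _ (by exact_mod_cast hm.ne')
        have h9 : 0 ≤ p % (m : ℤ) := Int.emod_nonneg _ (by exact_mod_cast hm.ne')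
        omega
      exact Int.dvd_of_emod_eq_zero (Int.emod_eq_emod_iff_emod_sub_eq_zero.mp h7)
  let π : ℤ → (ℕ →₀ k) →ₗ[k] (ℕ → k) := fun p =>
    { toFun := fun x r => if r < n then x (N + (p % (m : ℤ)).toNat * n + r) else 0
      map_add' := by
        intro x y
        funext r
        by_cases hr : r < n <;> simp [hr]
      map_smul' := by
        intro c x
        funext r
        by_cases hr : r < n <;> simp [hr] }
  have hπ : ∀ p x r, π p x r = if r < n then x (N + (p % (m : ℤ)).toNat * n + r) else 0 :=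
    fun _ _ _ => rfl
  -- coordinates of `ev`
  have hev : ∀ (γ : ℤ →₀ k) (t : ℤ) (q : ℕ), ev v γ t q = ∑ j ∈ γ.support, γ j * v (j + t) q := by
    intro γ t q
    rw [ev_eq_sum]
    simp only [Finsupp.finsetSum_apply, Finsupp.smul_apply, smul_eq_mul]
  -- consequence of the vanishing of `π`
  have hphi0 : ∀ (γ : ℤ →₀ k) (c t : ℤ), Cls m γ c → π (c + t) (ev v γ t) = 0 →
      ∀ r, r < n - (AA m a s (c + t)).card →
        phi γ t (Lagrange.nodal (AA m a s (c + t)) (nd k) * Polynomial.X ^ r) = 0 := by
    intro γ c t hc h0 r hr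
    have h1 : π (c + t) (ev v γ t) r = 0 := by rw [h0]; rfl
    have hrn : r < n := lt_of_lt_of_le hr (Nat.sub_le _ _)
    rw [hπ, if_pos hrn, hev] at h1
    rw [phi_apply, ← h1]
    apply Finset.sum_congr rfl
    intro j hj
    have hdiv : (m : ℤ) ∣ (j + t) - (c + t) := by
      have e : (j + t) - (c + t) = j - c := by ring
      rw [e]; exact hc j hj
    rw [hcoord (c + t) (j + t) r hrn, AA_congr hdiv, if_pos ⟨hdiv, hr⟩]
    simp [Polynomial.eval_mul]
  refine ⟨N + m * n, v, π, n, Nat.le_add_right _ _, ?_, ?_, ?_, ?_, ?_, ?_, ?_, ?_⟩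
  · -- v j ∈ VN N'
    intro j
    rw [mem_VN]
    intro q hq
    rw [hv]
    unfold vv
    simp only [Finsupp.add_apply, Finsupp.finsetSum_apply, Finsupp.smul_apply, smul_eq_mul,
      Finsupp.single_apply]
    have e1 : ∑ i ∈ AA m a s j, (Lagrange.basis (AA m a s j) (nd k) i).eval (nd k j) * v0 i q = 0 := by
      apply Finset.sum_eq_zero
      intro i hi
      rw [hv0' j i hi _ (by omega), mul_zero]
    rw [e1, zero_add, Finset.sum_eq_zero, mul_zero]
    intro b hb
    have hb' : b < n := lt_of_lt_of_le (Finset.mem_range.mp hb) (Nat.sub_le _ _)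
    rw [if_neg, mul_zero]
    intro heq
    have h1 : ((j % (m : ℤ)).toNat + 1) * n ≤ m * n := Nat.mul_le_mul_right n (hblock j)
    have h2 : ((j % (m : ℤ)).toNat + 1) * n = (j % (m : ℤ)).toNat * n + n := by ring
    omega
  · -- v i = v0 i
    intro i hi1 hi2
    have hi : i ∈ AA m a s i := by
      rw [mem_AA]
      exact ⟨⟨hi1, hi2⟩, by simp⟩
    rw [hv]
    unfold vv
    rw [Lagrange.eval_nodal_at_node hi, zero_smul, add_zero, Finset.sum_eq_single i]
    · rw [Lagrange.eval_basis_self (nd_inj _) hi, one_smul]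
    · intro b _ hb
      rw [Lagrange.eval_basis_of_ne hb hi, zero_smul]
    · intro h
      exact absurd hi h
  · -- π vanishes on VN N
    intro p x hx
    funext r
    rw [hπ]
    by_cases hr : r < n
    · rw [if_pos hr, mem_VN.mp hx _ (by omega)]; rfl
    · rw [if_neg hr]; rfl
  · intro p p' h
    apply LinearMap.ext
    intro x
    funext r
    rw [hπ, hπ, emod_eq_of_dvd h]
  · intro p j h
    funext r
    rw [hπ]
    by_cases hr : r < n
    · rw [if_pos hr, hcoord p j r hr, if_neg (fun h' => h h'.1)]; rfl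
    · rw [if_neg hr]; rfl
  · -- X3
    intro γ c t hc h0
    have hph := hphi0 γ c t hc h0
    set A := AA m a s (c + t) with hA
    refine ⟨∑ i ∈ A, Finsupp.single i (phi γ t (Lagrange.basis A (nd k) i)), ?_, ?_⟩
    · intro j hj
      have hjA : j ∈ A := by
        by_contra hcon
        rw [Finsupp.mem_support_iff] at hj
        apply hj
        rw [Finsupp.finsetSum_apply]
        apply Finset.sum_eq_zero
        intro i hi
        rw [Finsupp.single_apply, if_neg]
        rintro rfl
        exact hcon hi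
      rw [hA, mem_AA] at hjA
      exact ⟨hjA.1.1, hjA.1.2, hjA.2⟩
    · intro r
      ext q
      have e1 : ev v (∑ i ∈ A, Finsupp.single i (phi γ t (Lagrange.basis A (nd k) i))) r q
          = ∑ i ∈ A, phi γ t (Lagrange.basis A (nd k) i) * v (i + r) q := by
        rw [ev, map_sum, Finsupp.finsetSum_apply]
        apply Finset.sum_congr rfl
        intro i _
        rw [Finsupp.linearCombination_single, Finsupp.smul_apply, smul_eq_mul]
      rw [e1, hev]
      set P := PP N m n a s v0 (c + t + r) q with hP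
      have hPd : P.degree < (n : WithBot ℕ) := PP_degree N m n a s hnpos v0 _ q
      have hR : (Polynomial.taylor (nd k r) P).degree < (n : WithBot ℕ) := by
        rw [Polynomial.degree_taylor]; exact hPd
      have h2 := phi_decomp γ t A n hph _ hR
      rw [phi_apply] at h2
      have h3 : ∀ j ∈ γ.support, γ j * v (j + (t + r)) q
          = γ j * (Polynomial.taylor (nd k r) P).eval (nd k (j + t)) := by
        intro j hj
        have hdiv : (m : ℤ) ∣ (j + (t + r)) - (c + t + r) := by
          have e : (j + (t + r)) - (c + t + r) = j - c := by ring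
          rw [e]; exact hc j hj
        rw [hv, PP_eval N m n a s v0 hdiv q, Polynomial.taylor_eval, ← hP]
        congr 2
        unfold nd
        push_cast
        ring
      rw [Finset.sum_congr rfl h3, h2]
      apply Finset.sum_congr rfl
      intro i hi
      have hdiv : (m : ℤ) ∣ (i + r) - (c + t + r) := by
        rw [hA, mem_AA] at hi
        have e : (i + r) - (c + t + r) = i - (c + t) := by ring
        rw [e]; exact hi.2
      rw [hv, PP_eval N m n a s v0 hdiv q, Polynomial.taylor_eval, ← hP, mul_comm]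
      congr 2
      unfold nd
      push_cast
      ring
  · -- X4
    intro γ c t hc hcard h0 j0 hj0
    by_contra hcon
    have hph := hphi0 γ c t hc h0
    set A := AA m a s (c + t) with hA
    have hAc : A.card + Λ ≤ n := by
      have := AA_card (m := m) (a := a) (s := s) (p := c + t)
      rw [← hA] at this
      omega
    set W : Polynomial k := ∏ j ∈ γ.support.erase j0, (Polynomial.X - Polynomial.C (nd k (j + t))) with hW
    have hWd : W.natDegree = γ.support.card - 1 := by
      rw [hW, Polynomial.natDegree_prod_of_monic _ _ (fun j _ => Polynomial.monic_X_sub_C _)]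
      simp [Finset.card_erase_of_mem hj0]
    have hΛ : 0 < γ.support.card := Finset.card_pos.mpr ⟨j0, hj0⟩
    have hWlt : W.natDegree < n - A.card := by omega
    have h1 : phi γ t (Lagrange.nodal A (nd k) * W) = 0 := by
      rw [W.as_sum_range' (n - A.card) hWlt, Finset.mul_sum, map_sum]
      apply Finset.sum_eq_zero
      intro r hr
      have e : Lagrange.nodal A (nd k) * Polynomial.monomial r (W.coeff r)
          = (W.coeff r) • (Lagrange.nodal A (nd k) * Polynomial.X ^ r) := by
        rw [← Polynomial.C_mul_X_pow_eq_monomial, Polynomial.smul_eq_C_mul]; ring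
      rw [e, map_smul, hph r (Finset.mem_range.mp hr), smul_zero]
    rw [phi_apply, Finset.sum_eq_single j0] at h1
    · rw [Polynomial.eval_mul] at h1
      have h2 : γ j0 ≠ 0 := Finsupp.mem_support_iff.mp hj0
      have h3 : Polynomial.eval (nd k (j0 + t)) (Lagrange.nodal A (nd k)) ≠ 0 := by
        apply Lagrange.eval_nodal_not_at_node
        intro i hi heq
        have : j0 + t = i := Int.cast_injective heq
        rw [← this, hA, mem_AA] at hi
        exact hcon hi.1
      have h4 : Polynomial.eval (nd k (j0 + t)) W ≠ 0 := by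
        rw [hW, Polynomial.eval_prod]
        apply Finset.prod_ne_zero_iff.mpr
        intro j hj
        rw [Polynomial.eval_sub, Polynomial.eval_X, Polynomial.eval_C, sub_ne_zero]
        intro heq
        have : j0 + t = j + t := Int.cast_injective heq
        exact (Finset.ne_of_mem_erase hj) (by omega)
      exact (mul_ne_zero h2 (mul_ne_zero h3 h4)) h1
    · intro j hj hne
      rw [Polynomial.eval_mul]
      have : Polynomial.eval (nd k (j + t)) W = 0 := by
        rw [hW, Polynomial.eval_prod]
        apply Finset.prod_eq_zero (Finset.mem_erase.mpr ⟨hne, hj⟩)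
        simp
      rw [this]; ring
    · intro h
      exact absurd hj0 h
  · -- nilpotency
    apply sh_nil
    intro p q
    exact ⟨PP N m n a s v0 p q, PP_degree N m n a s hnpos v0 p q,
      fun j hj => PP_eval N m n a s v0 hj q⟩

end

end Pool.Agent.Helper684
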