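import Pool.Agent.Helper684.Loop3
import Pool.Agent.Helper684.PolyExt

set_option autoImplicit false

namespace Pool.Agent.Helper684

noncomputable section

variable {k : Type} [Field k]

theorem FwdK.cons {V : Type} [AddCommGroup V] [Module k V] {R : ℤ → Submodule k (V × V)} {j : ℤ}
    {x y : V} {n : ℕ} (h : (x, y) ∈ R j) (hy : FwdK R (j + 1) n y) : FwdK R j (n + 1) x := by
  obtain ⟨u, h0, hu⟩ := hy
  refine ⟨fun t => Nat.casesOn t x (fun s => u s), rfl, fun t ht => ?_⟩
  cases t with
  | zero => simpa [h0] using h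
  | succ t =>
    have := hu t (by omega)
    simp only
    convert this using 2
    push_cast; ring

theorem FwdK.add {V : Type} [AddCommGroup V] [Module k V] {R : ℤ → Submodule k (V × V)} {j : ℤ}
    {x y : V} {n : ℕ} (h : FwdK R j n x) (h' : FwdK R j n y) : FwdK R j n (x + y) :=
  (fwdKSub R j n).add_mem h h'

/-- data before the choice of the maximal backward path -/
structure Core (k : Type) [Field k] where
  S : Stage k
  l : ℤ → Lt
  red : ∀ t, l (t + 1) ≠ inv (l t)
  m : ℕ
  hm : 0 < m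
  per : ∀ t, l (t + m) = l t
  minp : ∀ o : ℤ, (∀ t, l (t + o) = l t) → (m : ℤ) ∣ o
  s : ℤ
  f : ℕ →₀ k
  hf : f ∈ VN k S.N
  hdom : ∀ y, (f, y) ∉ S.Γ (l s)

namespace Core

variable (E : Core k)

theorem l_eq {p p' : ℤ} (h : (E.m : ℤ) ∣ p - p') : E.l p = E.l p' := periodic_of_dvd E.per h

/-- relations where `f` may be forgotten at times congruent to `s` -/
def D (j : ℤ) : Submodule k ((ℕ →₀ k) × (ℕ →₀ k)) :=
  if (E.m : ℤ) ∣ j - E.s then E.S.Γ (E.l j) ⊔ Submodule.span k {(E.f, 0)} else E.S.Γ (E.l j)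

theorem mem_D {j : ℤ} {x y : ℕ →₀ k} :
    (x, y) ∈ E.D j ↔ ∃ c : k, (c ≠ 0 → (E.m : ℤ) ∣ j - E.s) ∧ (x - c • E.f, y) ∈ E.S.Γ (E.l j) := by
  unfold D
  by_cases h : (E.m : ℤ) ∣ j - E.s
  · rw [if_pos h, Submodule.mem_sup]
    constructor
    · rintro ⟨z, hz, z', hz', e⟩
      rw [Submodule.mem_span_singleton] at hz'
      obtain ⟨c, rfl⟩ := hz'
      refine ⟨c, fun _ => h, ?_⟩
      have : z = (x - c • E.f, y) := by
        rw [eq_sub_of_add_eq e]
        ext1 <;> simp
      rwa [← this]
    · rintro ⟨c, _, hc⟩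
      refine ⟨_, hc, c • (E.f, 0), Submodule.smul_mem _ _ (Submodule.mem_span_singleton_self _), ?_⟩
      ext1 <;> simp
  · rw [if_neg h]
    constructor
    · intro hx
      refine ⟨0, fun h => absurd rfl h, ?_⟩
      rwa [zero_smul, sub_zero]
    · rintro ⟨c, hc, hx⟩
      have : c = 0 := by
        by_contra hne
        exact h (hc hne)
      rwa [this, zero_smul, sub_zero] at hx

theorem D_per : ∀ t : ℤ, E.D (t + E.m) = E.D t := by
  intro t
  have h1 : ((E.m : ℤ) ∣ t + E.m - E.s) ↔ ((E.m : ℤ) ∣ t - E.s) := by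
    have e : t + (E.m : ℤ) - E.s = (t - E.s) + E.m := by ring
    rw [e]
    exact dvd_add_self_right
  unfold D
  rw [E.per]
  by_cases h : (E.m : ℤ) ∣ t - E.s
  · rw [if_pos h, if_pos (h1.2 h)]
  · rw [if_neg h, if_neg (fun h2 => h (h1.1 h2))]

theorem D_functional : Functional E.D := by
  intro j y h
  rw [mem_D] at h
  obtain ⟨c, hc, h⟩ := h
  have hc0 : c = 0 := by
    by_contra hne
    have hl := E.l_eq (hc hne)
    rw [hl] at h
    have h2 := (E.S.Γ (E.l E.s)).smul_mem (-c⁻¹) h
    rw [Prod.smul_mk] at h2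
    apply E.hdom (-c⁻¹ • y)
    convert h2 using 2
    rw [zero_sub, smul_neg, neg_smul, neg_neg, smul_smul, inv_mul_cancel₀ hne, one_smul]
  rw [hc0, zero_smul, sub_zero] at h
  exact E.S.fn _ _ h

theorem D_dom {j : ℤ} {x y : ℕ →₀ k} (h : (x, y) ∈ E.D j) : x ∈ VN k E.S.N := by
  rw [mem_D] at h
  obtain ⟨c, _, h⟩ := h
  have e : x = (x - c • E.f) + c • E.f := by abel
  rw [e]
  exact Submodule.add_mem _ (E.S.bd _ _ _ h) (Submodule.smul_mem _ _ E.hf)

theorem D_shift {j j' : ℤ} (h : (E.m : ℤ) ∣ j - j') (t : ℤ) : E.D (j + t) = E.D (j' + t) := by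
  apply periodic_of_dvd (f := E.D) E.D_per
  have e : j + t - (j' + t) = j - j' := by ring
  rwa [e]

/-- backward paths ending essentially in `f` -/
def P (R : ℕ) : Prop := ∃ (y : ℕ → (ℕ →₀ k)) (x' : ℕ →₀ k),
  (∀ i : ℕ, i < R → (y i, y (i + 1)) ∈ E.S.Γ (E.l (E.s - R + i))) ∧
  (y R - E.f, x') ∈ E.S.Γ (E.l E.s) ∧ Fwd E.D (E.s + 1) x'

theorem P_bound : ∃ KΓ : ℕ, (∀ j y, FwdK (fun t => E.S.Γ (E.l t)) j KΓ y →
    Fwd (fun t => E.S.Γ (E.l t)) j y) ∧ ∀ R, E.P R → R < KΓ := by
  obtain ⟨KΓ, hK⟩ := stab (R := fun t => E.S.Γ (E.l t)) (E.S.functional E.l) E.hm (by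
    intro t
    show E.S.Γ (E.l (t + E.m)) = _
    rw [E.per]) (VN k E.S.N) (fun _ _ _ h => E.S.bd _ _ _ h)
  refine ⟨KΓ, hK, ?_⟩
  rintro R ⟨y, x', hy, hx', _⟩
  by_contra hR
  push Not at hR
  have h1 : FwdK (fun t => E.S.Γ (E.l t)) (E.s - R) KΓ (y 0) :=
    ⟨y, rfl, fun t ht => hy t (by omega)⟩
  obtain ⟨u, hu0, hu⟩ := hK _ _ h1
  have h2 := path_unique (E.S.functional E.l) (j := E.s - R) (K := R) (u := u) (u' := y) hu0
    (fun t _ => hu t) (fun t ht => hy t ht) R (le_refl _)
  have h3 := hu R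
  simp only [sub_add_cancel] at h3
  rw [h2] at h3
  have h4 := (E.S.Γ (E.l E.s)).sub_mem h3 hx'
  rw [Prod.mk_sub_mk, sub_sub_cancel] at h4
  exact E.hdom _ h4

end Core

/-- data after the choice of the maximal backward path -/
structure Core2 (k : Type) [Field k] extends Core k where
  a : ℤ
  has : a ≤ s
  v : ℤ → (ℕ →₀ k)
  v_path : ∀ i, a ≤ i → i < s → (v i, v (i + 1)) ∈ S.Γ (l i)
  x' : ℕ →₀ k
  hx' : (v s - f, x') ∈ S.Γ (l s)
  hx'D : Fwd toCore.D (s + 1) x'
  KΓ : ℕ
  hKΓ : ∀ j y, FwdK (fun t => S.Γ (l t)) j KΓ y → Fwd (fun t => S.Γ (l t)) j y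
  maxR : ∀ T : ℕ, toCore.P T → a ≤ s - T

namespace Core2

variable (E : Core2 k)

/-- correcting a forward path with forgotten vectors into a genuine one -/
theorem S3 : ∀ (n T : ℕ), E.KΓ ≤ T + n → ∀ (j : ℤ) (u : ℕ → (ℕ →₀ k)),
    (∀ t : ℕ, t < T → (u t, u (t + 1)) ∈ E.S.Γ (E.l (j + t))) →
    Fwd E.D (j + T) (u T) →
    ∃ δ : ℤ →₀ k, (∀ i ∈ δ.support, E.a ≤ i ∧ i ≤ E.s ∧ (E.m : ℤ) ∣ i - j) ∧
      Fwd (fun t => E.S.Γ (E.l t)) j (u 0 - ev E.v δ 0) := by
  intro n
  induction n with
  | zero =>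
    intro T hT j u hu _
    refine ⟨0, by simp, ?_⟩
    rw [ev_zero, sub_zero]
    exact E.hKΓ j _ ⟨u, rfl, fun t ht => hu t (by omega)⟩
  | succ n ih =>
    intro T hT j u hu hD
    obtain ⟨z, hz, hzD⟩ := hD.uncons
    rw [Core.mem_D] at hz
    obtain ⟨c, hc, hz⟩ := hz
    by_cases hc0 : c = 0
    · subst hc0
      rw [zero_smul, sub_zero] at hz
      obtain ⟨δ, hδ, hF⟩ := ih (T + 1) (by omega) j (fun t => if t ≤ T then u t else z) (by
        intro t ht
        by_cases h1 : t < T
        · have e1 : t ≤ T := by omega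
          have e2 : t + 1 ≤ T := by omega
          simp only [if_pos e1, if_pos e2]
          exact hu t h1
        · have e0 : t = T := by omega
          subst e0
          have e2 : ¬ t + 1 ≤ t := by omega
          simp only [le_refl, if_true, if_neg e2]
          exact hz) (by
        have e2 : ¬ T + 1 ≤ T := by omega
        simp only [if_neg e2]
        have e : j + ((T + 1 : ℕ) : ℤ) = j + T + 1 := by push_cast; ring
        rw [e]; exact hzD)
      refine ⟨δ, hδ, ?_⟩
      simpa using hF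
    · have hd := hc hc0
      have hls : E.l (j + T) = E.l E.s := E.l_eq hd
      have hT : E.a ≤ E.s - T := by
        apply E.maxR T
        refine ⟨fun i => c⁻¹ • u i, c⁻¹ • z, ?_, ?_, ?_⟩
        · intro i hi
          have h1 := (E.S.Γ (E.l (j + i))).smul_mem c⁻¹ (hu i hi)
          have h2 : E.l (E.s - T + i) = E.l (j + i) := by
            apply E.l_eq
            have e : E.s - T + i - (j + i) = -(j + T - E.s) := by ring
            rw [e]; exact (dvd_neg).2 hd
          rw [h2]
          exact h1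
        · have h1 := (E.S.Γ (E.l (j + T))).smul_mem c⁻¹ hz
          rw [Prod.smul_mk, smul_sub, smul_smul, inv_mul_cancel₀ hc0, one_smul, hls] at h1
          exact h1
        · apply Fwd.smul
          apply hzD.congr
          intro t
          apply E.D_shift
          have e : j + T + 1 - (E.s + 1) = j + T - E.s := by ring
          rwa [e]
      obtain ⟨δ, hδ, hF⟩ := ih (T + 1) (by omega) j
        (fun t => if t ≤ T then u t - c • E.v (E.s - T + t) else z - c • E.x') (by
        intro t ht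
        by_cases h1 : t < T
        · have e1 : t ≤ T := by omega
          have e2 : t + 1 ≤ T := by omega
          simp only [if_pos e1, if_pos e2]
          have h2 : E.l (E.s - T + t) = E.l (j + t) := by
            apply E.l_eq
            have e : E.s - T + t - (j + t) = -(j + T - E.s) := by ring
            rw [e]; exact (dvd_neg).2 hd
          have h3 := E.v_path (E.s - T + t) (by omega) (by omega)
          rw [h2] at h3
          have h4 := (E.S.Γ (E.l (j + t))).sub_mem (hu t h1)
            ((E.S.Γ (E.l (j + t))).smul_mem c h3)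
          have e : E.s - (T : ℤ) + ((t + 1 : ℕ) : ℤ) = E.s - T + t + 1 := by push_cast; ring
          rw [e]
          exact h4
        · have e0 : t = T := by omega
          subst e0
          have e2 : ¬ t + 1 ≤ t := by omega
          simp only [le_refl, if_true, if_neg e2, sub_add_cancel]
          have h3 := E.hx'
          rw [← hls] at h3
          have h4 := (E.S.Γ (E.l (j + t))).sub_mem hz
            ((E.S.Γ (E.l (j + t))).smul_mem c h3)
          rw [Prod.smul_mk, Prod.mk_sub_mk] at h4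
          convert h4 using 2
          rw [smul_sub]; abel) (by
        have e2 : ¬ T + 1 ≤ T := by omega
        simp only [if_neg e2]
        have e : j + ((T + 1 : ℕ) : ℤ) = j + T + 1 := by push_cast; ring
        rw [e, sub_eq_add_neg, ← neg_smul]
        apply Fwd.add hzD
        apply Fwd.smul
        apply E.hx'D.congr
        intro t
        apply E.D_shift
        have e : E.s + 1 - (j + T + 1) = -(j + T - E.s) := by ring
        rw [e]; exact (dvd_neg).2 hd)
      refine ⟨δ + Finsupp.single (E.s - T) c, ?_, ?_⟩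
      · intro i hi
        rcases Finset.mem_union.1 (Finsupp.support_add hi) with h | h
        · exact hδ i h
        · have := Finsupp.support_single_subset h
          rw [Finset.mem_singleton] at this
          subst this
          refine ⟨hT, by omega, ?_⟩
          have e : E.s - T - j = -(j + T - E.s) := by ring
          rw [e]; exact (dvd_neg).2 hd
      · rw [ev_add, ev_single]
        have h0 : (0 : ℕ) ≤ T := Nat.zero_le _
        simp only [if_pos h0, Nat.cast_zero, add_zero] at hF ⊢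
        have e : u 0 - (ev E.v δ 0 + c • E.v (E.s - T)) = u 0 - c • E.v (E.s - T) - ev E.v δ 0 := by
          abel
        rw [e]; exact hF

theorem S3' {j : ℤ} {y : ℕ →₀ k} (h : Fwd E.D j y) :
    ∃ δ : ℤ →₀ k, (∀ i ∈ δ.support, E.a ≤ i ∧ i ≤ E.s ∧ (E.m : ℤ) ∣ i - j) ∧
      ∃ τ : ℤ → (ℕ →₀ k), (∀ t, (τ t, τ (t + 1)) ∈ E.S.Γ (E.l t)) ∧ τ j = y - ev E.v δ 0 := by
  obtain ⟨δ, hδ, hF⟩ := E.S3 E.KΓ 0 (by omega) j (fun _ => y) (by intro t ht; omega)
    (by simpa using h)
  refine ⟨δ, hδ, ?_⟩
  exact bi (R := fun t => E.S.Γ (E.l t)) (E.S.functional E.l) (E.S.cofunctional E.l) E.hm (by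
    intro t
    show E.S.Γ (E.l (t + E.m)) = _
    rw [E.per]) (VN k E.S.N) (fun _ _ _ h => E.S.bd _ _ _ h) hF

end Core2

namespace PreLoop

variable (C : PreLoop k)

/-- exits along the letter of the loop -/
theorem exit1 (hΛ : 2 ≤ C.Λ) {p : ℤ} {x y : ℕ →₀ k} (h : (x, y) ∈ C.G (C.l p))
    (hx : ∀ p', C.π p' x = 0) (hy : ∀ p', ¬ (C.m : ℤ) ∣ p + 1 - p' → C.π p' y = 0) :
    ∃ (α : k) (x1 y1 : ℕ →₀ k), (x1, y1) ∈ C.S.Γ (C.l p) ∧ (α ≠ 0 → (C.m : ℤ) ∣ C.s - p) ∧
      x = x1 + α • C.v C.s ∧ y = y1 + α • C.v (C.s + 1) := by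
  have hsa := C.has
  obtain ⟨α, β, x1, y1, h1, hα, hβ, ex, ey⟩ := C.exit h hx
  have hyVN : y1 ∈ VN k C.S.N := C.S.bd' h1
  have key : ∀ p', ¬ (C.m : ℤ) ∣ p + 1 - p' →
      C.π p' (α • C.v (C.s + 1) + β • C.v (C.a - 1)) = 0 := by
    intro p' hp'
    have h2 := hy p' hp'
    rw [ey, add_assoc, map_add, C.π_N _ _ hyVN, zero_add] at h2
    exact h2
  have hβ1 : β ≠ 0 → ¬ (C.m : ℤ) ∣ p + 1 - (C.a - 1) := by
    intro hne hd
    have h2 := hβ hne
    have h3 := C.l_eq hd
    apply C.red p
    rw [h3, h2]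
  have single0 : ∀ (j : ℤ) (c : k), (j < C.a ∨ C.s < j) → C.π j (c • C.v j) = 0 → c = 0 := by
    intro j c hj h2
    by_contra hne
    have hX := C.X4 (Finsupp.single j c) j 0 (Cls.single (fun _ => by simp)) (by
      have := Finset.card_le_card (Finsupp.support_single_subset (a := j) (b := c))
      rw [Finset.card_singleton] at this
      omega) (by rw [ev_single, add_zero]; exact h2) j (by
      rw [Finsupp.mem_support_iff]; simpa using hne)
    omega
  have hβ0 : β = 0 := by
    by_contra hne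
    have hnd := hβ1 hne
    have h2 := key (C.a - 1) hnd
    by_cases hd : (C.m : ℤ) ∣ C.a - 1 - (C.s + 1)
    · set γ : ℤ →₀ k := Finsupp.single (C.s + 1) α + Finsupp.single (C.a - 1) β with hγ
      have hc : Cls C.m γ (C.s + 1) := by
        apply Cls.add
        · exact Cls.single (fun _ => by simp)
        · exact Cls.single (fun _ => hd)
      have hcard : γ.support.card ≤ C.Λ := by
        have h2 : γ.support ⊆ {C.s + 1, C.a - 1} := by
          intro j hj
          rcases Finset.mem_union.1 (Finsupp.support_add hj) with h | h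
          · have := Finsupp.support_single_subset h
            rw [Finset.mem_singleton] at this
            rw [this]; simp
          · have := Finsupp.support_single_subset h
            rw [Finset.mem_singleton] at this
            rw [this]; simp
        have h3 := (Finset.card_le_card h2).trans Finset.card_le_two
        omega
      have h0 : C.π (C.s + 1 + 0) (ev C.v γ 0) = 0 := by
        rw [hγ, ev_add, ev_single, ev_single, add_zero, add_zero]
        rw [C.π_cls (C.s + 1) (C.a - 1) (by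
          have e : C.s + 1 - (C.a - 1) = -(C.a - 1 - (C.s + 1)) := by ring
          rw [e]; exact (dvd_neg).2 hd)]
        exact h2
      have hX := C.X4 γ (C.s + 1) 0 hc hcard h0
      have : C.a - 1 ∈ γ.support := by
        rw [Finsupp.mem_support_iff, hγ, Finsupp.add_apply, Finsupp.single_apply,
          Finsupp.single_apply, if_pos rfl, if_neg (by omega), zero_add]
        exact hne
      have := hX _ this
      omega
    · have hd' : ¬ (C.m : ℤ) ∣ C.s + 1 - (C.a - 1) := by
        intro h3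
        apply hd
        have e : C.a - 1 - (C.s + 1) = -(C.s + 1 - (C.a - 1)) := by ring
        rw [e]; exact (dvd_neg).2 h3
      rw [map_add, map_smul _ α, C.π_v _ _ hd', smul_zero, zero_add] at h2
      exact hne (single0 (C.a - 1) β (Or.inl (by omega)) h2)
  subst hβ0
  refine ⟨α, x1, y1, h1, ?_, ?_, ?_⟩
  · intro hne
    by_contra hnd
    have hnd' : ¬ (C.m : ℤ) ∣ p + 1 - (C.s + 1) := by
      intro h3
      apply hnd
      have e : C.s - p = -(p + 1 - (C.s + 1)) := by ring
      rw [e]; exact (dvd_neg).2 h3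
    have h2 := key (C.s + 1) hnd'
    rw [zero_smul, add_zero] at h2
    exact hne (single0 (C.s + 1) α (Or.inr (by omega)) h2)
  · rw [ex, zero_smul, add_zero]
  · rw [ey, zero_smul, add_zero]

/-- splitting off the aligned block component -/
theorem split0 {p : ℤ} {x y : ℕ →₀ k} (h : (x, y) ∈ C.G (C.l p))
    (hx : ∀ p', ¬ (C.m : ℤ) ∣ p - p' → C.π p' x = 0) :
    ∃ γ : ℤ →₀ k, Cls C.m γ p ∧ ∀ p', C.π p' (x - ev C.v γ 0) = 0 := by
  obtain ⟨x0, y0, α, β, h0, hα, hβ, ex, ey⟩ := C.dec h
  refine ⟨α.filter (fun j => (C.m : ℤ) ∣ j + 0 - p), ?_, ?_⟩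
  · intro j hj
    rw [Finsupp.support_filter, Finset.mem_filter] at hj
    have := hj.2
    rwa [add_zero] at this
  · intro p'
    by_cases hd : (C.m : ℤ) ∣ p - p'
    · rw [← C.π_cls p p' hd, map_sub, ← C.π_filter, ex, map_add, map_add,
        C.π_N p x0 (C.S.bd _ _ _ h0)]
      have hβ1 : C.π p (ev C.v β 1) = 0 := by
        apply C.π_off
        intro j hj hd
        have h1 := hβ j hj
        have h2 : C.l j = C.l (p - 1) := by
          apply C.l_eq
          have e : j - (p - 1) = j + 1 - p := by ring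
          rwa [e]
        rw [h2] at h1
        have h3 := C.red (p - 1)
        rw [sub_add_cancel] at h3
        exact h3 (eq_inv_comm.1 h1)
      rw [hβ1]
      simp
    · rw [map_sub, hx p' hd, zero_sub, neg_eq_zero]
      apply C.π_off
      intro j hj hd2
      rw [Finsupp.support_filter, Finset.mem_filter] at hj
      apply hd
      have := dvd_sub hd2 hj.2
      have e : j + 0 - p' - (j + 0 - p) = p - p' := by ring
      rwa [e] at this

end PreLoop

end

end Pool.Agent.Helper684
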