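import Pool.Agent.Helper684.Core

set_option autoImplicit false

namespace Pool.Agent.Helper684

noncomputable section

variable {k : Type} [Field k]

/-- data after the polynomial extension -/
structure Core3 (k : Type) [Field k] extends Core2 k where
  v_mem : ∀ i, a ≤ i → i ≤ s → v i ∈ VN k S.N
  bdry : ∀ (L : Lt) (α β : k), (α ≠ 0 → l s = L) → (β ≠ 0 → l (a - 1) = inv L) →
    ∀ y, (α • v s + β • v a, y) ∈ S.Γ L → α = 0 ∧ β = 0
  π : ℤ → (ℕ →₀ k) →ₗ[k] (ℕ → k)
  π_N : ∀ p x, x ∈ VN k S.N → π p x = 0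
  π_cls : ∀ p p', (m : ℤ) ∣ p - p' → π p = π p'
  π_v : ∀ p j, ¬ (m : ℤ) ∣ j - p → π p (v j) = 0
  Λ : ℕ
  X3 : ∀ (γ : ℤ →₀ k) (c t : ℤ), Cls m γ c → π (c + t) (ev v γ t) = 0 →
    ∃ γ' : ℤ →₀ k, (∀ j ∈ γ'.support, a ≤ j ∧ j ≤ s ∧ (m : ℤ) ∣ j - (c + t)) ∧
      ∀ r, ev v γ (t + r) = ev v γ' r
  X4 : ∀ (γ : ℤ →₀ k) (c t : ℤ), Cls m γ c → γ.support.card ≤ Λ →
    π (c + t) (ev v γ t) = 0 → ∀ j ∈ γ.support, a ≤ j + t ∧ j + t ≤ s
  K : ℕ
  hK : ∀ j y, FwdK toCore.D j K y → Fwd toCore.D j y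

namespace Core3

variable (E : Core3 k)

def pre : PreLoop k where
  S := E.S
  l := E.l
  red := E.red
  m := E.m
  hm := E.hm
  per := E.per
  minp := E.minp
  a := E.a
  s := E.s
  has := E.has
  v := E.v
  v_mem := E.v_mem
  v_path := E.v_path
  bdry := E.bdry
  π := E.π
  π_N := E.π_N
  π_cls := E.π_cls
  π_v := E.π_v
  Λ := E.Λ
  X3 := E.X3
  X4 := E.X4

theorem chain (hΛ : 2 ≤ E.Λ) : ∀ (n : ℕ) (o t0 : ℤ) (w : ℤ → (ℕ →₀ k)),
    (∀ t, t0 ≤ t → t < t0 + n → (w t, w (t + 1)) ∈ E.pre.G (E.l (o + t))) →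
    (∀ t, t0 ≤ t → t ≤ t0 + n → ∀ p, ¬ (E.m : ℤ) ∣ o + t - p → E.π p (w t) = 0) →
    (∀ p, E.π p (w t0) = 0) → FwdK E.D (o + t0) n (w t0) := by
  intro n
  induction n with
  | zero =>
    intro o t0 w _ _ _
    exact ⟨fun _ => w t0, rfl, by intro t ht; omega⟩
  | succ n ih =>
    intro o t0 w hw hπ h0
    obtain ⟨α, x1, y1, h1, hα, ex, ey⟩ := E.pre.exit1 hΛ (p := o + t0)
      (hw t0 (le_refl _) (by push_cast; omega)) h0 (by
        intro p' hp'
        apply hπ (t0 + 1) (by omega) (by push_cast; omega)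
        intro h
        apply hp'
        have e : o + t0 + 1 - p' = o + (t0 + 1) - p' := by ring
        rw [e]; exact h)
    have hα' : α ≠ 0 → (E.m : ℤ) ∣ E.s - (o + t0) := hα
    have hcls : Cls E.pre.m (Finsupp.single (E.s - t0) α) o := by
      apply Cls.single
      intro hne
      have e : E.s - t0 - o = E.s - (o + t0) := by ring
      rw [e]; exact hα hne
    have hy1 : w (t0 + 1) - ev E.v (Finsupp.single (E.s - t0) α) (t0 + 1) = y1 := by
      rw [ev_single]
      have e : E.s - t0 + (t0 + 1) = E.s + 1 := by ring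
      rw [e, ey]
      show y1 + α • E.v (E.s + 1) - α • E.v (E.s + 1) = y1
      abel
    have key := ih o (t0 + 1) (fun t => w t - ev E.v (Finsupp.single (E.s - t0) α) t) (by
        intro t h2 h3
        exact (E.pre.G _).sub_mem (hw t (by omega) (by push_cast; omega))
          (E.pre.ev_G hcls t)) (by
        intro t h2 h3 p hp
        show E.π p (w t - ev E.v (Finsupp.single (E.s - t0) α) t) = 0
        rw [map_sub, hπ t (by omega) (by push_cast; omega) p hp, zero_sub, neg_eq_zero]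
        apply E.pre.π_off
        intro j hj hd
        apply hp
        have h4 := hcls j hj
        have h5 := dvd_sub hd h4
        have e : j + t - p - (j - o) = o + t - p := by ring
        rwa [e] at h5) (by
        intro p
        show E.π p (w (t0 + 1) - ev E.v (Finsupp.single (E.s - t0) α) (t0 + 1)) = 0
        rw [hy1]
        exact E.π_N _ _ (E.S.bd' h1))
    rw [hy1, ← add_assoc] at key
    have h1' : (x1, y1) ∈ E.S.Γ (E.l (o + t0)) := h1
    have ex' : w t0 = x1 + α • E.v E.s := ex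
    by_cases hα0 : α = 0
    · subst hα0
      apply FwdK.cons _ key
      rw [Core.mem_D]
      refine ⟨0, fun h => absurd rfl h, ?_⟩
      rw [ex', zero_smul, zero_smul, sub_zero, add_zero]
      exact h1'
    · have hd := hα' hα0
      have hd2 : (E.m : ℤ) ∣ o + t0 - E.s := by
        have e : o + t0 - E.s = -(E.s - (o + t0)) := by ring
        rw [e]; exact (dvd_neg).2 hd
      have hls : E.l (o + t0) = E.l E.s := E.l_eq hd2
      apply FwdK.cons (y := y1 + α • E.x')
      · rw [Core.mem_D]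
        refine ⟨α, fun _ => hd2, ?_⟩
        rw [hls] at h1' ⊢
        have h2 := (E.S.Γ (E.l E.s)).add_mem h1' ((E.S.Γ (E.l E.s)).smul_mem α E.hx')
        rw [Prod.smul_mk, Prod.mk_add_mk] at h2
        convert h2 using 2
        rw [ex', smul_sub]; abel
      · apply FwdK.add key
        apply Fwd.fwdK
        apply Fwd.smul
        apply E.hx'D.congr
        intro t
        apply E.D_shift
        have e : E.s + 1 - (o + t0 + 1) = E.s - (o + t0) := by ring
        rwa [e]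

theorem lp (hΛ : 2 ≤ E.Λ) : E.pre.LP (E.K + 1) := by
  intro o t0 w hw hπ
  have hw0 := hw t0 (le_refl _) (by push_cast; omega)
  obtain ⟨γ, hγ, hγ0⟩ := E.pre.split0 (p := o + t0) hw0 (hπ t0 (le_refl _) (by push_cast; omega))
  set γ0 := shF γ (-t0) with hγ0d
  have hc0 : Cls E.pre.m γ0 o := by
    have := hγ.shF (t := -t0)
    have e : o + t0 + -t0 = o := by ring
    rwa [e] at this
  have he0 : ev E.v γ0 t0 = ev E.v γ 0 := by
    rw [hγ0d, ev_shF]
    congr 1
    ring
  have hch := E.chain hΛ (E.K + 1) o t0 (fun t => w t - ev E.v γ0 t) (by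
      intro t h1 h2
      exact (E.pre.G _).sub_mem (hw t h1 h2) (E.pre.ev_G hc0 t)) (by
      intro t h1 h2 p hp
      show E.π p (w t - ev E.v γ0 t) = 0
      have h3 : E.π p (w t) = 0 := hπ t h1 h2 p hp
      rw [map_sub, h3, zero_sub, neg_eq_zero]
      apply E.pre.π_off
      intro j hj hd
      apply hp
      have h4 := hc0 j hj
      have h5 := dvd_sub hd h4
      have e : j + t - p - (j - o) = o + t - p := by ring
      rwa [e] at h5) (by
      intro p
      show E.π p (w t0 - ev E.v γ0 t0) = 0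
      rw [he0]
      exact hγ0 p)
  obtain ⟨δ, hδ, τ, hτ, hτ0⟩ := E.S3' (E.hK _ _ (hch.mono (Nat.le_succ _)))
  have hδc : Cls E.pre.m (shF δ (-t0)) o := by
    have h1 : Cls E.pre.m δ (o + t0) := fun i hi => (hδ i hi).2.2
    have := h1.shF (t := -t0)
    have e : o + t0 + -t0 = o := by ring
    rwa [e] at this
  have hτ' : ∀ t, (τ t, τ (t + 1)) ∈ E.pre.S.Γ (E.pre.l t) := hτ
  have hcc := hc0.add hδc
  refine ⟨γ0 + shF δ (-t0), τ, hcc, hτ', ?_⟩
  have hstart : w t0 = ev E.v (γ0 + shF δ (-t0)) t0 + τ (o + t0) := by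
    rw [ev_add, ev_shF E.v δ (-t0) t0, hτ0, neg_add_cancel]
    abel
  intro t h1 h2
  have hmod := E.pre.model_G hcc hτ'
  have := E.pre.agree_fwd (L := fun t => E.l (o + t)) (w := w)
    (w' := fun t => ev E.v (γ0 + shF δ (-t0)) t + τ (o + t)) (t0 := t0) (t - t0).toNat
    (fun i hi => hw (t0 + i) (by omega) (by omega))
    (fun i hi => hmod (t0 + i)) hstart (t - t0).toNat (le_refl _)
  have e : t0 + ((t - t0).toNat : ℤ) = t := by omega
  rwa [e] at this

end Core3

theorem PreLoop.G_bd (C : PreLoop k) {N' : ℕ} (hN : C.S.N ≤ N') (hv : ∀ j, C.v j ∈ VN k N')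
    {L : Lt} {x y : ℕ →₀ k} (h : (x, y) ∈ C.G L) : x ∈ VN k N' := by
  obtain ⟨x0, y0, α, β, h0, _, _, ex, _⟩ := C.dec h
  have hev : ∀ (γ : ℤ →₀ k) (t : ℤ), ev C.v γ t ∈ VN k N' := by
    intro γ t
    rw [ev_eq_sum]
    exact Submodule.sum_mem _ (fun j _ => Submodule.smul_mem _ _ (hv _))
  rw [ex]
  exact Submodule.add_mem _ (Submodule.add_mem _ (VN_mono hN (C.S.bd _ _ _ h0)) (hev _ _)) (hev _ _)

/-- closing up -/
theorem Core.closing [CharZero k] [IsAlgClosed k] (E : Core k) (hI : Good E.S.Γ)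
    (z : ℕ → (ℕ →₀ k))
    (hz : ∀ i : ℕ, i < E.m → (z i, z (i + 1)) ∈ E.S.Γ (E.l (E.s - E.m + i))) (hzm : z E.m = E.f)
    (H2 : ∀ (R : ℕ) (y : ℕ → (ℕ →₀ k)) (x'' : ℕ →₀ k), E.m ≤ R →
      (∀ i : ℕ, i < R → (y i, y (i + 1)) ∈ E.S.Γ (E.l (E.s - R + i))) →
      (y R - E.f, x'') ∈ E.S.Γ (E.l E.s) → E.l E.s = inv (E.l (E.s - R - 1)) →
      ∀ (α β : k) (y'' : ℕ →₀ k), α ≠ 0 → β ≠ 0 →
      (α • y R + β • y 0, y'') ∈ E.S.Γ (E.l E.s) → False) :
    ∃ S' : Stage k, E.S.Le S' ∧ Good S'.Γ ∧ ∀ j y, Fwd E.D j y → ∃ x : ℤ → (ℕ →₀ k),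
      (∀ t, (x t, x (t + 1)) ∈ S'.Γ (E.l t)) ∧ x j = y ∧
      ∃ M : ℕ, (((Sh (E.m : ℤ) : Module.End k (ℤ → (ℕ →₀ k))) - 1) ^ M) x = 0 := by
  classical
  obtain ⟨KΓ, hKΓ, hb⟩ := E.P_bound
  have hPm : E.P E.m := ⟨z, 0, hz, by rw [hzm, sub_self]; exact Submodule.zero_mem _, Fwd.zero _ _⟩
  have hR : E.P (Nat.findGreatest E.P KΓ) := Nat.findGreatest_spec (hb _ hPm).le hPm
  have hmax : ∀ T, E.P T → T ≤ Nat.findGreatest E.P KΓ := fun T hT =>
    Nat.le_findGreatest (hb T hT).le hT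
  have hmR := hmax _ hPm
  generalize Nat.findGreatest E.P KΓ = R at hR hmax hmR
  obtain ⟨y, x', hy, hx', hx'D⟩ := hR
  obtain ⟨K, hK⟩ := stab E.D_functional E.hm E.D_per (VN k E.S.N) (fun _ _ _ h => E.D_dom h)
  set a : ℤ := E.s - R with ha
  have has : a ≤ E.s := by omega
  set v0 : ℤ → (ℕ →₀ k) := fun i => y (i - a).toNat with hv0
  have v0s : v0 E.s = y R := by
    show y (E.s - a).toNat = y R
    congr 1
    omega
  have v0a : v0 a = y 0 := by
    show y (a - a).toNat = y 0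
    congr 1
    omega
  have v0_path : ∀ i, a ≤ i → i < E.s → (v0 i, v0 (i + 1)) ∈ E.S.Γ (E.l i) := by
    intro i h1 h2
    have h3 := hy (i - a).toNat (by omega)
    have e1 : E.s - R + ((i - a).toNat : ℤ) = i := by omega
    have e2 : (i - a).toNat + 1 = (i + 1 - a).toNat := by omega
    rw [e1, e2] at h3
    exact h3
  have v0_mem : ∀ i, a ≤ i → i ≤ E.s → v0 i ∈ VN k E.S.N := by
    intro i h1 h2
    rcases lt_or_eq_of_le h2 with h3 | h3
    · exact E.S.bd _ _ _ (v0_path i h1 h3)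
    · rw [h3, v0s]
      have e : y R = (y R - E.f) + E.f := by abel
      rw [e]
      exact Submodule.add_mem _ (E.S.bd _ _ _ hx') E.hf
  obtain ⟨N', v, π, M, hN', hvN', hv0', hπN, hπcls, hπv, hX3, hX4, hnil⟩ :=
    poly_ext E.S.N E.m E.hm a E.s has v0 v0_mem (K + 1 + 2 * E.m + (E.s - a + 1).toNat)
  have vs : v E.s = y R := by rw [hv0' E.s has (le_refl _), v0s]
  have va : v a = y 0 := by rw [hv0' a (le_refl _) has, v0a]
  let F : Core3 k :=
    { E with
      a := a
      has := has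
      v := v
      v_path := by
        intro i h1 h2
        rw [hv0' i h1 (by omega), hv0' (i + 1) (by omega) (by omega)]
        exact v0_path i h1 h2
      x' := x'
      hx' := by rw [vs]; exact hx'
      hx'D := hx'D
      KΓ := KΓ
      hKΓ := hKΓ
      maxR := by
        intro T hT
        have := hmax T hT
        omega
      v_mem := by
        intro i h1 h2
        rw [hv0' i h1 h2]
        exact v0_mem i h1 h2
      bdry := by
        intro L α β hα hβ y' hy'
        rw [vs, va] at hy'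
        by_cases hα0 : α = 0
        · refine ⟨hα0, ?_⟩
          by_contra hβ0
          rw [hα0, zero_smul, zero_add] at hy'
          have h1 := (E.S.Γ L).smul_mem β⁻¹ hy'
          rw [Prod.smul_mk, smul_smul, inv_mul_cancel₀ hβ0, one_smul] at h1
          have h2 := E.S.sym _ _ _ h1
          rw [← hβ hβ0] at h2
          have h3 : E.P (R + 1) := by
            refine ⟨fun i => Nat.casesOn i (β⁻¹ • y') (fun i => y i), x', ?_, hx', hx'D⟩
            intro i hi
            cases i with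
            | zero =>
              have e : E.s - ((R + 1 : ℕ) : ℤ) + ((0 : ℕ) : ℤ) = a - 1 := by push_cast; omega
              rw [e]
              exact h2
            | succ i =>
              have h4 := hy i (by omega)
              have e : E.s - ((R + 1 : ℕ) : ℤ) + ((i + 1 : ℕ) : ℤ) = E.s - R + i := by
                push_cast; ring
              rw [e]
              exact h4
          have := hmax _ h3
          omega
        · exfalso
          have hLs := hα hα0
          subst hLs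
          by_cases hβ0 : β = 0
          · rw [hβ0, zero_smul, add_zero] at hy'
            have h1 := (E.S.Γ (E.l E.s)).smul_mem α⁻¹ hy'
            rw [Prod.smul_mk, smul_smul, inv_mul_cancel₀ hα0, one_smul] at h1
            have h2 := (E.S.Γ (E.l E.s)).sub_mem h1 hx'
            rw [Prod.mk_sub_mk, sub_sub_cancel] at h2
            exact E.hdom _ h2
          · have h1 := hβ hβ0
            exact H2 R y x' hmR hy hx' (eq_inv_comm.1 h1) α β y' hα0 hβ0 hy'
      π := π
      π_N := hπN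
      π_cls := hπcls
      π_v := hπv
      Λ := K + 1 + 2 * E.m + (E.s - a + 1).toNat
      X3 := hX3
      X4 := hX4
      K := K
      hK := hK }
  have hΛ2 : 2 ≤ F.Λ := by
    show 2 ≤ K + 1 + 2 * E.m + (E.s - a + 1).toNat
    have := E.hm
    omega
  have hlp := F.lp hΛ2
  have hgood : Good F.pre.G := by
    apply F.pre.good_G (K := K + 1) _ _ hlp hI ⟨M, hnil⟩
    · show K + 1 + 2 * E.m ≤ K + 1 + 2 * E.m + (E.s - a + 1).toNat
      omega
    · show E.s - a + 1 ≤ ((K + 1 + 2 * E.m + (E.s - a + 1).toNat : ℕ) : ℤ)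
      push_cast
      omega
  refine ⟨⟨N', F.pre.G, fun l x y h => F.pre.G_sym h, fun l x y h => F.pre.G_bd hN' hvN' h,
    fun l y h => F.pre.G_fn h⟩, ⟨hN', fun l => F.pre.le_G l⟩, hgood, ?_⟩
  intro j y1 hy1
  obtain ⟨δ, hδ, τ, hτ, hτ0⟩ := F.S3' hy1
  have hδc : Cls F.pre.m (shF δ (-j)) 0 := by
    have h1 : Cls F.pre.m δ j := fun i hi => (hδ i hi).2.2
    have := h1.shF (t := -j)
    have e : j + -j = 0 := by ring
    rwa [e] at this
  have hτ' : ∀ t, (τ t, τ (t + 1)) ∈ F.pre.S.Γ (F.pre.l t) := hτ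
  obtain ⟨M1, hM1⟩ := F.pre.exists_M hI
  refine ⟨fun t => ev v (shF δ (-j)) t + τ t, ?_, ?_, max M1 M, ?_⟩
  · intro t
    have := F.pre.model_G hδc hτ' t
    simp only [zero_add] at this
    exact this
  · show ev v (shF δ (-j)) j + τ j = y1
    rw [ev_shF, hτ0, neg_add_cancel]
    show ev v δ 0 + (y1 - ev v δ 0) = y1
    abel
  · have e : (fun t => ev v (shF δ (-j)) t + τ t) = (fun t => ev v (shF δ (-j)) t) + τ := rfl
    rw [e, map_add]
    have h1 : (((Sh (E.m : ℤ) : Module.End k (ℤ → (ℕ →₀ k))) - 1) ^ (max M1 M))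
        (fun t => ev v (shF δ (-j)) t) = 0 :=
      F.pre.ev_nilp (Sh_nilp_mono (le_max_right _ _) hnil) _
    have h2 : (((Sh (E.m : ℤ) : Module.End k (ℤ → (ℕ →₀ k))) - 1) ^ (max M1 M)) τ = 0 :=
      Sh_nilp_mono (le_max_left _ _) (hM1 τ hτ')
    rw [h1, h2, add_zero]

end

end Pool.Agent.Helper684
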