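import Pool.Agent.Helper684.Stage

set_option autoImplicit false

namespace Pool.Agent.Helper684

noncomputable section

section

variable {k : Type} [Field k]

/-- the product of the operators along a sequence of letters -/
def prodT {V : Type} [AddCommGroup V] [Module k V] (T : Lt → (V →ₗ[k] V)) (l : ℤ → Lt) :
    ℕ → (V →ₗ[k] V)
  | 0 => LinearMap.id
  | n + 1 => T (l n) ∘ₗ prodT T l n

/-! ### the initial stage -/

section init

/-- source vectors of the initial relations -/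
def srcV (k : Type) [Field k] : Lt → (ℕ →₀ k)
  | (_, true) => Finsupp.single 0 1
  | (0, false) => Finsupp.single 1 1
  | (1, false) => (3 : k) • Finsupp.single 0 1 - Finsupp.single 1 1

variable [CharZero k]

theorem three_ne : (3 : k) ≠ 0 := by exact_mod_cast (by norm_num : (3 : ℕ) ≠ 0)

theorem srcV_mem (l : Lt) : srcV k l ∈ VN k 2 := by
  obtain ⟨i, b⟩ := l
  cases b
  · fin_cases i
    · exact single_mem_VN (by norm_num) 1
    · exact Submodule.sub_mem _ (Submodule.smul_mem _ _ (single_mem_VN (by norm_num) 1))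
        (single_mem_VN (by norm_num) 1)
  · exact single_mem_VN (by norm_num) 1

theorem srcV_key (L L' : Lt) (hne : L ≠ L') (c c' : k) (h : c • srcV k L = c' • srcV k L')
    (h0 : c • srcV k L ≠ 0) : L.2 = true := by
  have h3 := three_ne (k := k)
  obtain ⟨i, b⟩ := L
  cases b
  · exfalso
    obtain ⟨i', b'⟩ := L'
    have e0 := congrArg (fun f : ℕ →₀ k => f 0) h
    have e1 := congrArg (fun f : ℕ →₀ k => f 1) h
    cases b' <;> fin_cases i <;> fin_cases i' <;> simp [srcV] at e0 e1 h0 hne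
    all_goals simp_all
  · rfl

end init


section stages

variable [CharZero k]

theorem srcV_ne (l : Lt) : srcV k l ≠ 0 := by
  obtain ⟨i, b⟩ := l
  cases b
  · fin_cases i
    · intro h
      have := congrArg (fun f : ℕ →₀ k => f 1) h
      simp [srcV] at this
    · intro h
      have := congrArg (fun f : ℕ →₀ k => f 1) h
      simp [srcV] at this
  · intro h
    have := congrArg (fun f : ℕ →₀ k => f 0) h
    simp [srcV] at this

/-- the initial stage -/
def S0 (k : Type) [Field k] [CharZero k] : Stage k where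
  N := 2
  Γ l := Submodule.span k {(srcV k l, srcV k (inv l))}
  sym := by
    intro l x y h
    rw [Submodule.mem_span_singleton] at h ⊢
    obtain ⟨c, hc⟩ := h
    refine ⟨c, ?_⟩
    rw [inv_inv]
    have h1 := congrArg Prod.fst hc
    have h2 := congrArg Prod.snd hc
    exact Prod.ext h2 h1
  bd := by
    intro l x y h
    rw [Submodule.mem_span_singleton] at h
    obtain ⟨c, hc⟩ := h
    have h1 := congrArg Prod.fst hc
    have h2 : c • srcV k l = x := h1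
    rw [← h2]
    exact Submodule.smul_mem _ _ (srcV_mem l)
  fn := by
    intro l y h
    rw [Submodule.mem_span_singleton] at h
    obtain ⟨c, hc⟩ := h
    have h1 : c • srcV k l = 0 := congrArg Prod.fst hc
    have h2 : c • srcV k (inv l) = y := congrArg Prod.snd hc
    rcases smul_eq_zero.mp h1 with h | h
    · rw [← h2, h, zero_smul]
    · exact absurd h (srcV_ne l)

theorem S0_good : Good (S0 k).Γ := by
  intro l w q μ _ hred _ hpath _ _
  by_contra hw
  have hstep : ∀ t, w t ≠ 0 → w (t + 1) ≠ 0 ∧ (inv (l t)).2 = true ∧ (l (t + 1)).2 = true := by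
    intro t ht
    obtain ⟨c, hc⟩ := Submodule.mem_span_singleton.mp (hpath t)
    obtain ⟨c', hc'⟩ := Submodule.mem_span_singleton.mp (hpath (t + 1))
    have h1 : c • srcV k (l t) = w t := congrArg Prod.fst hc
    have h2 : c • srcV k (inv (l t)) = w (t + 1) := congrArg Prod.snd hc
    have h3 : c' • srcV k (l (t + 1)) = w (t + 1) := congrArg Prod.fst hc'
    have hc0 : c ≠ 0 := by
      intro h
      rw [h, zero_smul] at h1
      exact ht h1.symm
    have hw1 : w (t + 1) ≠ 0 := by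
      rw [← h2]
      exact smul_ne_zero hc0 (srcV_ne _)
    refine ⟨hw1, ?_, ?_⟩
    · exact srcV_key (inv (l t)) (l (t + 1)) (hred t).symm c c' (by rw [h2, h3]) (by rw [h2]; exact hw1)
    · exact srcV_key (l (t + 1)) (inv (l t)) (hred t) c' c (by rw [h2, h3]) (by rw [h3]; exact hw1)
  obtain ⟨h1, h2, h3⟩ := hstep 0 hw
  obtain ⟨h4, h5, h6⟩ := hstep (0 + 1) h1
  have : (inv (l (0 + 1))).2 = !(l (0 + 1)).2 := rfl
  rw [this, h3] at h5
  exact absurd h5 (by decide)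

omit [CharZero k] in
/-- raising the bound of a stage -/
theorem raise (S : Stage k) (j : ℕ) : ∃ S' : Stage k, S.Le S' ∧ S'.Γ = S.Γ ∧ j < S'.N := by
  refine ⟨⟨max S.N (j + 1), S.Γ, S.sym, ?_, S.fn⟩, ⟨le_max_left _ _, fun _ => le_refl _⟩, rfl, ?_⟩
  · intro l x y h
    exact VN_mono (le_max_left _ _) (S.bd l x y h)
  · exact lt_of_lt_of_le (Nat.lt_succ_self j) (le_max_right _ _)

/-- the tasks -/
abbrev Task := (ℕ × Lt) ⊕ (ℕ × (Σ q : ℕ, (Fin q → Lt)))

/-- completion of a task -/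
def Done (τ : Task) (S : Stage k) : Prop :=
  match τ with
  | Sum.inl (j, l0) => ∃ y, (Finsupp.single j (1 : k), y) ∈ S.Γ l0
  | Sum.inr (j, ⟨q, w⟩) => ∀ l : ℤ → Lt, 0 < q → (∀ t, l (t + 1) ≠ inv (l t)) →
      (∀ t, l (t + q) = l t) → (∀ i : Fin q, l ((i : ℕ) : ℤ) = w i) →
      ∃ x : ℤ → (ℕ →₀ k), (∀ t, (x t, x (t + 1)) ∈ S.Γ (l t)) ∧ x 0 = Finsupp.single j 1 ∧
        ∃ M : ℕ, (((Sh (q : ℤ) : Module.End k (ℤ → (ℕ →₀ k))) - 1) ^ M) x = 0

omit [CharZero k] in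
theorem Done.mono {τ : Task} {S S' : Stage k} (h : S.Le S') (hd : Done τ S) : Done τ S' := by
  rcases τ with ⟨j, l0⟩ | ⟨j, ⟨q, w⟩⟩
  · obtain ⟨y, hy⟩ := hd
    exact ⟨y, h.2 l0 hy⟩
  · intro l h1 h2 h3 h4
    obtain ⟨x, hx, hx0, hM⟩ := hd l h1 h2 h3 h4
    exact ⟨x, fun t => h.2 _ (hx t), hx0, hM⟩

theorem periodic_int {α : Type} {l : ℤ → α} {q : ℕ} (h : ∀ t, l (t + q) = l t) (n : ℤ) (t : ℤ) :
    l (t + q * n) = l t := by
  induction n using Int.induction_on with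
  | zero => simp
  | succ i ih =>
    have : t + (q:ℤ) * ((i:ℤ) + 1) = (t + q * i) + q := by ring
    rw [this, h, ih]
  | pred i ih =>
    have e : t + (q:ℤ) * (-(i:ℤ)) = (t + q * (-(i:ℤ) - 1)) + q := by ring
    rw [e, h] at ih
    exact ih

theorem periodic_unique {α : Type} {l l' : ℤ → α} {q : ℕ} (hq : 0 < q) (h : ∀ t, l (t + q) = l t)
    (h' : ∀ t, l' (t + q) = l' t) (he : ∀ i : Fin q, l ((i : ℕ) : ℤ) = l' ((i : ℕ) : ℤ)) : l = l' := by
  funext t
  have hq' : (0:ℤ) < q := by exact_mod_cast hq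
  have h1 : t % q + q * (t / q) = t := Int.emod_add_mul_ediv t q
  have h2 : 0 ≤ t % (q:ℤ) := Int.emod_nonneg _ hq'.ne'
  have h3 : t % (q:ℤ) < q := Int.emod_lt_of_pos _ hq'
  obtain ⟨m, hm⟩ := Int.eq_ofNat_of_zero_le h2
  have hmq : m < q := by omega
  rw [← h1, periodic_int h, periodic_int h', hm]
  exact he ⟨m, hmq⟩

omit [CharZero k] in
theorem next
    (hdom : ∀ S : Stage k, Good S.Γ → ∀ (l0 : Lt) (u : ℕ →₀ k), u ∈ VN k S.N →
      ∃ S' : Stage k, S.Le S' ∧ Good S'.Γ ∧ ∃ y, (u, y) ∈ S'.Γ l0)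
    (hclo : ∀ S : Stage k, Good S.Γ → ∀ (l : ℤ → Lt) (q : ℕ), 0 < q →
      (∀ t, l (t + 1) ≠ inv (l t)) → (∀ t, l (t + q) = l t) → ∀ v0 : ℕ →₀ k, v0 ∈ VN k S.N →
      ∃ S' : Stage k, S.Le S' ∧ Good S'.Γ ∧ ∃ x : ℤ → (ℕ →₀ k),
        (∀ t, (x t, x (t + 1)) ∈ S'.Γ (l t)) ∧ x 0 = v0 ∧
        ∃ M : ℕ, (((Sh (q : ℤ) : Module.End k (ℤ → (ℕ →₀ k))) - 1) ^ M) x = 0)
    (τ : Task) (S : {S : Stage k // Good S.Γ}) :
    ∃ S' : {S : Stage k // Good S.Γ}, S.1.Le S'.1 ∧ Done τ S'.1 := by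
  obtain ⟨S, hS⟩ := S
  rcases τ with ⟨j, l0⟩ | ⟨j, ⟨q, w⟩⟩
  · obtain ⟨S1, hle, hΓ, hj⟩ := raise S j
    have hS1 : Good S1.Γ := by rw [hΓ]; exact hS
    obtain ⟨S2, hle2, hg2, y, hy⟩ := hdom S1 hS1 l0 (Finsupp.single j 1) (single_mem_VN hj 1)
    exact ⟨⟨S2, hg2⟩, hle.trans hle2, y, hy⟩
  · by_cases hex : ∃ l : ℤ → Lt, 0 < q ∧ (∀ t, l (t + 1) ≠ inv (l t)) ∧
      (∀ t, l (t + q) = l t) ∧ (∀ i : Fin q, l ((i : ℕ) : ℤ) = w i)
    · obtain ⟨l, hq, h1, h2, h3⟩ := hex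
      obtain ⟨S1, hle, hΓ, hj⟩ := raise S j
      have hS1 : Good S1.Γ := by rw [hΓ]; exact hS
      obtain ⟨S2, hle2, hg2, x, hx⟩ := hclo S1 hS1 l q hq h1 h2 (Finsupp.single j 1)
        (single_mem_VN hj 1)
      refine ⟨⟨S2, hg2⟩, hle.trans hle2, ?_⟩
      intro l' _ _ h2' h3'
      have : l = l' := periodic_unique hq h2 h2' (fun i => by rw [h3, h3'])
      rw [← this]
      exact ⟨x, hx⟩
    · refine ⟨⟨S, hS⟩, Stage.Le.refl S, ?_⟩
      intro l hq h1 h2 h3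
      exact absurd ⟨l, hq, h1, h2, h3⟩ hex

omit [CharZero k] in
theorem orbit_prodT (T : Lt → ((ℕ →₀ k) →ₗ[k] (ℕ →₀ k))) (l : ℤ → Lt) (x : ℤ → (ℕ →₀ k))
    (hx : ∀ t, x (t + 1) = T (l t) (x t)) (n : ℕ) : x n = prodT T l n (x 0) := by
  induction n with
  | zero => rfl
  | succ n ih =>
    show x ((n + 1 : ℕ) : ℤ) = T (l n) (prodT T l n (x 0))
    rw [← ih, ← hx]
    congr 1

omit [CharZero k] in
theorem nil_transfer (T : Lt → ((ℕ →₀ k) →ₗ[k] (ℕ →₀ k))) (l : ℤ → Lt) (q : ℕ)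
    (hl : ∀ t, l (t + q) = l t) (M : ℕ) : ∀ x : ℤ → (ℕ →₀ k), (∀ t, x (t + 1) = T (l t) (x t)) →
    ((((Sh (q : ℤ) : Module.End k (ℤ → (ℕ →₀ k))) - 1) ^ M) x) 0 =
      ((prodT T l q - 1) ^ M) (x 0) := by
  induction M with
  | zero => intro x _; rfl
  | succ M ih =>
    intro x hx
    have hx' : ∀ t, (((Sh (q : ℤ) : Module.End k (ℤ → (ℕ →₀ k))) - 1) x) (t + 1) =
        T (l t) ((((Sh (q : ℤ) : Module.End k (ℤ → (ℕ →₀ k))) - 1) x) t) := by
      intro t
      show x (t + 1 + q) - x (t + 1) = T (l t) (x (t + q) - x t)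
      rw [map_sub, ← hx, ← hl t, ← hx]
      congr 2
      ring
    have h0 : (((Sh (q : ℤ) : Module.End k (ℤ → (ℕ →₀ k))) - 1) x) 0 =
        (prodT T l q - 1) (x 0) := by
      show x (0 + q) - x 0 = prodT T l q (x 0) - x 0
      rw [zero_add, orbit_prodT T l x hx q]
    rw [pow_succ, pow_succ, Module.End.mul_apply, Module.End.mul_apply, ih _ hx', h0]

end stages

/-- the limit of the construction -/
theorem limit_ops [CharZero k]
    (hdom : ∀ S : Stage k, Good S.Γ → ∀ (l0 : Lt) (u : ℕ →₀ k), u ∈ VN k S.N →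
      ∃ S' : Stage k, S.Le S' ∧ Good S'.Γ ∧ ∃ y, (u, y) ∈ S'.Γ l0)
    (hclo : ∀ S : Stage k, Good S.Γ → ∀ (l : ℤ → Lt) (q : ℕ), 0 < q →
      (∀ t, l (t + 1) ≠ inv (l t)) → (∀ t, l (t + q) = l t) → ∀ v0 : ℕ →₀ k, v0 ∈ VN k S.N →
      ∃ S' : Stage k, S.Le S' ∧ Good S'.Γ ∧ ∃ x : ℤ → (ℕ →₀ k),
        (∀ t, (x t, x (t + 1)) ∈ S'.Γ (l t)) ∧ x 0 = v0 ∧
        ∃ M : ℕ, (((Sh (q : ℤ) : Module.End k (ℤ → (ℕ →₀ k))) - 1) ^ M) x = 0) :
    ∃ T : Lt → ((ℕ →₀ k) →ₗ[k] (ℕ →₀ k)),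
      (∀ l, T (inv l) ∘ₗ T l = LinearMap.id) ∧
      (T (0, true) (Finsupp.single 0 1) - Finsupp.single 0 1) +
        (T (1, true) (Finsupp.single 0 1) - Finsupp.single 0 1) = Finsupp.single 0 1 ∧
      ∀ (l : ℤ → Lt) (q : ℕ), 0 < q → (∀ t, l (t + 1) ≠ inv (l t)) → (∀ t, l (t + q) = l t) →
        ∀ j : ℕ, ∃ M : ℕ, ((prodT T l q - 1) ^ M) (Finsupp.single j 1) = 0 := by
  obtain ⟨f, hf⟩ := exists_surjective_nat Task
  let S : ℕ → {S : Stage k // Good S.Γ} := fun n =>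
    Nat.rec (motive := fun _ => {S : Stage k // Good S.Γ}) ⟨S0 k, S0_good⟩
      (fun n s => Classical.choose (next hdom hclo (f n) s)) n
  have hS1 : ∀ n, (S n).1.Le (S (n + 1)).1 := fun n =>
    (Classical.choose_spec (next hdom hclo (f n) (S n))).1
  have hS2 : ∀ n, Done (f n) (S (n + 1)).1 := fun n =>
    (Classical.choose_spec (next hdom hclo (f n) (S n))).2
  have hmono : ∀ n m, n ≤ m → (S n).1.Le (S m).1 := by
    intro n m hnm
    induction hnm with
    | refl => exact Stage.Le.refl _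
    | step _ ih => exact ih.trans (hS1 _)
  have hdone : ∀ τ : Task, ∃ n, Done τ (S n).1 := by
    intro τ
    obtain ⟨n, hn⟩ := hf τ
    exact ⟨n + 1, by rw [← hn]; exact hS2 n⟩
  let R : Lt → (ℕ →₀ k) → (ℕ →₀ k) → Prop := fun L x y => ∃ n, (x, y) ∈ (S n).1.Γ L
  have hadd : ∀ L x y x' y', R L x y → R L x' y' → R L (x + x') (y + y') := by
    rintro L x y x' y' ⟨n, hn⟩ ⟨m, hm⟩
    refine ⟨max n m, ?_⟩
    have a1 := (hmono n (max n m) (le_max_left _ _)).2 L hn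
    have a2 := (hmono m (max n m) (le_max_right _ _)).2 L hm
    exact Submodule.add_mem _ a1 a2
  have hsmul : ∀ L (c : k) x y, R L x y → R L (c • x) (c • y) := by
    rintro L c x y ⟨n, hn⟩
    exact ⟨n, Submodule.smul_mem _ c hn⟩
  have hzero : ∀ L, R L 0 0 := fun L => ⟨0, Submodule.zero_mem _⟩
  have hsym : ∀ L x y, R L x y → R (inv L) y x := by
    rintro L x y ⟨n, hn⟩
    exact ⟨n, (S n).1.sym _ _ _ hn⟩
  have hfn : ∀ L x y y', R L x y → R L x y' → y = y' := by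
    intro L x y y' h1 h2
    have h3 := hadd L x y _ _ h1 (hsmul L (-1) x y' h2)
    have e1 : x + (-1 : k) • x = 0 := by simp
    have e2 : y + (-1 : k) • y' = y - y' := by simp [sub_eq_add_neg]
    rw [e1, e2] at h3
    obtain ⟨n, hn⟩ := h3
    exact sub_eq_zero.mp ((S n).1.fn _ _ hn)
  have htot : ∀ L j, ∃ y, R L (Finsupp.single j 1) y := by
    intro L j
    obtain ⟨n, hn⟩ := hdone (Sum.inl (j, L))
    obtain ⟨y, hy⟩ := hn
    exact ⟨y, n, hy⟩
  choose img himg using htot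
  let T : Lt → ((ℕ →₀ k) →ₗ[k] (ℕ →₀ k)) := fun L => Finsupp.linearCombination k (img L)
  have hT : ∀ L x, R L x (T L x) := by
    intro L x
    induction x using Finsupp.induction_linear with
    | zero => rw [map_zero]; exact hzero L
    | add x y hx hy => rw [map_add]; exact hadd _ _ _ _ _ hx hy
    | single j c =>
      have e1 : T L (Finsupp.single j c) = c • img L j := by
        simp [T, Finsupp.linearCombination_single]
      have e2 : Finsupp.single j c = c • Finsupp.single j (1:k) := by simp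
      rw [e1, e2]
      exact hsmul _ _ _ _ (himg L j)
  have hTR : ∀ L x y, R L x y → T L x = y := fun L x y h => hfn L x _ _ (hT L x) h
  refine ⟨T, ?_, ?_, ?_⟩
  · intro L
    apply LinearMap.ext
    intro x
    exact hTR (inv L) (T L x) x (hsym _ _ _ (hT L x))
  · have h1 : T (0, true) (Finsupp.single 0 1) = Finsupp.single 1 1 := by
      apply hTR
      exact ⟨0, Submodule.subset_span rfl⟩
    have h2 : T (1, true) (Finsupp.single 0 1) =
        (3 : k) • Finsupp.single 0 1 - Finsupp.single 1 1 := by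
      apply hTR
      exact ⟨0, Submodule.subset_span rfl⟩
    rw [h1, h2]
    have : (3 : k) • (Finsupp.single 0 1 : ℕ →₀ k) =
        Finsupp.single 0 1 + Finsupp.single 0 1 + Finsupp.single 0 1 := by
      rw [← Finsupp.single_add, ← Finsupp.single_add, Finsupp.smul_single]
      congr 1
      rw [smul_eq_mul]
      ring
    rw [this]
    abel
  · intro l q hq hred hper j
    obtain ⟨n, hn⟩ := hdone (Sum.inr (j, ⟨q, fun i => l ((i : ℕ) : ℤ)⟩))
    obtain ⟨x, hx, hx0, M, hM⟩ := hn l hq hred hper (fun i => rfl)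
    refine ⟨M, ?_⟩
    have h1 := nil_transfer T l q hper M x (fun t => (hTR _ _ _ ⟨n, hx t⟩).symm)
    rw [hM, hx0] at h1
    exact h1.symm

end

end

end Pool.Agent.Helper684
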