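import Pool.Agent.Helper684.Stage

set_option autoImplicit false

namespace Pool.Agent.Helper684

noncomputable section

variable {k : Type} [Field k]

theorem mk_sum' {ι : Type} (σ : Finset ι) (f g : ι → (ℕ →₀ k)) :
    (∑ i ∈ σ, f i, ∑ i ∈ σ, g i) = ∑ i ∈ σ, (f i, g i) := by
  apply Prod.ext
  · rw [Prod.fst_sum]
  · rw [Prod.snd_sum]

/-- evaluation of a formal combination of the sequence `v`, shifted by `t` -/
def ev (v : ℤ → (ℕ →₀ k)) (γ : ℤ →₀ k) (t : ℤ) : ℕ →₀ k :=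
  Finsupp.linearCombination k (fun j => v (j + t)) γ

theorem ev_add (v : ℤ → (ℕ →₀ k)) (γ γ' : ℤ →₀ k) (t : ℤ) :
    ev v (γ + γ') t = ev v γ t + ev v γ' t := by simp [ev]

theorem ev_sub (v : ℤ → (ℕ →₀ k)) (γ γ' : ℤ →₀ k) (t : ℤ) :
    ev v (γ - γ') t = ev v γ t - ev v γ' t := by simp [ev]

theorem ev_zero (v : ℤ → (ℕ →₀ k)) (t : ℤ) : ev v 0 t = 0 := by simp [ev]

theorem ev_single (v : ℤ → (ℕ →₀ k)) (j : ℤ) (c : k) (t : ℤ) :
    ev v (Finsupp.single j c) t = c • v (j + t) := by simp [ev]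

theorem ev_eq_sum (v : ℤ → (ℕ →₀ k)) (γ : ℤ →₀ k) (t : ℤ) :
    ev v γ t = ∑ j ∈ γ.support, γ j • v (j + t) := by
  rw [ev, Finsupp.linearCombination_apply, Finsupp.sum]

/-- shifting a formal combination -/
def shF (γ : ℤ →₀ k) (t : ℤ) : ℤ →₀ k := γ.mapDomain (fun j => j + t)

theorem ev_shF (v : ℤ → (ℕ →₀ k)) (γ : ℤ →₀ k) (t r : ℤ) :
    ev v (shF γ t) r = ev v γ (t + r) := by
  rw [ev, shF, Finsupp.linearCombination_mapDomain, ev]
  congr 2
  funext j
  simp [add_assoc]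

def Cls (m : ℕ) (γ : ℤ →₀ k) (c : ℤ) : Prop := ∀ j ∈ γ.support, (m : ℤ) ∣ j - c

theorem Cls.add {m : ℕ} {γ γ' : ℤ →₀ k} {c : ℤ} (h : Cls m γ c) (h' : Cls m γ' c) :
    Cls m (γ + γ') c := by
  intro j hj
  have := Finsupp.support_add hj
  rw [Finset.mem_union] at this
  rcases this with h1 | h1
  · exact h j h1
  · exact h' j h1

theorem Cls.sub {m : ℕ} {γ γ' : ℤ →₀ k} {c : ℤ} (h : Cls m γ c) (h' : Cls m γ' c) :
    Cls m (γ - γ') c := by
  intro j hj
  have := Finsupp.support_sub hj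
  rw [Finset.mem_union] at this
  rcases this with h1 | h1
  · exact h j h1
  · exact h' j h1

theorem Cls.zero {m : ℕ} {c : ℤ} : Cls m (0 : ℤ →₀ k) c := by
  intro j hj
  simp at hj

theorem Cls.single {m : ℕ} {c j : ℤ} {x : k} (h : x ≠ 0 → (m : ℤ) ∣ j - c) :
    Cls m (Finsupp.single j x) c := by
  intro i hi
  rw [Finsupp.mem_support_iff, Finsupp.single_apply] at hi
  by_cases h1 : j = i
  · rw [if_pos h1] at hi
    rw [← h1]; exact h hi
  · rw [if_neg h1] at hi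
    exact absurd rfl hi

theorem Cls.shF {m : ℕ} {γ : ℤ →₀ k} {c t : ℤ} (h : Cls m γ c) :
    Cls m (Pool.Agent.Helper684.shF γ t) (c + t) := by
  intro j hj
  have := Finsupp.mapDomain_support hj
  rw [Finset.mem_image] at this
  obtain ⟨i, hi, rfl⟩ := this
  have := h i hi
  have e : i + t - (c + t) = i - c := by ring
  rwa [e]

theorem Cls.congr {m : ℕ} {γ : ℤ →₀ k} {c c' : ℤ} (h : Cls m γ c) (hc : (m : ℤ) ∣ c - c') :
    Cls m γ c' := by
  intro j hj
  have := dvd_add (h j hj) hc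
  have e : j - c + (c - c') = j - c' := by ring
  rwa [e] at this

/-- the data needed to close a path into a unipotent cycle -/
structure PreLoop (k : Type) [Field k] where
  S : Stage k
  l : ℤ → Lt
  red : ∀ t, l (t + 1) ≠ inv (l t)
  m : ℕ
  hm : 0 < m
  per : ∀ t, l (t + m) = l t
  minp : ∀ o : ℤ, (∀ t, l (t + o) = l t) → (m : ℤ) ∣ o
  a : ℤ
  s : ℤ
  has : a ≤ s
  v : ℤ → (ℕ →₀ k)
  v_mem : ∀ i, a ≤ i → i ≤ s → v i ∈ VN k S.N
  v_path : ∀ i, a ≤ i → i < s → (v i, v (i + 1)) ∈ S.Γ (l i)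
  bdry : ∀ (L : Lt) (α β : k), (α ≠ 0 → l s = L) → (β ≠ 0 → l (a - 1) = inv L) →
    ∀ y, (α • v s + β • v a, y) ∈ S.Γ L → α = 0 ∧ β = 0
  π : ℤ → (ℕ →₀ k) →ₗ[k] (ℕ → k)
  π_N : ∀ p x, x ∈ VN k S.N → π p x = 0
  π_cls : ∀ p p', (m : ℤ) ∣ p - p' → π p = π p'
  π_v : ∀ p j, ¬ (m : ℤ) ∣ j - p → π p (v j) = 0
  Λ : ℕ
  X3 : ∀ (γ : ℤ →₀ k) (c t : ℤ), Cls m γ c → π (c + t) (ev v γ t) = 0 →
    ∃ γ' : ℤ →₀ k, (∀ j ∈ γ'.support, a ≤ j ∧ j ≤ s ∧ (m : ℤ) ∣ j - (c + t)) ∧
      ∀ r, ev v γ (t + r) = ev v γ' r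
  X4 : ∀ (γ : ℤ →₀ k) (c t : ℤ), Cls m γ c → γ.support.card ≤ Λ →
    π (c + t) (ev v γ t) = 0 → ∀ j ∈ γ.support, a ≤ j + t ∧ j + t ≤ s

namespace PreLoop

variable (C : PreLoop k)

theorem l_eq {p p' : ℤ} (h : (C.m : ℤ) ∣ p - p') : C.l p = C.l p' := periodic_of_dvd C.per h

/-- the closed relations -/
def G (L : Lt) : Submodule k ((ℕ →₀ k) × (ℕ →₀ k)) :=
  C.S.Γ L ⊔ Submodule.span k ((fun j => (C.v j, C.v (j + 1))) '' {j | C.l j = L}) ⊔
    Submodule.span k ((fun j => (C.v (j + 1), C.v j)) '' {j | C.l j = inv L})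

theorem le_G (L : Lt) : C.S.Γ L ≤ C.G L := le_sup_of_le_left le_sup_left

theorem v_G (j : ℤ) : (C.v j, C.v (j + 1)) ∈ C.G (C.l j) := by
  apply Submodule.mem_sup_left
  apply Submodule.mem_sup_right
  exact Submodule.subset_span ⟨j, rfl, rfl⟩

theorem v_G' (j : ℤ) : (C.v (j + 1), C.v j) ∈ C.G (inv (C.l j)) := by
  apply Submodule.mem_sup_right
  exact Submodule.subset_span ⟨j, by simp, rfl⟩

theorem G_sym {L : Lt} {x y : ℕ →₀ k} (h : (x, y) ∈ C.G L) : (y, x) ∈ C.G (inv L) := by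
  have key : C.G L ≤ (C.G (inv L)).comap (LinearEquiv.prodComm k _ _).toLinearMap := by
    unfold G
    apply sup_le
    · apply sup_le
      · rintro ⟨x, y⟩ hxy
        exact C.le_G _ (C.S.sym _ _ _ hxy)
      · rw [Submodule.span_le]
        rintro _ ⟨j, hj, rfl⟩
        have : C.l j = L := hj
        subst this
        exact C.v_G' j
    · rw [Submodule.span_le]
      rintro _ ⟨j, hj, rfl⟩
      have : C.l j = inv L := hj
      have h2 := C.v_G j
      rw [this] at h2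
      exact h2
  exact key h

theorem G_sym' {L : Lt} {x y : ℕ →₀ k} (h : (x, y) ∈ C.G (inv L)) : (y, x) ∈ C.G L := by
  have := C.G_sym h
  rwa [inv_inv] at this

theorem ev_G {γ : ℤ →₀ k} {c : ℤ} (h : Cls C.m γ c) (t : ℤ) :
    (ev C.v γ t, ev C.v γ (t + 1)) ∈ C.G (C.l (c + t)) := by
  rw [ev_eq_sum, ev_eq_sum, mk_sum']
  apply Submodule.sum_mem
  intro j hj
  have h1 := C.v_G (j + t)
  have h2 : C.l (j + t) = C.l (c + t) := by
    apply C.l_eq
    have := h j hj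
    have e : j + t - (c + t) = j - c := by ring
    rwa [e]
  rw [h2] at h1
  rw [← Prod.smul_mk, ← add_assoc]
  exact Submodule.smul_mem _ _ h1

theorem lc_pair (f g : ℤ → (ℕ →₀ k)) (α : ℤ →₀ k) :
    Finsupp.linearCombination k (fun j => (f j, g j)) α =
      (Finsupp.linearCombination k f α, Finsupp.linearCombination k g α) := by
  simp only [Finsupp.linearCombination_apply, Finsupp.sum, Prod.smul_mk, mk_sum']

theorem dec {L : Lt} {x y : ℕ →₀ k} (h : (x, y) ∈ C.G L) :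
    ∃ (x0 y0 : ℕ →₀ k) (α β : ℤ →₀ k), (x0, y0) ∈ C.S.Γ L ∧
      (∀ j ∈ α.support, C.l j = L) ∧ (∀ j ∈ β.support, C.l j = inv L) ∧
      x = x0 + ev C.v α 0 + ev C.v β 1 ∧ y = y0 + ev C.v α 1 + ev C.v β 0 := by
  unfold G at h
  rw [Submodule.mem_sup] at h
  obtain ⟨z1, h1, z2, h2, e⟩ := h
  rw [Submodule.mem_sup] at h1
  obtain ⟨z3, h3, z4, h4, e'⟩ := h1
  rw [Finsupp.mem_span_image_iff_linearCombination] at h2 h4
  obtain ⟨β, hβ, rfl⟩ := h2
  obtain ⟨α, hα, rfl⟩ := h4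
  refine ⟨z3.1, z3.2, α, β, h3, ?_, ?_, ?_, ?_⟩
  · intro j hj
    exact hα hj
  · intro j hj
    exact hβ hj
  · have := congrArg Prod.fst e
    rw [← e', lc_pair, lc_pair] at this
    simp only [Prod.fst_add] at this
    rw [← this]
    simp [ev]
  · have := congrArg Prod.snd e
    rw [← e', lc_pair, lc_pair] at this
    simp only [Prod.snd_add] at this
    rw [← this]
    simp [ev]

theorem π_off {γ : ℤ →₀ k} {t p : ℤ} (h : ∀ j ∈ γ.support, ¬ (C.m : ℤ) ∣ j + t - p) :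
    C.π p (ev C.v γ t) = 0 := by
  rw [ev_eq_sum, map_sum]
  apply Finset.sum_eq_zero
  intro j hj
  rw [map_smul, C.π_v _ _ (h j hj), smul_zero]

theorem π_filter (γ : ℤ →₀ k) (t p : ℤ) :
    C.π p (ev C.v γ t) = C.π p (ev C.v (γ.filter (fun j => (C.m : ℤ) ∣ j + t - p)) t) := by
  have h := Finsupp.filter_add_filter_not γ (fun j => (C.m : ℤ) ∣ j + t - p)
  conv_lhs => rw [← h]
  rw [ev_add, map_add]
  have : C.π p (ev C.v (γ.filter (fun j => ¬ (C.m : ℤ) ∣ j + t - p)) t) = 0 := by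
    apply C.π_off
    intro j hj
    rw [Finsupp.support_filter, Finset.mem_filter] at hj
    exact hj.2
  rw [this, add_zero]

/-- a block component forces the letter -/
theorem F1 {L : Lt} {x y : ℕ →₀ k} (h : (x, y) ∈ C.G L) {p : ℤ} (hp : C.π p x ≠ 0) :
    C.l p = L ∨ C.l (p - 1) = inv L := by
  by_contra hcon
  push Not at hcon
  apply hp
  obtain ⟨x0, y0, α, β, h0, hα, hβ, rfl, rfl⟩ := C.dec h
  rw [map_add, map_add, C.π_N p x0 (C.S.bd _ _ _ h0), C.π_off, C.π_off]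
  · simp
  · intro j hj hd
    apply hcon.2
    rw [← hβ j hj]
    apply C.l_eq
    have e : p - 1 - j = -(j + 1 - p) := by ring
    rw [e]; exact (dvd_neg).2 hd
  · intro j hj hd
    apply hcon.1
    rw [← hα j hj]
    apply C.l_eq
    have e : p - j = -(j + 0 - p) := by ring
    rw [e]; exact (dvd_neg).2 hd

theorem ev_mem_VN {γ : ℤ →₀ k} (h : ∀ j ∈ γ.support, C.a ≤ j ∧ j ≤ C.s) :
    ev C.v γ 0 ∈ VN k C.S.N := by
  rw [ev_eq_sum]
  apply Submodule.sum_mem
  intro j hj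
  apply Submodule.smul_mem
  rw [add_zero]
  exact C.v_mem j (h j hj).1 (h j hj).2

theorem ev_one {γ : ℤ →₀ k} (h : ∀ j ∈ γ.support, C.a ≤ j ∧ j ≤ C.s) :
    ev C.v γ 1 - γ C.s • C.v (C.s + 1) ∈ VN k C.S.N := by
  have h1 : ev C.v γ 1 - γ C.s • C.v (C.s + 1) = ev C.v (γ - Finsupp.single C.s (γ C.s)) 1 := by
    rw [ev_sub, ev_single]
  rw [h1, ev_eq_sum]
  apply Submodule.sum_mem
  intro j hj
  apply Submodule.smul_mem
  have hjs : j ≠ C.s := by
    rintro rfl
    rw [Finsupp.mem_support_iff] at hj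
    simp at hj
  have hj2 : j ∈ γ.support := by
    rw [Finsupp.mem_support_iff] at hj ⊢
    rw [Finsupp.sub_apply, Finsupp.single_apply, if_neg hjs.symm, sub_zero] at hj
    exact hj
  have := h j hj2
  exact C.v_mem _ (by omega) (by omega)

theorem ev_one_mem {γ : ℤ →₀ k} {L : Lt} (h : ∀ j ∈ γ.support, C.a ≤ j ∧ j ≤ C.s)
    (hl : ∀ j ∈ γ.support, C.l j = L) :
    (ev C.v γ 0 - γ C.s • C.v C.s, ev C.v γ 1 - γ C.s • C.v (C.s + 1)) ∈ C.S.Γ L := by
  have h1 : ev C.v γ 1 - γ C.s • C.v (C.s + 1) = ev C.v (γ - Finsupp.single C.s (γ C.s)) 1 := by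
    rw [ev_sub, ev_single]
  have h2 : ev C.v γ 0 - γ C.s • C.v C.s = ev C.v (γ - Finsupp.single C.s (γ C.s)) 0 := by
    rw [ev_sub, ev_single, add_zero]
  rw [h1, h2, ev_eq_sum, ev_eq_sum, mk_sum']
  apply Submodule.sum_mem
  intro j hj
  rw [← Prod.smul_mk]
  apply Submodule.smul_mem
  have hjs : j ≠ C.s := by
    rintro rfl
    rw [Finsupp.mem_support_iff] at hj
    simp at hj
  have hj2 : j ∈ γ.support := by
    rw [Finsupp.mem_support_iff] at hj ⊢
    rw [Finsupp.sub_apply, Finsupp.single_apply, if_neg hjs.symm, sub_zero] at hj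
    exact hj
  have := h j hj2
  rw [add_zero, ← hl j hj2]
  exact C.v_path _ (by omega) (by omega)

theorem ev_neg_one_mem {γ : ℤ →₀ k} {L : Lt} (h : ∀ j ∈ γ.support, C.a ≤ j ∧ j ≤ C.s)
    (hl : ∀ j ∈ γ.support, C.l (j - 1) = inv L) :
    (ev C.v γ 0 - γ C.a • C.v C.a, ev C.v γ (-1) - γ C.a • C.v (C.a - 1)) ∈ C.S.Γ L := by
  have h1 : ev C.v γ (-1) - γ C.a • C.v (C.a - 1) =
      ev C.v (γ - Finsupp.single C.a (γ C.a)) (-1) := by
    rw [ev_sub, ev_single]; rfl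
  have h2 : ev C.v γ 0 - γ C.a • C.v C.a = ev C.v (γ - Finsupp.single C.a (γ C.a)) 0 := by
    rw [ev_sub, ev_single, add_zero]
  rw [h1, h2, ev_eq_sum, ev_eq_sum, mk_sum']
  apply Submodule.sum_mem
  intro j hj
  rw [← Prod.smul_mk]
  apply Submodule.smul_mem
  have hjs : j ≠ C.a := by
    rintro rfl
    rw [Finsupp.mem_support_iff] at hj
    simp at hj
  have hj2 : j ∈ γ.support := by
    rw [Finsupp.mem_support_iff] at hj ⊢
    rw [Finsupp.sub_apply, Finsupp.single_apply, if_neg hjs.symm, sub_zero] at hj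
    exact hj
  have := h j hj2
  have h3 := C.v_path (j - 1) (by omega) (by omega)
  rw [sub_add_cancel, hl j hj2] at h3
  rw [add_zero]
  exact C.S.sym' h3

/-- how a block component moves along its letter -/
theorem SH {p t : ℤ} {x y : ℕ →₀ k} (h : (x, y) ∈ C.G (C.l p)) {γ : ℤ →₀ k}
    (hγ : Cls C.m γ (p - t)) (hx : C.π p x = C.π p (ev C.v γ t)) :
    ∃ α : k, (α ≠ 0 → (C.m : ℤ) ∣ C.s - p) ∧
      C.π (p + 1) y = C.π (p + 1) (ev C.v γ (t + 1)) + α • C.π (p + 1) (C.v (C.s + 1)) := by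
  obtain ⟨x0, y0, α, β, h0, hα, hβ, rfl, rfl⟩ := C.dec h
  have hβ1 : C.π p (ev C.v β 1) = 0 := by
    apply C.π_off
    intro j hj hd
    have h1 := hβ j hj
    have h2 : C.l j = C.l (p - 1) := by
      apply C.l_eq
      have e : j - (p - 1) = j + 1 - p := by ring
      rwa [e]
    rw [h2] at h1
    have h3 := C.red (p - 1)
    rw [sub_add_cancel] at h3
    exact h3 (eq_inv_comm.1 h1)
  have hβ0 : C.π (p + 1) (ev C.v β 0) = 0 := by
    apply C.π_off
    intro j hj hd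
    have h1 := hβ j hj
    have h2 : C.l j = C.l (p + 1) := by
      apply C.l_eq
      have e : j - (p + 1) = j + 0 - (p + 1) := by ring
      rwa [e]
    rw [h2] at h1
    exact C.red p h1
  set αp := α.filter (fun j => (C.m : ℤ) ∣ j + 0 - p) with hαp
  have hαpc : Cls C.m αp p := by
    intro j hj
    rw [hαp, Finsupp.support_filter, Finset.mem_filter] at hj
    have := hj.2
    rwa [add_zero] at this
  have e0 : C.π p (ev C.v α 0) = C.π p (ev C.v αp 0) := C.π_filter α 0 p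
  have e1 : C.π (p + 1) (ev C.v α 1) = C.π (p + 1) (ev C.v αp 1) := by
    rw [C.π_filter α 1 (p + 1), hαp]
    have : (fun j => (C.m : ℤ) ∣ j + 1 - (p + 1)) = (fun j => (C.m : ℤ) ∣ j + 0 - p) := by
      funext j
      have e : j + 1 - (p + 1) = j + 0 - p := by ring
      rw [e]
    simp only [this]
  rw [map_add, map_add, C.π_N p x0 (C.S.bd _ _ _ h0), hβ1, e0, zero_add, add_zero] at hx
  have hδc : Cls C.m (αp - shF γ t) p := by
    apply hαpc.sub
    have := hγ.shF (t := t)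
    rwa [sub_add_cancel] at this
  have hδ : C.π (p + 0) (ev C.v (αp - shF γ t) 0) = 0 := by
    rw [ev_sub, ev_shF, add_zero, add_zero, map_sub, hx, sub_self]
  obtain ⟨γ', hγ', hev⟩ := C.X3 _ p 0 hδc hδ
  refine ⟨γ' C.s, ?_, ?_⟩
  · intro hne
    have := (hγ' C.s (Finsupp.mem_support_iff.2 hne)).2.2
    rwa [add_zero] at this
  · have h1 := hev 1
    rw [zero_add, ev_sub, ev_shF] at h1
    have h2 : ev C.v αp 1 = ev C.v γ (t + 1) + ev C.v γ' 1 := by
      rw [← h1]; abel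
    have h3 := C.π_N (p + 1) _ (C.ev_one (fun j hj => ⟨(hγ' j hj).1, (hγ' j hj).2.1⟩))
    rw [map_sub, map_smul, sub_eq_zero] at h3
    rw [map_add, map_add, C.π_N (p + 1) y0 (C.S.bd' h0), hβ0, e1, h2, map_add, h3]
    simp

/-- replace a combination without block components by one supported on `[a, s]` -/
theorem all3 : ∀ (n : ℕ) (γ : ℤ →₀ k) (t : ℤ), γ.support.card ≤ n →
    (∀ p, C.π p (ev C.v γ t) = 0) →
    ∃ γ' : ℤ →₀ k, (∀ j ∈ γ'.support, C.a ≤ j ∧ j ≤ C.s) ∧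
      (∀ i ∈ γ'.support, ∃ j ∈ γ.support, (C.m : ℤ) ∣ i - (j + t)) ∧
      ∀ r, ev C.v γ (t + r) = ev C.v γ' r := by
  intro n
  induction n with
  | zero =>
    intro γ t hc _
    have : γ = 0 := by
      rw [← Finsupp.support_eq_empty]
      exact Finset.card_eq_zero.1 (by omega)
    subst this
    exact ⟨0, by simp, by simp, fun r => by rw [ev_zero, ev_zero]⟩
  | succ n ih =>
    intro γ t hc hπ
    by_cases h0 : γ = 0
    · subst h0
      exact ⟨0, by simp, by simp, fun r => by rw [ev_zero, ev_zero]⟩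
    obtain ⟨j0, hj0⟩ := Finsupp.support_nonempty_iff.2 h0
    set γ1 := γ.filter (fun j => (C.m : ℤ) ∣ j + t - (j0 + t)) with hγ1
    set γ2 := γ.filter (fun j => ¬ (C.m : ℤ) ∣ j + t - (j0 + t)) with hγ2
    have hsum : γ1 + γ2 = γ := Finsupp.filter_add_filter_not γ _
    have hc1 : Cls C.m γ1 j0 := by
      intro j hj
      rw [hγ1, Finsupp.support_filter, Finset.mem_filter] at hj
      have e : j - j0 = j + t - (j0 + t) := by ring
      rw [e]; exact hj.2
    have hπ1 : C.π (j0 + t) (ev C.v γ1 t) = 0 := by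
      rw [hγ1, ← C.π_filter]; exact hπ _
    obtain ⟨γ1', h1, h1'⟩ := C.X3 γ1 j0 t hc1 hπ1
    have hcard : γ2.support.card ≤ n := by
      have hss : γ2.support ⊂ γ.support := by
        rw [Finset.ssubset_iff_of_subset]
        · refine ⟨j0, hj0, ?_⟩
          rw [hγ2, Finsupp.support_filter, Finset.mem_filter]
          simp
        · rw [hγ2, Finsupp.support_filter]
          exact Finset.filter_subset _ _
      have := Finset.card_lt_card hss
      omega
    have hπ2 : ∀ p, C.π p (ev C.v γ2 t) = 0 := by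
      intro p
      by_cases hd : (C.m : ℤ) ∣ (j0 + t) - p
      · apply C.π_off
        intro j hj hd2
        rw [hγ2, Finsupp.support_filter, Finset.mem_filter] at hj
        apply hj.2
        have := dvd_sub hd2 hd
        have e : j + t - p - (j0 + t - p) = j + t - (j0 + t) := by ring
        rwa [e] at this
      · have h3 : C.π p (ev C.v γ1 t) = 0 := by
          apply C.π_off
          intro j hj hd2
          rw [hγ1, Finsupp.support_filter, Finset.mem_filter] at hj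
          apply hd
          have := dvd_sub hd2 hj.2
          have e : j + t - p - (j + t - (j0 + t)) = j0 + t - p := by ring
          rwa [e] at this
        have h4 := hπ p
        rw [← hsum, ev_add, map_add, h3, zero_add] at h4
        exact h4
    obtain ⟨γ2', h2, h2', h2''⟩ := ih γ2 t hcard hπ2
    refine ⟨γ1' + γ2', ?_, ?_, ?_⟩
    · intro j hj
      rcases Finset.mem_union.1 (Finsupp.support_add hj) with h | h
      · exact ⟨(h1 j h).1, (h1 j h).2.1⟩
      · exact h2 j h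
    · intro i hi
      rcases Finset.mem_union.1 (Finsupp.support_add hi) with h | h
      · exact ⟨j0, hj0, (h1 i h).2.2⟩
      · obtain ⟨j, hj, hd⟩ := h2' i h
        refine ⟨j, ?_, hd⟩
        rw [hγ2, Finsupp.support_filter, Finset.mem_filter] at hj
        exact hj.1
    · intro r
      rw [← hsum, ev_add, ev_add, h1', h2'']

/-- exits from the old space -/
theorem exit {L : Lt} {x y : ℕ →₀ k} (h : (x, y) ∈ C.G L) (hx : ∀ p, C.π p x = 0) :
    ∃ (α β : k) (x1 y1 : ℕ →₀ k), (x1, y1) ∈ C.S.Γ L ∧ (α ≠ 0 → C.l C.s = L) ∧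
      (β ≠ 0 → C.l (C.a - 1) = inv L) ∧ x = x1 + α • C.v C.s + β • C.v C.a ∧
      y = y1 + α • C.v (C.s + 1) + β • C.v (C.a - 1) := by
  obtain ⟨x0, y0, α, β, h0, hα, hβ, rfl, rfl⟩ := C.dec h
  have hsplit : ∀ p, C.π p (ev C.v α 0) = 0 ∧ C.π p (ev C.v β 1) = 0 := by
    intro p
    have h1 := hx p
    rw [map_add, map_add, C.π_N p x0 (C.S.bd _ _ _ h0), zero_add] at h1
    by_cases hA : ∃ j ∈ α.support, (C.m : ℤ) ∣ j + 0 - p
    · have hB : C.π p (ev C.v β 1) = 0 := by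
        apply C.π_off
        intro i hi hd
        obtain ⟨j, hj, hdj⟩ := hA
        have h2 : C.l j = C.l p := C.l_eq (by rwa [add_zero] at hdj)
        have h3 : C.l i = C.l (p - 1) := by
          apply C.l_eq
          have e : i - (p - 1) = i + 1 - p := by ring
          rwa [e]
        rw [hα j hj] at h2
        rw [hβ i hi, h2] at h3
        have h4 := C.red (p - 1)
        rw [sub_add_cancel] at h4
        exact h4 (eq_inv_comm.1 h3.symm)
      rw [hB, add_zero] at h1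
      exact ⟨h1, hB⟩
    · have hA' : C.π p (ev C.v α 0) = 0 := by
        apply C.π_off
        intro j hj hd
        exact hA ⟨j, hj, hd⟩
      rw [hA', zero_add] at h1
      exact ⟨hA', h1⟩
  obtain ⟨α', hα1, hα2, hα3⟩ := C.all3 _ α 0 (le_refl _) (fun p => (hsplit p).1)
  obtain ⟨β', hβ1, hβ2, hβ3⟩ := C.all3 _ β 1 (le_refl _) (fun p => (hsplit p).2)
  have lα : ∀ j ∈ α'.support, C.l j = L := by
    intro i hi
    obtain ⟨j, hj, hd⟩ := hα2 i hi
    rw [← hα j hj]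
    apply C.l_eq
    rwa [add_zero] at hd
  have lβ : ∀ j ∈ β'.support, C.l (j - 1) = inv L := by
    intro i hi
    obtain ⟨j, hj, hd⟩ := hβ2 i hi
    rw [← hβ j hj]
    apply C.l_eq
    have e : i - 1 - j = i - (j + 1) := by ring
    rwa [e]
  have mα := C.ev_one_mem hα1 lα
  have mβ := C.ev_neg_one_mem hβ1 lβ
  refine ⟨α' C.s, β' C.a, x0 + (ev C.v α' 0 - α' C.s • C.v C.s) +
    (ev C.v β' 0 - β' C.a • C.v C.a), y0 + (ev C.v α' 1 - α' C.s • C.v (C.s + 1)) +
    (ev C.v β' (-1) - β' C.a • C.v (C.a - 1)), ?_, ?_, ?_, ?_, ?_⟩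
  · exact Submodule.add_mem _ (Submodule.add_mem _ h0 mα) mβ
  · intro hne
    exact lα _ (Finsupp.mem_support_iff.2 hne)
  · intro hne
    exact lβ _ (Finsupp.mem_support_iff.2 hne)
  · have e1 := hα3 0
    have e2 := hβ3 0
    rw [add_zero] at e1 e2
    rw [e1, e2]; abel
  · have e1 := hα3 1
    have e2 := hβ3 (-1)
    rw [zero_add] at e1
    rw [show (1 : ℤ) + -1 = 0 by ring] at e2
    rw [e1, e2]; abel

theorem G_fn {L : Lt} {y : ℕ →₀ k} (h : ((0 : ℕ →₀ k), y) ∈ C.G L) : y = 0 := by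
  obtain ⟨α, β, x1, y1, h1, hα, hβ, ex, ey⟩ := C.exit h (fun p => map_zero _)
  have h2 := Submodule.neg_mem _ h1
  have h3 : -x1 = α • C.v C.s + β • C.v C.a := by
    rw [neg_eq_iff_eq_neg, eq_neg_iff_add_eq_zero, ← add_assoc]; exact ex.symm
  rw [Prod.neg_mk, h3] at h2
  obtain ⟨rfl, rfl⟩ := C.bdry L α β hα hβ _ h2
  rw [zero_smul, zero_smul, add_zero, add_zero] at ex ey
  rw [← ex] at h1
  rw [ey]
  exact C.S.fn _ _ h1

theorem G_eq {L : Lt} {x y y' : ℕ →₀ k} (h : (x, y) ∈ C.G L) (h' : (x, y') ∈ C.G L) : y = y' := by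
  have := (C.G L).sub_mem h h'
  simp only [Prod.mk_sub_mk, sub_self] at this
  exact sub_eq_zero.1 (C.G_fn this)

theorem G_eq' {L : Lt} {x x' y : ℕ →₀ k} (h : (x, y) ∈ C.G L) (h' : (x', y) ∈ C.G L) : x = x' :=
  C.G_eq (C.G_sym h) (C.G_sym h')

end PreLoop

end

end Pool.Agent.Helper684
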