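import Pool.Agent.Helper684.Loop

set_option autoImplicit false

namespace Pool.Agent.Helper684

noncomputable section

variable {k : Type} [Field k]

namespace PreLoop

variable (C : PreLoop k)

theorem alive_out {L : ℤ → Lt} {w : ℤ → (ℕ →₀ k)} (hL : ∀ t, L (t + 1) ≠ inv (L t))
    (hw : ∀ t, (w t, w (t + 1)) ∈ C.G (L t)) {p t : ℤ} (ha : C.π p (w t) ≠ 0)
    (h : L (t - 1) = C.l (p - 1)) : L t = C.l p := by
  rcases C.F1 (hw t) ha with h1 | h1
  · exact h1.symm
  · exfalso
    have := hL (t - 1)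
    rw [sub_add_cancel] at this
    apply this
    rw [h, h1, inv_inv]

theorem alive_in {L : ℤ → Lt} {w : ℤ → (ℕ →₀ k)} (hL : ∀ t, L (t + 1) ≠ inv (L t))
    (hw : ∀ t, (w t, w (t + 1)) ∈ C.G (L t)) {p t : ℤ} (ha : C.π p (w t) ≠ 0)
    (h : L t = C.l p) : L (t - 1) = C.l (p - 1) := by
  have h0 := hw (t - 1)
  rw [sub_add_cancel] at h0
  rcases C.F1 (C.G_sym h0) ha with h1 | h1
  · exfalso
    have := hL (t - 1)
    rw [sub_add_cancel] at this
    apply this
    rw [h, h1]
  · rw [inv_inv] at h1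
    exact h1.symm

theorem C1 {c c' : ℤ} (h : ∀ r : ℕ, r < C.m → C.l (c + r) = C.l (c' + r)) :
    (C.m : ℤ) ∣ c - c' := by
  apply C.minp
  apply agree_all (f := fun t => C.l (t + (c - c'))) (g := C.l) (c := c') C.hm
  · intro t
    show C.l (t + C.m + (c - c')) = C.l (t + (c - c'))
    have e : t + C.m + (c - c') = t + (c - c') + C.m := by ring
    rw [e, C.per]
  · exact C.per
  · intro r hr
    show C.l (c' + r + (c - c')) = _
    have e : c' + r + (c - c') = c + r := by ring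
    rw [e, h r hr]

theorem alive_of_X4 {γ : ℤ →₀ k} {p : ℤ} {r : ℕ} (hr : 1 ≤ r) (hrΛ : r ≤ C.Λ)
    (hc : Cls C.m γ p) (hsup : ∀ j ∈ γ.support, C.s - r < j ∧ j ≤ C.s) (hs : γ C.s ≠ 0) :
    C.π (p + r) (ev C.v γ r) ≠ 0 := by
  intro h
  have hcard : γ.support.card ≤ C.Λ := by
    have h1 : γ.support ⊆ Finset.Ioc (C.s - r) C.s := by
      intro j hj
      rw [Finset.mem_Ioc]
      exact hsup j hj
    have h2 := Finset.card_le_card h1
    rw [Int.card_Ioc] at h2
    omega
  have h3 := C.X4 γ p r hc hcard h C.s (Finsupp.mem_support_iff.2 hs)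
  omega

theorem life_inv {L : ℤ → Lt} {w : ℤ → (ℕ →₀ k)} (hL : ∀ t, L (t + 1) ≠ inv (L t))
    (hw : ∀ t, (w t, w (t + 1)) ∈ C.G (L t)) {p t1 : ℤ} (h0 : C.π p (w t1) = 0)
    (hl : L t1 = C.l p) (h1 : C.π (p + 1) (w (t1 + 1)) ≠ 0) (r : ℕ) (hr : 1 ≤ r)
    (hrΛ : r ≤ C.Λ) :
    L (t1 + r - 1) = C.l (p + r - 1) ∧
    ∃ γ : ℤ →₀ k, Cls C.m γ p ∧ (∀ j ∈ γ.support, C.s - r < j ∧ j ≤ C.s) ∧ γ C.s ≠ 0 ∧
      C.π (p + r) (w (t1 + r)) = C.π (p + r) (ev C.v γ r) := by
  induction r with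
  | zero => omega
  | succ r ih =>
    by_cases hr0 : r = 0
    · subst hr0
      have hx : C.π p (w t1) = C.π p (ev C.v 0 0) := by rw [h0, ev_zero, map_zero]
      have hw1 := hw t1
      rw [hl] at hw1
      obtain ⟨α, hα, hα'⟩ := C.SH hw1 (γ := 0) Cls.zero hx
      rw [ev_zero, map_zero, zero_add] at hα'
      have hα0 : α ≠ 0 := by
        rintro rfl
        apply h1
        rw [hα', zero_smul]
      refine ⟨?_, Finsupp.single C.s α, ?_, ?_, ?_, ?_⟩
      · simpa using hl
      · exact Cls.single (fun _ => hα hα0)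
      · intro j hj
        have := Finsupp.support_single_subset hj
        rw [Finset.mem_singleton] at this
        subst this
        push_cast
        constructor <;> linarith
      · simpa using hα0
      · rw [ev_single]
        simpa using hα'
    · obtain ⟨hl', γ, hc, hsup, hs, hπ⟩ := ih (by omega) (by omega)
      have hal : C.π (p + r) (w (t1 + r)) ≠ 0 := by
        rw [hπ]
        exact C.alive_of_X4 (by omega) (by omega) hc hsup hs
      have hlet : L (t1 + r) = C.l (p + r) := C.alive_out hL hw hal hl'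
      have hw1 := hw (t1 + r)
      rw [hlet] at hw1
      have hcc : Cls C.m γ (p + r - r) := by rwa [add_sub_cancel_right]
      obtain ⟨α, hα, hα'⟩ := C.SH hw1 hcc hπ
      refine ⟨?_, γ + Finsupp.single (C.s - r) α, ?_, ?_, ?_, ?_⟩
      · have e1 : t1 + ((r + 1 : ℕ) : ℤ) - 1 = t1 + r := by push_cast; ring
        have e2 : p + ((r + 1 : ℕ) : ℤ) - 1 = p + r := by push_cast; ring
        rw [e1, e2]; exact hlet
      · apply hc.add
        apply Cls.single
        intro hne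
        have := hα hne
        have e : C.s - r - p = C.s - (p + r) := by ring
        rwa [e]
      · intro j hj
        push_cast
        rcases Finset.mem_union.1 (Finsupp.support_add hj) with h | h
        · have := hsup j h
          constructor <;> linarith [this.1, this.2]
        · have := Finsupp.support_single_subset h
          rw [Finset.mem_singleton] at this
          subst this
          constructor
          · linarith
          · have : (0 : ℤ) ≤ r := by positivity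
            linarith
      · rw [Finsupp.add_apply, Finsupp.single_apply, if_neg, add_zero]
        · exact hs
        · have : (0 : ℤ) < r := by exact_mod_cast Nat.pos_of_ne_zero hr0
          intro h
          linarith
      · have e1 : t1 + ((r + 1 : ℕ) : ℤ) = t1 + r + 1 := by push_cast; ring
        have e2 : p + ((r + 1 : ℕ) : ℤ) = p + r + 1 := by push_cast; ring
        rw [e1, e2, hα', ev_add, ev_single, map_add, map_smul]
        push_cast
        have e3 : C.s - (r : ℤ) + (r + 1) = C.s + 1 := by ring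
        rw [e3]

theorem life {L : ℤ → Lt} {w : ℤ → (ℕ →₀ k)} (hL : ∀ t, L (t + 1) ≠ inv (L t))
    (hw : ∀ t, (w t, w (t + 1)) ∈ C.G (L t)) {p t1 : ℤ} (h0 : C.π p (w t1) = 0)
    (hl : L t1 = C.l p) (h1 : C.π (p + 1) (w (t1 + 1)) ≠ 0) (r : ℕ) (hr : 1 ≤ r)
    (hrΛ : r ≤ C.Λ) :
    C.π (p + r) (w (t1 + r)) ≠ 0 ∧ L (t1 + r) = C.l (p + r) := by
  obtain ⟨hl', γ, hc, hsup, hs, hπ⟩ := C.life_inv hL hw h0 hl h1 r hr hrΛ
  have hal : C.π (p + r) (w (t1 + r)) ≠ 0 := by
    rw [hπ]
    exact C.alive_of_X4 hr hrΛ hc hsup hs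
  exact ⟨hal, C.alive_out hL hw hal hl'⟩

theorem life_letters {L : ℤ → Lt} {w : ℤ → (ℕ →₀ k)} (hL : ∀ t, L (t + 1) ≠ inv (L t))
    (hw : ∀ t, (w t, w (t + 1)) ∈ C.G (L t)) {p t1 : ℤ} (h0 : C.π p (w t1) = 0)
    (hl : L t1 = C.l p) (h1 : C.π (p + 1) (w (t1 + 1)) ≠ 0) (r : ℕ)
    (hrΛ : r ≤ C.Λ) : L (t1 + r) = C.l (p + r) := by
  by_cases hr : r = 0
  · subst hr; simpa using hl
  · exact (C.life hL hw h0 hl h1 r (by omega) hrΛ).2

theorem letters_back {L : ℤ → Lt} {w : ℤ → (ℕ →₀ k)} (hL : ∀ t, L (t + 1) ≠ inv (L t))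
    (hw : ∀ t, (w t, w (t + 1)) ∈ C.G (L t)) {p t : ℤ} (hl : L t = C.l p) (n : ℕ)
    (ha : ∀ i : ℕ, i < n → C.π (p - i) (w (t - i)) ≠ 0) (i : ℕ) (hi : i ≤ n) :
    L (t - i) = C.l (p - i) := by
  induction i with
  | zero => simpa using hl
  | succ i ih =>
    have := C.alive_in hL hw (ha i (by omega)) (ih (by omega))
    have e1 : t - ((i + 1 : ℕ) : ℤ) = t - i - 1 := by push_cast; ring
    have e2 : p - ((i + 1 : ℕ) : ℤ) = p - i - 1 := by push_cast; ring
    rw [e1, e2]; exact this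

theorem run {L : ℤ → Lt} {w : ℤ → (ℕ →₀ k)} (hL : ∀ t, L (t + 1) ≠ inv (L t))
    (hw : ∀ t, (w t, w (t + 1)) ∈ C.G (L t)) (hΛ : C.m ≤ C.Λ) {p t : ℤ}
    (ha : C.π p (w t) ≠ 0) (hl : L t = C.l p) :
    ∃ t2 : ℤ, t - C.m + 1 ≤ t2 ∧ t2 ≤ t ∧
      ∀ r : ℕ, r < C.m → L (t2 + r) = C.l (p - t + t2 + r) := by
  have hm := C.hm
  by_cases H : ∀ i : ℕ, i < C.m → C.π (p - i) (w (t - i)) ≠ 0
  · refine ⟨t - C.m + 1, le_refl _, by omega, fun r hr => ?_⟩
    have := C.letters_back hL hw hl C.m H (C.m - 1 - r) (by omega)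
    have e1 : t - ((C.m - 1 - r : ℕ) : ℤ) = t - C.m + 1 + r := by omega
    have e2 : p - ((C.m - 1 - r : ℕ) : ℤ) = p - t + (t - C.m + 1) + r := by omega
    rwa [e1, e2] at this
  · push Not at H
    classical
    have hfind : ∃ i : ℕ, i < C.m ∧ C.π (p - i) (w (t - i)) = 0 := H
    set i := Nat.find hfind with hi
    obtain ⟨him, hi0⟩ := Nat.find_spec hfind
    rw [← hi] at him hi0
    have hmin : ∀ j : ℕ, j < i → C.π (p - j) (w (t - j)) ≠ 0 := by
      intro j hj h
      exact Nat.find_min hfind hj ⟨by omega, h⟩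
    have hine : i ≠ 0 := by
      intro h
      rw [h] at hi0
      apply ha
      simpa using hi0
    have hlet := C.letters_back hL hw hl i hmin i (le_refl _)
    have hnext : C.π (p - i + 1) (w (t - i + 1)) ≠ 0 := by
      have := hmin (i - 1) (by omega)
      have e1 : t - ((i - 1 : ℕ) : ℤ) = t - i + 1 := by omega
      have e2 : p - ((i - 1 : ℕ) : ℤ) = p - i + 1 := by omega
      rwa [e1, e2] at this
    refine ⟨t - i, by omega, by omega, fun r hr => ?_⟩
    have := C.life_letters hL hw hi0 hlet hnext r (by omega)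
    rw [this]
    congr 1
    ring

theorem agree_fwd {L : ℤ → Lt} {w w' : ℤ → (ℕ →₀ k)} {t0 : ℤ} (n : ℕ)
    (hw : ∀ i : ℕ, i < n → (w (t0 + i), w (t0 + i + 1)) ∈ C.G (L (t0 + i)))
    (hw' : ∀ i : ℕ, i < n → (w' (t0 + i), w' (t0 + i + 1)) ∈ C.G (L (t0 + i)))
    (h : w t0 = w' t0) (i : ℕ) (hi : i ≤ n) : w (t0 + i) = w' (t0 + i) := by
  induction i with
  | zero => simpa using h
  | succ i ih =>
    have h1 := hw i (by omega)
    have h2 := hw' i (by omega)
    rw [ih (by omega)] at h1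
    have := C.G_eq h1 h2
    have e1 : t0 + ((i + 1 : ℕ) : ℤ) = t0 + i + 1 := by push_cast; ring
    rw [e1]; exact this

theorem agree_bwd {L : ℤ → Lt} {w w' : ℤ → (ℕ →₀ k)} {t0 : ℤ} (n : ℕ)
    (hw : ∀ i : ℕ, i < n → (w (t0 - i - 1), w (t0 - i)) ∈ C.G (L (t0 - i - 1)))
    (hw' : ∀ i : ℕ, i < n → (w' (t0 - i - 1), w' (t0 - i)) ∈ C.G (L (t0 - i - 1)))
    (h : w t0 = w' t0) (i : ℕ) (hi : i ≤ n) : w (t0 - i) = w' (t0 - i) := by
  induction i with
  | zero => simpa using h
  | succ i ih =>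
    have h1 := hw i (by omega)
    have h2 := hw' i (by omega)
    rw [ih (by omega)] at h1
    have := C.G_eq' h1 h2
    have e1 : t0 - ((i + 1 : ℕ) : ℤ) = t0 - i - 1 := by push_cast; ring
    rw [e1]; exact this

end PreLoop

/-- reflection of a formal combination -/
def reF (γ : ℤ →₀ k) : ℤ →₀ k := Finsupp.equivMapDomain (Equiv.neg ℤ) γ

theorem reF_apply (γ : ℤ →₀ k) (j : ℤ) : reF γ j = γ (-j) := rfl

theorem mem_reF (γ : ℤ →₀ k) (j : ℤ) : j ∈ (reF γ).support ↔ -j ∈ γ.support := by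
  rw [Finsupp.mem_support_iff, Finsupp.mem_support_iff, reF_apply]

theorem reF_reF (γ : ℤ →₀ k) : reF (reF γ) = γ := by
  ext j
  rw [reF_apply, reF_apply, neg_neg]

theorem reF_card (γ : ℤ →₀ k) : (reF γ).support.card = γ.support.card := by
  apply Finset.card_bij (fun j _ => -j)
  · intro j hj
    exact (mem_reF γ j).1 hj
  · intro a _ b _ h
    exact neg_injective h
  · intro j hj
    refine ⟨-j, ?_, neg_neg j⟩
    rw [mem_reF, neg_neg]; exact hj

theorem ev_reF (v : ℤ → (ℕ →₀ k)) (γ : ℤ →₀ k) (t : ℤ) :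
    ev (fun j => v (-j)) (reF γ) t = ev v γ (-t) := by
  rw [ev, ev, reF, Finsupp.equivMapDomain_eq_mapDomain, Finsupp.linearCombination_mapDomain]
  congr 2
  funext j
  simp [add_comm]

theorem Cls_reF {m : ℕ} {γ : ℤ →₀ k} {c : ℤ} (h : Cls m γ c) : Cls m (reF γ) (-c) := by
  intro j hj
  rw [mem_reF] at hj
  have := h _ hj
  have e : j - -c = -(-j - c) := by ring
  rw [e]; exact (dvd_neg).2 this

namespace PreLoop

variable (C : PreLoop k)

/-- the reversed data -/
def rev : PreLoop k where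
  S := C.S
  l := fun t => inv (C.l (-1 - t))
  red := by
    intro t h
    rw [inv_inv] at h
    have := C.red (-1 - (t + 1))
    apply this
    have e : -1 - (t + 1) + 1 = -1 - t := by ring
    rw [e, h]
  m := C.m
  hm := C.hm
  per := by
    intro t
    have := C.per (-1 - (t + C.m))
    have e : -1 - (t + (C.m : ℤ)) + C.m = -1 - t := by ring
    rw [e] at this
    show inv _ = inv _
    rw [this]
  minp := by
    intro o ho
    rw [← dvd_neg]
    apply C.minp
    intro t
    have := ho (-1 - t)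
    have h2 := inv_inj this
    have e1 : -1 - (-1 - t + o) = t + -o := by ring
    have e2 : -1 - (-1 - t) = t := by ring
    rw [e1, e2] at h2
    exact h2
  a := -C.s
  s := -C.a
  has := neg_le_neg C.has
  v := fun j => C.v (-j)
  v_mem := by
    intro i h1 h2
    exact C.v_mem _ (by omega) (by omega)
  v_path := by
    intro i h1 h2
    have := C.v_path (-1 - i) (by omega) (by omega)
    have e : -1 - i + 1 = -i := by ring
    rw [e] at this
    have h3 := C.S.sym _ _ _ this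
    have e2 : -(i + 1) = -1 - i := by ring
    rw [e2]
    exact h3
  bdry := by
    intro L α β hα hβ y hy
    have h1 := C.bdry L β α (fun h => ?_) (fun h => ?_) y ?_
    · exact ⟨h1.2, h1.1⟩
    · have := inv_inj (hβ h)
      rw [← this]
      congr 1
      ring
    · have := hα h
      rw [← this, inv_inv]
      congr 1
      ring
    · rw [neg_neg, neg_neg] at hy
      rwa [add_comm]
  π := fun p => C.π (-p)
  π_N := fun p x hx => C.π_N _ x hx
  π_cls := by
    intro p p' h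
    apply C.π_cls
    have e : -p - -p' = -(p - p') := by ring
    rw [e]; exact (dvd_neg).2 h
  π_v := by
    intro p j h
    apply C.π_v
    intro h2
    apply h
    have e : j - p = -(-j - -p) := by ring
    rw [e]; exact (dvd_neg).2 h2
  Λ := C.Λ
  X3 := by
    intro γ c t hc h
    have h1 : C.π (-c + -t) (ev C.v (reF γ) (-t)) = 0 := by
      rw [← ev_reF C.v (reF γ) t, reF_reF, ← neg_add]
      exact h
    obtain ⟨γ', hγ', hev⟩ := C.X3 (reF γ) (-c) (-t) (Cls_reF hc) h1
    refine ⟨reF γ', ?_, ?_⟩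
    · intro j hj
      rw [mem_reF] at hj
      obtain ⟨h2, h3, h4⟩ := hγ' _ hj
      refine ⟨by omega, by omega, ?_⟩
      have e : j - (c + t) = -(-j - (-c + -t)) := by ring
      rw [e]; exact (dvd_neg).2 h4
    · intro r
      have h2 := hev (-r)
      rw [ev_reF C.v γ' r, ← h2, ← neg_add, ← ev_reF C.v (reF γ) (t + r), reF_reF]
  X4 := by
    intro γ c t hc hcard h j hj
    have h1 : C.π (-c + -t) (ev C.v (reF γ) (-t)) = 0 := by
      rw [← ev_reF C.v (reF γ) t, reF_reF, ← neg_add]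
      exact h
    have h2 := C.X4 (reF γ) (-c) (-t) (Cls_reF hc) (by rwa [reF_card]) h1 (-j)
      (by rw [mem_reF, neg_neg]; exact hj)
    omega

theorem rev_G (L : Lt) : C.rev.G L = C.G L := by
  unfold G
  have h1 : (fun j => (C.rev.v j, C.rev.v (j + 1))) '' {j | C.rev.l j = L} =
      (fun j => (C.v (j + 1), C.v j)) '' {j | C.l j = inv L} := by
    ext z
    constructor
    · rintro ⟨j, hj, rfl⟩
      refine ⟨-1 - j, ?_, ?_⟩
      · exact eq_inv_comm.1 (Eq.symm hj)
      · show (C.v (-1 - j + 1), C.v (-1 - j)) = (C.v (-j), C.v (-(j + 1)))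
        have e1 : -1 - j + 1 = -j := by ring
        have e2 : -(j + 1) = -1 - j := by ring
        rw [e1, e2]
    · rintro ⟨j, hj, rfl⟩
      refine ⟨-1 - j, ?_, ?_⟩
      · show inv (C.l (-1 - (-1 - j))) = L
        have e : -1 - (-1 - j) = j := by ring
        have hj' : C.l j = inv L := hj
        rw [e, hj', inv_inv]
      · show (C.v (-(-1 - j)), C.v (-(-1 - j + 1))) = (C.v (j + 1), C.v j)
        have e1 : -(-1 - j) = j + 1 := by ring
        have e2 : -(-1 - j + 1) = j := by ring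
        rw [e1, e2]
  have h2 : (fun j => (C.rev.v (j + 1), C.rev.v j)) '' {j | C.rev.l j = inv L} =
      (fun j => (C.v j, C.v (j + 1))) '' {j | C.l j = L} := by
    ext z
    constructor
    · rintro ⟨j, hj, rfl⟩
      refine ⟨-1 - j, ?_, ?_⟩
      · exact inv_inj hj
      · show (C.v (-1 - j), C.v (-1 - j + 1)) = (C.v (-(j + 1)), C.v (-j))
        have e1 : -1 - j + 1 = -j := by ring
        have e2 : -(j + 1) = -1 - j := by ring
        rw [e1, e2]
    · rintro ⟨j, hj, rfl⟩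
      refine ⟨-1 - j, ?_, ?_⟩
      · show inv (C.l (-1 - (-1 - j))) = inv L
        have e : -1 - (-1 - j) = j := by ring
        have hj' : C.l j = L := hj
        rw [e, hj']
      · show (C.v (-(-1 - j + 1)), C.v (-(-1 - j))) = (C.v j, C.v (j + 1))
        have e1 : -(-1 - j) = j + 1 := by ring
        have e2 : -(-1 - j + 1) = j := by ring
        rw [e1, e2]
  rw [h1, h2, sup_assoc, sup_assoc]
  congr 1
  exact sup_comm _ _

theorem uniq {L : ℤ → Lt} {w : ℤ → (ℕ →₀ k)} (hL : ∀ t, L (t + 1) ≠ inv (L t))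
    (hw : ∀ t, (w t, w (t + 1)) ∈ C.G (L t)) (hΛ : C.m ≤ C.Λ) {o t : ℤ}
    (hl : ∀ t', t - C.m + 1 ≤ t' → t' ≤ t + C.m - 1 → L t' = C.l (o + t')) {p : ℤ}
    (ha : C.π p (w t) ≠ 0) : (C.m : ℤ) ∣ o + t - p := by
  rcases C.F1 (hw t) ha with h1 | h1
  · obtain ⟨t2, h2, h3, h4⟩ := C.run hL hw hΛ ha h1.symm
    have h5 := C.C1 (c := o + t2) (c' := p - t + t2) (fun r hr => by
      rw [← h4 r hr, hl (t2 + r) (by omega) (by omega), add_assoc])
    have e : o + t2 - (p - t + t2) = o + t - p := by ring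
    rwa [e] at h5
  · exfalso
    have hw' : ∀ t, (w t, w (t + 1)) ∈ C.rev.G (L t) := by
      intro t
      rw [C.rev_G]
      exact hw t
    have ha' : C.rev.π (-p) (w t) ≠ 0 := by
      show C.π (- -p) (w t) ≠ 0
      rwa [neg_neg]
    have hl' : L t = C.rev.l (-p) := by
      show L t = inv (C.l (-1 - -p))
      have e : -1 - -p = p - 1 := by ring
      rw [e, h1, inv_inv]
    obtain ⟨t2, h2, h3, h4⟩ := C.rev.run hL hw' hΛ ha' hl'
    have hm' : C.rev.m = C.m := rfl
    rw [hm'] at h2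
    apply parity_m C.red C.hm C.per (c := o + t2) (d := p + t - t2 - 1)
    intro r hr
    have h5 := h4 r hr
    rw [hl (t2 + r) (by omega) (by omega)] at h5
    rw [add_assoc, h5]
    show inv (C.l (-1 - (-p - t + t2 + r))) = _
    congr 2
    ring

/-- the closing principle on windows of length `K` -/
def LP (K : ℕ) : Prop := ∀ (o t0 : ℤ) (w : ℤ → (ℕ →₀ k)),
  (∀ t, t0 ≤ t → t < t0 + K → (w t, w (t + 1)) ∈ C.G (C.l (o + t))) →
  (∀ t, t0 ≤ t → t ≤ t0 + K → ∀ p, ¬ (C.m : ℤ) ∣ o + t - p → C.π p (w t) = 0) →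
  ∃ (γ : ℤ →₀ k) (τ : ℤ → (ℕ →₀ k)), Cls C.m γ o ∧ (∀ t, (τ t, τ (t + 1)) ∈ C.S.Γ (C.l t)) ∧
    ∀ t, t0 ≤ t → t ≤ t0 + K → w t = ev C.v γ t + τ (o + t)

theorem LP.rev {C : PreLoop k} {K : ℕ} (h : C.LP K) : C.rev.LP K := by
  intro o t0 w hw hπ
  have A1 : ∀ t, -t0 - K ≤ t → t < -t0 - K + K →
      ((fun t => w (-t)) t, (fun t => w (-t)) (t + 1)) ∈ C.G (C.l (-o + t)) := by
    intro t h1 h2
    have h3 := hw (-t - 1) (by omega) (by omega)
    rw [C.rev_G] at h3
    have e1 : -t - 1 + 1 = -t := by ring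
    rw [e1] at h3
    have h4 := C.G_sym h3
    have e2 : inv (C.rev.l (o + (-t - 1))) = C.l (-o + t) := by
      show inv (inv (C.l (-1 - (o + (-t - 1))))) = _
      rw [inv_inv]
      congr 1
      ring
    rw [e2] at h4
    have e3 : -(t + 1) = -t - 1 := by ring
    show (w (-t), w (-(t + 1))) ∈ _
    rw [e3]
    exact h4
  have A2 : ∀ t, -t0 - K ≤ t → t ≤ -t0 - K + K → ∀ p, ¬ (C.m : ℤ) ∣ -o + t - p →
      C.π p ((fun t => w (-t)) t) = 0 := by
    intro t h1 h2 p hp
    have h3 := hπ (-t) (by omega) (by omega) (-p) (by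
      intro hd
      apply hp
      have e : -o + t - p = -(o + -t - -p) := by ring
      rw [e]; exact (dvd_neg).2 hd)
    have h4 : C.π (- -p) (w (-t)) = 0 := h3
    rwa [neg_neg] at h4
  obtain ⟨γ, τ, hc, hτ, he⟩ := h (-o) (-t0 - K) (fun t => w (-t)) A1 A2
  refine ⟨reF γ, fun t => τ (-t), ?_, ?_, ?_⟩
  · have := Cls_reF hc
    rwa [neg_neg] at this
  · intro t
    show (τ (-t), τ (-(t + 1))) ∈ C.S.Γ (inv (C.l (-1 - t)))
    apply C.S.sym
    have := hτ (-1 - t)
    have e1 : -1 - t + 1 = -t := by ring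
    have e2 : -(t + 1) = -1 - t := by ring
    rw [e1] at this
    rw [e2]; exact this
  · intro t h1 h2
    have h3 := he (-t) (by omega) (by omega)
    simp only [neg_neg] at h3
    rw [h3]
    show _ = ev (fun j => C.v (-j)) (reF γ) t + τ (-(o + t))
    rw [ev_reF, neg_add]

end PreLoop

end

end Pool.Agent.Helper684
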