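import Pool.Agent.Helper684.Loop2

set_option autoImplicit false

namespace Pool.Agent.Helper684

noncomputable section

variable {k : Type} [Field k]

namespace PreLoop

variable (C : PreLoop k)

theorem τ_G {τ : ℤ → (ℕ →₀ k)} (hτ : ∀ t, (τ t, τ (t + 1)) ∈ C.S.Γ (C.l t)) (o t : ℤ) :
    (τ (o + t), τ (o + (t + 1))) ∈ C.G (C.l (o + t)) := by
  rw [← add_assoc]
  exact C.le_G _ (hτ (o + t))

theorem τ_VN {τ : ℤ → (ℕ →₀ k)} (hτ : ∀ t, (τ t, τ (t + 1)) ∈ C.S.Γ (C.l t)) (t : ℤ) :
    τ t ∈ VN k C.S.N := C.S.bd _ _ _ (hτ t)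

/-- the model path -/
theorem model_G {γ : ℤ →₀ k} {o : ℤ} (hc : Cls C.m γ o) {τ : ℤ → (ℕ →₀ k)}
    (hτ : ∀ t, (τ t, τ (t + 1)) ∈ C.S.Γ (C.l t)) (t : ℤ) :
    (ev C.v γ t + τ (o + t), ev C.v γ (t + 1) + τ (o + (t + 1))) ∈ C.G (C.l (o + t)) :=
  (C.G _).add_mem (C.ev_G hc t) (C.τ_G hτ o t)

theorem NB {K : ℕ} (hK : K + 2 * C.m ≤ C.Λ) (hs : C.s - C.a + 1 ≤ C.Λ) (lp : C.LP K)
    {L : ℤ → Lt} {w : ℤ → (ℕ →₀ k)} (hL : ∀ t, L (t + 1) ≠ inv (L t))
    (hw : ∀ t, (w t, w (t + 1)) ∈ C.G (L t)) {q : ℕ} (hq : 0 < q) {μ : k}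
    (hμ : ∀ t, w (t + q) = μ • w t) {p t1 : ℤ} (h0 : C.π p (w t1) = 0)
    (hl : L t1 = C.l p) (h1 : C.π (p + 1) (w (t1 + 1)) ≠ 0) : False := by
  have hm := C.hm
  set o := p - t1 with ho
  have hwin : ∀ t, t1 ≤ t → t ≤ t1 + C.Λ → L t = C.l (o + t) := by
    intro t h2 h3
    have := C.life_letters hL hw h0 hl h1 (t - t1).toNat (by omega)
    have e1 : t1 + ((t - t1).toNat : ℤ) = t := by omega
    have e2 : p + ((t - t1).toNat : ℤ) = o + t := by omega
    rwa [e1, e2] at this
  set t0 := t1 + C.m - 1 with ht0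
  obtain ⟨γ, τ, hc, hτ, he⟩ := lp o t0 w (by
      intro t h2 h3
      have := hw t
      rwa [hwin t (by omega) (by omega)] at this) (by
      intro t h2 h3 p' hp'
      by_contra hne
      exact hp' (C.uniq hL hw (by omega) (fun t' h4 h5 => hwin t' (by omega) (by omega)) hne))
  -- agreement back to `t1`
  have hmod := C.model_G hc hτ
  have hback : w t1 = ev C.v γ t1 + τ (o + t1) := by
    have := C.agree_bwd (L := fun t => C.l (o + t)) (w := w)
      (w' := fun t => ev C.v γ t + τ (o + t)) (t0 := t0) (C.m - 1)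
      (fun i hi => by
        have := hw (t0 - i - 1)
        rw [hwin _ (by omega) (by omega), sub_add_cancel] at this
        exact this)
      (fun i hi => by
        have := hmod (t0 - i - 1)
        rw [sub_add_cancel] at this
        exact this)
      (he t0 (le_refl _) (by omega)) (C.m - 1) (le_refl _)
    have e : t0 - ((C.m - 1 : ℕ) : ℤ) = t1 := by omega
    rwa [e] at this
  have hpo : p = o + t1 := by omega
  have hπ0 : C.π (o + t1) (ev C.v γ t1) = 0 := by
    rw [hpo, hback, map_add, C.π_N _ _ (C.τ_VN hτ _), add_zero] at h0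
    exact h0
  obtain ⟨γ', hγ', hev⟩ := C.X3 γ o t1 hc hπ0
  have hc' : Cls C.m γ' (o + t1) := fun j hj => (hγ' j hj).2.2
  have hcard : γ'.support.card ≤ C.Λ := by
    have h2 : γ'.support ⊆ Finset.Icc C.a C.s := by
      intro j hj
      rw [Finset.mem_Icc]
      exact ⟨(hγ' j hj).1, (hγ' j hj).2.1⟩
    have h3 := Finset.card_le_card h2
    rw [Int.card_Icc] at h3
    omega
  -- forward agreement, one step
  have hstep : ∀ n : ℕ, w (t1 + n) = ev C.v γ (t1 + n) + τ (o + (t1 + n)) →
      L (t1 + n) = C.l (o + (t1 + n)) →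
      w (t1 + (n + 1 : ℕ)) = ev C.v γ (t1 + (n + 1 : ℕ)) + τ (o + (t1 + (n + 1 : ℕ))) := by
    intro n h2 h3
    have h4 := hw (t1 + n)
    have h5 := hmod (t1 + n)
    rw [h3, h2] at h4
    have e : t1 + ((n + 1 : ℕ) : ℤ) = t1 + n + 1 := by push_cast; ring
    rw [e]
    exact C.G_eq h4 h5
  have hπw : ∀ n : ℕ, w (t1 + n) = ev C.v γ (t1 + n) + τ (o + (t1 + n)) →
      C.π (o + t1 + n) (w (t1 + n)) = C.π (o + t1 + n) (ev C.v γ' n) := by
    intro n h2
    rw [h2, map_add, C.π_N _ _ (C.τ_VN hτ _), add_zero, hev]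
  have hone : w (t1 + (1 : ℕ)) = ev C.v γ (t1 + (1 : ℕ)) + τ (o + (t1 + (1 : ℕ))) := by
    have := hstep 0 (by simpa using hback) (by
      have := hwin t1 (le_refl _) (by omega)
      simpa using this)
    simpa using this
  have halive : ∀ n : ℕ, 1 ≤ n → C.π (o + t1 + n) (ev C.v γ' n) ≠ 0 := by
    intro n hn h2
    have h3 := C.X4 γ' (o + t1) n hc' hcard h2
    have h4 : ev C.v γ' 1 ∈ VN k C.S.N := by
      rw [ev_eq_sum]
      apply Submodule.sum_mem
      intro j hj
      apply Submodule.smul_mem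
      have h5 := h3 j hj
      have h6 := hγ' j hj
      exact C.v_mem _ (by omega) (by omega)
    apply h1
    have h5 := hπw 1 hone
    rw [← hpo] at h5
    push_cast at h5
    rw [h5]
    exact C.π_N _ _ h4
  have hall : ∀ n : ℕ, w (t1 + n) = ev C.v γ (t1 + n) + τ (o + (t1 + n)) ∧
      L (t1 + n) = C.l (o + (t1 + n)) := by
    intro n
    induction n with
    | zero =>
      refine ⟨by simpa using hback, ?_⟩
      have := hwin t1 (le_refl _) (by omega)
      simpa using this
    | succ n ih =>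
      have h2 := hstep n ih.1 ih.2
      refine ⟨h2, ?_⟩
      have h3 := hπw (n + 1) h2
      have h4 : C.π (o + t1 + ((n + 1 : ℕ) : ℤ)) (w (t1 + ((n + 1 : ℕ) : ℤ))) ≠ 0 := by
        rw [h3]
        exact halive (n + 1) (by omega)
      rw [← add_assoc]
      apply C.alive_out hL hw h4
      have e1 : t1 + ((n + 1 : ℕ) : ℤ) - 1 = t1 + n := by push_cast; ring
      have e2 : o + t1 + ((n + 1 : ℕ) : ℤ) - 1 = o + (t1 + n) := by push_cast; ring
      rw [e1, e2]
      exact ih.2
  apply halive q hq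
  rw [← hπw q (hall q).1, hμ, map_smul, hback, map_add, C.π_N _ _ (C.τ_VN hτ _), add_zero]
  have h2 := hev 0
  rw [add_zero] at h2
  rw [h2, C.π_N _ _ (C.ev_mem_VN (fun j hj => ⟨(hγ' j hj).1, (hγ' j hj).2.1⟩)), smul_zero]

end PreLoop

theorem Sh_comm {V : Type} [AddCommGroup V] [Module k V] (q r : ℤ) :
    Commute (Sh q : Module.End k (ℤ → V)) (Sh r) := by
  apply LinearMap.ext
  intro w
  funext t
  rw [Module.End.mul_apply, Module.End.mul_apply, Sh_apply, Sh_apply, Sh_apply, Sh_apply]
  congr 1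
  ring

theorem Sh_nilp_comm {V : Type} [AddCommGroup V] [Module k V] {q r : ℤ} {M : ℕ} {w : ℤ → V}
    (h : (((Sh q : Module.End k (ℤ → V)) - 1) ^ M) w = 0) :
    (((Sh q : Module.End k (ℤ → V)) - 1) ^ M) ((Sh r : Module.End k (ℤ → V)) w) = 0 := by
  have hc : Commute (((Sh q : Module.End k (ℤ → V)) - 1) ^ M) (Sh r) :=
    ((Sh_comm q r).sub_left (Commute.one_left _)).pow_left M
  have := congrFun (congrArg DFunLike.coe hc.eq) w
  rw [Module.End.mul_apply, Module.End.mul_apply, h, map_zero] at this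
  exact this

/-- reflection of sequences -/
def Rf (V : Type) [AddCommGroup V] [Module k V] : Module.End k (ℤ → V) :=
  LinearMap.funLeft k V (fun t => -t)

theorem Rf_apply {V : Type} [AddCommGroup V] [Module k V] (w : ℤ → V) (t : ℤ) :
    (Rf V : Module.End k (ℤ → V)) w t = w (-t) := rfl

theorem Sh_nilp_rf {V : Type} [AddCommGroup V] [Module k V] {q : ℤ} {M : ℕ} {w : ℤ → V}
    (h : (((Sh q : Module.End k (ℤ → V)) - 1) ^ M) w = 0) :
    (((Sh q : Module.End k (ℤ → V)) - 1) ^ M) ((Rf V : Module.End k (ℤ → V)) w) = 0 := by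
  induction M generalizing w with
  | zero =>
    have : w = 0 := by simpa using h
    rw [this, map_zero, map_zero]
  | succ M ih =>
    rw [pow_succ, Module.End.mul_apply] at h ⊢
    have h1 : ((Sh q : Module.End k (ℤ → V)) - 1) ((Rf V : Module.End k (ℤ → V)) w) =
        (Rf V : Module.End k (ℤ → V))
          (-((Sh (-q) : Module.End k (ℤ → V)) (((Sh q : Module.End k (ℤ → V)) - 1) w))) := by
      funext t
      simp only [LinearMap.sub_apply, Module.End.one_apply, Pi.sub_apply, Sh_apply, Rf_apply,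
        Pi.neg_apply]
      have e1 : -t + -q + q = -t := by ring
      have e2 : -(t + q) = -t + -q := by ring
      rw [e1, e2, neg_sub]
    rw [h1]
    apply ih
    rw [map_neg, neg_eq_zero]
    exact Sh_nilp_comm h

namespace PreLoop

variable (C : PreLoop k)

theorem ev_nilp {M : ℕ} {q : ℤ} (h : (((Sh q : Module.End k (ℤ → (ℕ →₀ k))) - 1) ^ M) C.v = 0)
    (γ : ℤ →₀ k) :
    (((Sh q : Module.End k (ℤ → (ℕ →₀ k))) - 1) ^ M) (fun t => ev C.v γ t) = 0 := by
  have h1 : (fun t => ev C.v γ t) =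
      ∑ j ∈ γ.support, γ j • (Sh j : Module.End k (ℤ → (ℕ →₀ k))) C.v := by
    funext t
    rw [ev_eq_sum, Finset.sum_apply]
    apply Finset.sum_congr rfl
    intro j _
    rw [Pi.smul_apply, Sh_apply, add_comm j t]
  rw [h1, map_sum]
  apply Finset.sum_eq_zero
  intro j _
  rw [map_smul, Sh_nilp_comm h, smul_zero]

theorem posCase {K : ℕ} (hK : K + 2 * C.m ≤ C.Λ) (hs : C.s - C.a + 1 ≤ C.Λ) (lp : C.LP K)
    {M : ℕ} (hM : ∀ τ : ℤ → (ℕ →₀ k), (∀ t, (τ t, τ (t + 1)) ∈ C.S.Γ (C.l t)) →
      (((Sh C.m : Module.End k (ℤ → (ℕ →₀ k))) - 1) ^ M) τ = 0)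
    (hv : (((Sh C.m : Module.End k (ℤ → (ℕ →₀ k))) - 1) ^ M) C.v = 0)
    {L : ℤ → Lt} {w : ℤ → (ℕ →₀ k)} (hL : ∀ t, L (t + 1) ≠ inv (L t))
    {q : ℕ} (hq : 0 < q) (hLq : ∀ t, L (t + q) = L t)
    (hw : ∀ t, (w t, w (t + 1)) ∈ C.G (L t)) {μ : k} (hμ : ∀ t, w (t + q) = μ • w t)
    (hμ1 : μ ≠ 1) {p t : ℤ} (ha : C.π p (w t) ≠ 0) (hl : L t = C.l p) : False := by
  have hm := C.hm
  have hback : ∀ n : ℕ, C.π (p - n) (w (t - n)) ≠ 0 ∧ L (t - n) = C.l (p - n) := by
    intro n
    induction n with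
    | zero => simpa using ⟨ha, hl⟩
    | succ n ih =>
      have h1 := C.alive_in hL hw ih.1 ih.2
      have e1 : t - ((n + 1 : ℕ) : ℤ) = t - n - 1 := by push_cast; ring
      have e2 : p - ((n + 1 : ℕ) : ℤ) = p - n - 1 := by push_cast; ring
      rw [e1, e2]
      refine ⟨fun h2 => ?_, h1⟩
      apply C.NB hK hs lp hL hw hq hμ h2 h1
      rw [sub_add_cancel, sub_add_cancel]
      exact ih.1
  set o := p - t with ho
  have hleft : ∀ t', t' ≤ t → L t' = C.l (o + t') := by
    intro t' ht'
    have := (hback (t - t').toNat).2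
    have e1 : t - ((t - t').toNat : ℤ) = t' := by omega
    have e2 : p - ((t - t').toNat : ℤ) = o + t' := by omega
    rwa [e1, e2] at this
  have hLQ : ∀ t' (r : ℤ), L (t' + r * (q * C.m)) = L t' := by
    intro t' r
    have := periodic_mul (f := L) (m := q) hLq t' (r * C.m)
    have e : t' + r * C.m * q = t' + r * (q * C.m) := by ring
    rwa [e] at this
  have hlQ : ∀ t' (r : ℤ), C.l (t' + r * (q * C.m)) = C.l t' := by
    intro t' r
    have := periodic_mul (f := C.l) (m := C.m) C.per t' (r * q)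
    have e : t' + r * q * C.m = t' + r * (q * C.m) := by ring
    rwa [e] at this
  have hall : ∀ t', L t' = C.l (o + t') := by
    intro t'
    have hqm : (1 : ℤ) ≤ q * C.m := by
      have h1 : (1 : ℤ) ≤ q := by exact_mod_cast hq
      have h2 : (1 : ℤ) ≤ C.m := by exact_mod_cast hm
      nlinarith
    have h1 := hleft (t' + (-(|t' - t|)) * (q * C.m)) (by
      have h2 : t' - t ≤ |t' - t| := le_abs_self _
      have h3 : 0 ≤ |t' - t| := abs_nonneg _
      nlinarith)
    rw [hLQ] at h1
    rw [h1, ← add_assoc, hlQ]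
  have hmq : (C.m : ℤ) ∣ q := by
    apply C.minp
    intro u
    have h1 := hall (u - o + q)
    have h2 := hall (u - o)
    rw [hLq, h2] at h1
    have e1 : o + (u - o) = u := by ring
    have e2 : o + (u - o + q) = u + q := by ring
    rw [e1, e2] at h1
    exact h1.symm
  obtain ⟨γ, τ, hc, hτ, he⟩ := lp o 0 w (by
      intro t' _ _
      have := hw t'
      rwa [hall t'] at this) (by
      intro t' _ _ p' hp'
      by_contra hne
      exact hp' (C.uniq hL hw (by omega) (fun t'' _ _ => hall t'') hne))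
  have hmod := C.model_G hc hτ
  have h0 := he 0 (le_refl _) (by omega)
  have hww : ∀ t', w t' = ev C.v γ t' + τ (o + t') := by
    intro t'
    rcases le_total 0 t' with h1 | h1
    · have := C.agree_fwd (L := fun t => C.l (o + t)) (w := w)
        (w' := fun t => ev C.v γ t + τ (o + t)) (t0 := 0) t'.toNat
        (fun i hi => by
          have := hw (0 + i)
          rw [hall] at this
          exact this)
        (fun i hi => hmod (0 + i)) h0 t'.toNat (le_refl _)
      have e : 0 + (t'.toNat : ℤ) = t' := by omega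
      rwa [e] at this
    · have := C.agree_bwd (L := fun t => C.l (o + t)) (w := w)
        (w' := fun t => ev C.v γ t + τ (o + t)) (t0 := 0) (-t').toNat
        (fun i hi => by
          have := hw (0 - i - 1)
          rw [hall, sub_add_cancel] at this
          exact this)
        (fun i hi => by
          have := hmod (0 - i - 1)
          rw [sub_add_cancel] at this
          exact this) h0 (-t').toNat (le_refl _)
      have e : 0 - ((-t').toNat : ℤ) = t' := by omega
      rwa [e] at this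
  have hwnil : (((Sh C.m : Module.End k (ℤ → (ℕ →₀ k))) - 1) ^ M) w = 0 := by
    have e : w = (fun t => ev C.v γ t) + (Sh o : Module.End k (ℤ → (ℕ →₀ k))) τ := by
      funext t'
      rw [Pi.add_apply, Sh_apply, hww t', add_comm o t']
    rw [e, map_add, C.ev_nilp hv, Sh_nilp_comm (hM τ hτ), add_zero]
  obtain ⟨r, hr⟩ := hmq
  have hr0 : 0 ≤ r := by
    by_contra hneg
    push Not at hneg
    have h1 : (0 : ℤ) < q := by exact_mod_cast hq
    have h2 : (0 : ℤ) < C.m := by exact_mod_cast hm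
    nlinarith
  have hwnil2 : (((Sh q : Module.End k (ℤ → (ℕ →₀ k))) - 1) ^ M) w = 0 := by
    have := Sh_nilp_mul r.toNat hwnil
    have e : ((r.toNat : ℤ) * (C.m : ℤ)) = q := by
      rw [Int.toNat_of_nonneg hr0, hr, mul_comm]
    rwa [e] at this
  have hpow : ∀ n : ℕ, (((Sh q : Module.End k (ℤ → (ℕ →₀ k))) - 1) ^ n) w = (μ - 1) ^ n • w := by
    intro n
    induction n with
    | zero => simp
    | succ n ih =>
      rw [pow_succ', Module.End.mul_apply, ih, map_smul]
      have : ((Sh q : Module.End k (ℤ → (ℕ →₀ k))) - 1) w = (μ - 1) • w := by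
        funext t'
        rw [LinearMap.sub_apply, Pi.sub_apply, Sh_apply, hμ, Module.End.one_apply, Pi.smul_apply,
          sub_smul, one_smul]
      rw [this, smul_smul, pow_succ]
  rw [hpow] at hwnil2
  have hne : (μ - 1) ^ M ≠ 0 := pow_ne_zero _ (sub_ne_zero.2 hμ1)
  have hw0 : w = 0 := by
    rcases smul_eq_zero.1 hwnil2 with h1 | h1
    · exact absurd h1 hne
    · exact h1
  apply ha
  rw [hw0, Pi.zero_apply, map_zero]

theorem R_per : ∀ t : ℤ, (fun t => C.S.Γ (C.l t)) (t + C.m) = (fun t => C.S.Γ (C.l t)) t := by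
  intro t
  show C.S.Γ (C.l (t + C.m)) = _
  rw [C.per]

theorem exists_M [IsAlgClosed k] (hI : Good C.S.Γ) :
    ∃ M : ℕ, ∀ τ : ℤ → (ℕ →₀ k), (∀ t, (τ t, τ (t + 1)) ∈ C.S.Γ (C.l t)) →
      (((Sh C.m : Module.End k (ℤ → (ℕ →₀ k))) - 1) ^ M) τ = 0 :=
  nilp_of_eig (C.S.functional C.l) (C.S.cofunctional C.l) C.R_per (VN k C.S.N)
    (fun _ _ _ h => C.S.bd _ _ _ h)
    (fun w hw μ hμ hμ1 => hI C.l w C.m μ C.hm C.red C.per hw hμ hμ1)

theorem posCase' [IsAlgClosed k] {K : ℕ} (hK : K + 2 * C.m ≤ C.Λ) (hs : C.s - C.a + 1 ≤ C.Λ)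
    (lp : C.LP K) (hI : Good C.S.Γ)
    (hv : ∃ M : ℕ, (((Sh C.m : Module.End k (ℤ → (ℕ →₀ k))) - 1) ^ M) C.v = 0)
    {L : ℤ → Lt} {w : ℤ → (ℕ →₀ k)} (hL : ∀ t, L (t + 1) ≠ inv (L t))
    {q : ℕ} (hq : 0 < q) (hLq : ∀ t, L (t + q) = L t)
    (hw : ∀ t, (w t, w (t + 1)) ∈ C.G (L t)) {μ : k} (hμ : ∀ t, w (t + q) = μ • w t)
    (hμ1 : μ ≠ 1) {p t : ℤ} (ha : C.π p (w t) ≠ 0) (hl : L t = C.l p) : False := by
  obtain ⟨M1, hM1⟩ := C.exists_M hI
  obtain ⟨M2, hM2⟩ := hv
  exact C.posCase hK hs lp (M := max M1 M2)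
    (fun τ hτ => Sh_nilp_mono (le_max_left _ _) (hM1 τ hτ))
    (Sh_nilp_mono (le_max_right _ _) hM2) hL hq hLq hw hμ hμ1 ha hl

/-- the invariant passes to the closed relations -/
theorem good_G [IsAlgClosed k] {K : ℕ} (hK : K + 2 * C.m ≤ C.Λ) (hs : C.s - C.a + 1 ≤ C.Λ)
    (lp : C.LP K) (hI : Good C.S.Γ)
    (hv : ∃ M : ℕ, (((Sh C.m : Module.End k (ℤ → (ℕ →₀ k))) - 1) ^ M) C.v = 0) : Good C.G := by
  intro L w q μ hq hL hLq hw hμ hμ1
  have hm := C.hm
  by_cases hal : ∃ p t, C.π p (w t) ≠ 0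
  · exfalso
    obtain ⟨p, t, ha⟩ := hal
    rcases C.F1 (hw t) ha with h1 | h1
    · exact C.posCase' hK hs lp hI hv hL hq hLq hw hμ hμ1 ha h1.symm
    · refine C.rev.posCase' (K := K) hK ?_ lp.rev hI ?_ hL hq hLq ?_ hμ hμ1 (p := -p) (t := t) ?_ ?_
      · show -C.a - -C.s + 1 ≤ C.Λ
        linarith
      · obtain ⟨M, hM⟩ := hv
        exact ⟨M, Sh_nilp_rf hM⟩
      · intro t
        rw [C.rev_G]
        exact hw t
      · show C.π (- -p) (w t) ≠ 0
        rwa [neg_neg]
      · show L t = inv (C.l (-1 - -p))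
        have e : -1 - -p = p - 1 := by ring
        rw [e, h1, inv_inv]
  · push Not at hal
    apply hI L w q μ hq hL hLq _ hμ hμ1
    intro t
    obtain ⟨α, β, x1, y1, h1, hα, hβ, ex, ey⟩ := C.exit (hw t) (fun p => hal p t)
    have hy : y1 ∈ VN k C.S.N := C.S.bd' h1
    -- projections of the exit vector vanish
    have key : ∀ p, C.π p (α • C.v (C.s + 1) + β • C.v (C.a - 1)) = 0 := by
      intro p
      have h2 := hal p (t + 1)
      rw [ey, add_assoc, map_add, C.π_N _ _ hy, zero_add] at h2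
      exact h2
    have hαβ : α = 0 ∧ β = 0 := by
      by_cases hd : (C.m : ℤ) ∣ C.a - 1 - (C.s + 1)
      · set γ : ℤ →₀ k := Finsupp.single (C.s + 1) α + Finsupp.single (C.a - 1) β with hγ
        have hc : Cls C.m γ (C.s + 1) := by
          apply Cls.add
          · exact Cls.single (fun _ => by simp)
          · exact Cls.single (fun _ => hd)
        have hcard : γ.support.card ≤ C.Λ := by
          have h2 : γ.support ⊆ {C.s + 1, C.a - 1} := by
            intro j hj
            rcases Finset.mem_union.1 (Finsupp.support_add hj) with h | h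
            · have := Finsupp.support_single_subset h
              rw [Finset.mem_singleton] at this
              rw [this]; simp
            · have := Finsupp.support_single_subset h
              rw [Finset.mem_singleton] at this
              rw [this]; simp
          have h3 := (Finset.card_le_card h2).trans Finset.card_le_two
          omega
        have h0 : C.π (C.s + 1 + 0) (ev C.v γ 0) = 0 := by
          rw [hγ, ev_add, ev_single, ev_single, add_zero, add_zero]
          exact key _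
        have hX := C.X4 γ (C.s + 1) 0 hc hcard h0
        have hsa := C.has
        constructor
        · by_contra hne
          have : C.s + 1 ∈ γ.support := by
            rw [Finsupp.mem_support_iff, hγ, Finsupp.add_apply, Finsupp.single_apply,
              Finsupp.single_apply, if_pos rfl, if_neg (by omega), add_zero]
            exact hne
          have := hX _ this
          omega
        · by_contra hne
          have : C.a - 1 ∈ γ.support := by
            rw [Finsupp.mem_support_iff, hγ, Finsupp.add_apply, Finsupp.single_apply,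
              Finsupp.single_apply, if_pos rfl, if_neg (by omega), zero_add]
            exact hne
          have := hX _ this
          omega
      · have single0 : ∀ (j : ℤ) (c : k), (j < C.a ∨ C.s < j) → C.π j (c • C.v j) = 0 → c = 0 := by
          intro j c hj h2
          by_contra hne
          have hX := C.X4 (Finsupp.single j c) j 0 (Cls.single (fun _ => by simp)) (by
            have := Finset.card_le_card (Finsupp.support_single_subset (a := j) (b := c))
            rw [Finset.card_singleton] at this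
            omega) (by rw [ev_single, add_zero]; exact h2) j (by
            rw [Finsupp.mem_support_iff]; simpa using hne)
          omega
        constructor
        · apply single0 (C.s + 1) α (Or.inr (by omega))
          have h2 := key (C.s + 1)
          rw [map_add, map_smul _ β, C.π_v _ _ hd, smul_zero, add_zero] at h2
          exact h2
        · apply single0 (C.a - 1) β (Or.inl (by omega))
          have h2 := key (C.a - 1)
          have hd' : ¬ (C.m : ℤ) ∣ C.s + 1 - (C.a - 1) := by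
            intro h3
            apply hd
            have e : C.a - 1 - (C.s + 1) = -(C.s + 1 - (C.a - 1)) := by ring
            rw [e]; exact (dvd_neg).2 h3
          rw [map_add, map_smul _ α, C.π_v _ _ hd', smul_zero, zero_add] at h2
          exact h2
    obtain ⟨rfl, rfl⟩ := hαβ
    rw [zero_smul, zero_smul, add_zero, add_zero] at ex ey
    rw [ex, ey]
    exact h1

end PreLoop

end

end Pool.Agent.Helper684
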