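import Pool.Agent.Helper684.Limit

set_option autoImplicit false

namespace Pool.Agent.Helper684

noncomputable section

/-- passing to a simple subquotient -/
theorem simple_quot {k : Type} [Field k] {V : Type} [AddCommGroup V] [Module k V]
    {G : Type} [Group G] (ρ : Representation k G V) (e : V) (he : e ≠ 0) (a b : G)
    (hxy : (ρ a e - e) + (ρ b e - e) = e)
    (huni : ∀ g, ∀ v : V, ∃ n : ℕ, ((ρ g - 1) ^ n) v = 0) :
    ∃ (V : Type) (_ : AddCommGroup V) (_ : Module k V)
      (ρ : Representation k G V), Nontrivial V ∧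
      (∀ W : Submodule k V, (∀ g, ∀ v ∈ W, ρ g v ∈ W) → W = ⊥ ∨ W = ⊤) ∧
      (∀ g, ∀ v : V, ∃ n : ℕ, ((ρ g - 1) ^ n) v = 0) ∧ ∃ g, ρ g ≠ 1 := by
  -- the cyclic subrepresentation
  let S : Submodule k V := Submodule.span k (Set.range fun g => ρ g e)
  have hS : ∀ g, ∀ v ∈ S, ρ g v ∈ S := by
    intro g v hv
    refine Submodule.span_induction (p := fun v _ => ρ g v ∈ S) ?_ ?_ ?_ ?_ hv
    · rintro _ ⟨h, rfl⟩
      have : ρ g (ρ h e) = ρ (g * h) e := by rw [map_mul]; rfl
      show ρ g (ρ h e) ∈ S
      rw [this]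
      exact Submodule.subset_span ⟨g * h, rfl⟩
    · rw [map_zero]; exact S.zero_mem
    · intro x y _ _ hx hy
      rw [map_add]; exact S.add_mem hx hy
    · intro c x _ hx
      rw [map_smul]; exact S.smul_mem c hx
  have heS : e ∈ S := by
    have : ρ 1 e = e := by rw [map_one]; rfl
    rw [← this]
    exact Submodule.subset_span ⟨1, rfl⟩
  let ρS : Representation k G S :=
    { toFun := fun g => (ρ g).restrict (hS g)
      map_one' := by ext v; simp
      map_mul' := by intro g h; ext v; simp }
  have hρS : ∀ g (v : S), ((ρS g v : S) : V) = ρ g v := fun g v => rfl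
  let e' : S := ⟨e, heS⟩
  have hρe : ∀ g, (⟨ρ g e, hS g e heS⟩ : S) = ρS g e' := fun g => rfl
  have hgen : ∀ N : Submodule k S, (∀ g, ∀ v ∈ N, ρS g v ∈ N) → e' ∈ N → N = ⊤ := by
    intro N hN he'
    rw [eq_top_iff]
    rintro ⟨v, hv⟩ -
    have key : ∀ v (hv : v ∈ S), (⟨v, hv⟩ : S) ∈ N := by
      intro v hv
      refine Submodule.span_induction (p := fun v hv => (⟨v, hv⟩ : S) ∈ N) ?_ ?_ ?_ ?_ hv
      · rintro _ ⟨h, rfl⟩
        exact hN h e' he'
      · exact N.zero_mem
      · intro x y hx hy hx' hy'
        exact N.add_mem hx' hy'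
      · intro c x hx hx'
        exact N.smul_mem c hx'
    exact key v hv
  -- Zorn
  obtain ⟨M, -, hM⟩ := zorn_le_nonempty₀
    {M : Submodule k S | (∀ g, ∀ v ∈ M, ρS g v ∈ M) ∧ e' ∉ M} (by
      intro c hc hchain y hy
      have hne : c.Nonempty := ⟨y, hy⟩
      have hdir : DirectedOn (· ≤ ·) c := hchain.directedOn
      refine ⟨sSup c, ⟨?_, ?_⟩, fun z hz => le_sSup hz⟩
      · intro g v hv
        rw [Submodule.mem_sSup_of_directed hne hdir] at hv ⊢
        obtain ⟨N, hN, hvN⟩ := hv
        exact ⟨N, hN, (hc hN).1 g v hvN⟩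
      · intro he'
        rw [Submodule.mem_sSup_of_directed hne hdir] at he'
        obtain ⟨N, hN, hvN⟩ := he'
        exact (hc hN).2 hvN) ⊥ ⟨by
      intro g v hv
      rw [Submodule.mem_bot] at hv ⊢
      rw [hv, map_zero], by
      intro h
      rw [Submodule.mem_bot] at h
      exact he (congrArg Subtype.val h)⟩
  have hM1 := hM.prop.1
  have hM2 := hM.prop.2
  let ρQ : Representation k G (S ⧸ M) :=
    { toFun := fun g => M.mapQ M (ρS g) (fun v hv => hM1 g v hv)
      map_one' := by
        apply LinearMap.ext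
        intro v
        obtain ⟨v, rfl⟩ := M.mkQ_surjective v
        change M.mkQ (ρS 1 v) = M.mkQ v
        rw [map_one]
        rfl
      map_mul' := by
        intro g h
        apply LinearMap.ext
        intro v
        obtain ⟨v, rfl⟩ := M.mkQ_surjective v
        change M.mkQ (ρS (g * h) v) = M.mkQ (ρS g (ρS h v))
        rw [map_mul]
        rfl }
  have hρQ : ∀ g (v : S), ρQ g (M.mkQ v) = M.mkQ (ρS g v) := fun g v => rfl
  have hne : M.mkQ e' ≠ 0 := by
    intro h
    rw [Submodule.mkQ_apply, Submodule.Quotient.mk_eq_zero] at h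
    exact hM2 h
  refine ⟨S ⧸ M, inferInstance, inferInstance, ρQ, ⟨⟨_, 0, hne⟩⟩, ?_, ?_, ?_⟩
  · intro W hW
    by_cases hin : M.mkQ e' ∈ W
    · right
      have h1 := hgen (W.comap M.mkQ) (fun g v hv => by
        rw [Submodule.mem_comap] at hv ⊢
        rw [← hρQ]
        exact hW g _ hv) hin
      rw [eq_top_iff]
      intro v _
      obtain ⟨v, rfl⟩ := M.mkQ_surjective v
      have : v ∈ W.comap M.mkQ := by rw [h1]; trivial
      exact this
    · left
      have h1 : W.comap M.mkQ ∈ {M : Submodule k S | (∀ g, ∀ v ∈ M, ρS g v ∈ M) ∧ e' ∉ M} :=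
        ⟨fun g v hv => by
          rw [Submodule.mem_comap] at hv ⊢
          rw [← hρQ]
          exact hW g _ hv, hin⟩
      have h2 : M ≤ W.comap M.mkQ := by
        intro v hv
        rw [Submodule.mem_comap]
        have : M.mkQ v = 0 := by
          rw [Submodule.mkQ_apply, Submodule.Quotient.mk_eq_zero]; exact hv
        rw [this]; exact W.zero_mem
      have h3 := hM.le_of_ge h1 h2
      rw [eq_bot_iff]
      intro v hv
      obtain ⟨v, rfl⟩ := M.mkQ_surjective v
      have h4 : v ∈ M := h3 hv
      rw [Submodule.mem_bot, Submodule.mkQ_apply, Submodule.Quotient.mk_eq_zero]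
      exact h4
  · intro g v
    obtain ⟨v, rfl⟩ := M.mkQ_surjective v
    obtain ⟨n, hn⟩ := huni g v
    refine ⟨n, ?_⟩
    have h1 : ∀ (n : ℕ) (v : S), (((ρS g - 1) ^ n) v : S) = (((ρ g - 1) ^ n) (v : V)) := by
      intro n
      induction n with
      | zero => intro v; rfl
      | succ n ih =>
        intro v
        rw [pow_succ, pow_succ, Module.End.mul_apply, Module.End.mul_apply, ih]
        rfl
    have h2 : ∀ (n : ℕ) (v : S), ((ρQ g - 1) ^ n) (M.mkQ v) = M.mkQ (((ρS g - 1) ^ n) v) := by
      intro n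
      induction n with
      | zero => intro v; rfl
      | succ n ih =>
        intro v
        rw [pow_succ, pow_succ, Module.End.mul_apply, Module.End.mul_apply, ← ih]
        rfl
    have h3 : ((ρS g - 1) ^ n) v = 0 := by
      apply Subtype.ext
      rw [h1, hn]
      rfl
    rw [h2, h3, map_zero]
  · by_contra hcon
    push Not at hcon
    have h1 : (ρS a e' - e') + (ρS b e' - e') = e' := Subtype.ext hxy
    have h2 := congrArg M.mkQ h1
    rw [map_add, map_sub, map_sub, ← hρQ, ← hρQ, hcon a, hcon b] at h2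
    apply hne
    rw [← h2]
    simp

theorem conj_sub {R : Type} [Ring R] (A B C : R) (h : A * C = 1) :
    A * B * C - 1 = A * (B - 1) * C := by
  rw [mul_sub, sub_mul, mul_one, h]

theorem prodT_eq {k : Type} [Field k] {V : Type} [AddCommGroup V] [Module k V]
    (T : Lt → (V →ₗ[k] V)) (L : List Lt) (l : ℤ → Lt)
    (hl : ∀ t : ℕ, (h : t < L.length) → l t = L[L.length - 1 - t]'(by omega)) :
    prodT T l L.length = (L.map T).prod := by
  have key : ∀ (n : ℕ) (hn : n ≤ L.length),
      prodT T l n = ((L.drop (L.length - n)).map T).prod := by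
    intro n
    induction n with
    | zero => intro _; simp [prodT]; rfl
    | succ n ih =>
      intro hn
      have h1 := ih (by omega)
      have h2 : L.length - (n + 1) < L.length := by omega
      rw [prodT, h1, List.drop_eq_getElem_cons h2, List.map_cons, List.prod_cons]
      have h3 : L.length - (n + 1) + 1 = L.length - n := by omega
      have h4 : L.length - 1 - n = L.length - (n + 1) := by omega
      rw [h3, hl n (by omega)]
      simp only [h4]
      rfl
  rw [key L.length le_rfl]
  simp

/-- from the letter operators to a simple nontrivial locally unipotent representation of the free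
group on two generators -/
theorem rep_of_ops {k : Type} [Field k] (T : Lt → ((ℕ →₀ k) →ₗ[k] (ℕ →₀ k)))
    (hT : ∀ l, T (inv l) ∘ₗ T l = LinearMap.id)
    (hxy : (T (0, true) (Finsupp.single 0 1) - Finsupp.single 0 1) +
        (T (1, true) (Finsupp.single 0 1) - Finsupp.single 0 1) = Finsupp.single 0 1)
    (huni : ∀ (l : ℤ → Lt) (q : ℕ), 0 < q → (∀ t, l (t + 1) ≠ inv (l t)) →
        (∀ t, l (t + q) = l t) →
        ∀ j : ℕ, ∃ M : ℕ, ((prodT T l q - 1) ^ M) (Finsupp.single j 1) = 0) :
    ∃ (V : Type) (_ : AddCommGroup V) (_ : Module k V)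
      (ρ : Representation k (FreeGroup (Fin 2)) V), Nontrivial V ∧
      (∀ W : Submodule k V, (∀ g, ∀ v ∈ W, ρ g v ∈ W) → W = ⊥ ∨ W = ⊤) ∧
      (∀ g, ∀ v : V, ∃ n : ℕ, ((ρ g - 1) ^ n) v = 0) ∧ ∃ g, ρ g ≠ 1 := by
  -- units
  let U : Fin 2 → (Module.End k (ℕ →₀ k))ˣ := fun i =>
    { val := T (i, true)
      inv := T (i, false)
      val_inv := hT (i, false)
      inv_val := hT (i, true) }
  let ρ : Representation k (FreeGroup (Fin 2)) (ℕ →₀ k) :=
    (Units.coeHom _).comp (FreeGroup.lift U)
  have hρ : ∀ L : List Lt, ρ (FreeGroup.mk L) = (L.map T).prod := by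
    intro L
    change ((FreeGroup.lift U (FreeGroup.mk L) : (Module.End k (ℕ →₀ k))ˣ) :
      Module.End k (ℕ →₀ k)) = _
    rw [FreeGroup.lift_mk]
    induction L with
    | nil => rfl
    | cons x L ih =>
      rw [List.map_cons, List.prod_cons, List.map_cons, List.prod_cons, Units.val_mul, ih]
      obtain ⟨i, b⟩ := x
      cases b <;> rfl
  -- local unipotency on all vectors
  have hall : ∀ A : Module.End k (ℕ →₀ k),
      (∀ j : ℕ, ∃ n : ℕ, ((A - 1) ^ n) (Finsupp.single j 1) = 0) →
      ∀ v, ∃ n : ℕ, ((A - 1) ^ n) v = 0 := by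
    intro A hA v
    induction v using Finsupp.induction_linear with
    | zero => exact ⟨0, by simp⟩
    | add x y hx hy =>
      obtain ⟨n, hn⟩ := hx
      obtain ⟨m, hm⟩ := hy
      refine ⟨n + m, ?_⟩
      rw [map_add]
      have h1 : ((A - 1) ^ (n + m)) x = 0 := by
        rw [add_comm, pow_add, Module.End.mul_apply, hn, map_zero]
      have h2 : ((A - 1) ^ (n + m)) y = 0 := by
        rw [pow_add, Module.End.mul_apply, hm, map_zero]
      rw [h1, h2, add_zero]
    | single j c =>
      obtain ⟨n, hn⟩ := hA j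
      refine ⟨n, ?_⟩
      have : Finsupp.single j c = c • Finsupp.single j (1 : k) := by simp
      rw [this, map_smul, hn, smul_zero]
  have hcyc : ∀ L : List Lt, FreeGroup.IsCyclicallyReduced L →
      ∀ v, ∃ n : ℕ, ((ρ (FreeGroup.mk L) - 1) ^ n) v = 0 := by
    intro L hL
    rcases Nat.eq_zero_or_pos L.length with h0 | h0
    · intro v
      have : L = [] := List.length_eq_zero_iff.mp h0
      subst this
      refine ⟨1, ?_⟩
      rw [hρ]
      simp
    · apply hall
      rw [hρ]
      have hlt : ∀ t : ℤ, L.length - 1 - (t % (L.length : ℤ)).toNat < L.length := fun t => by omega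
      let l : ℤ → Lt := fun t => L[L.length - 1 - (t % (L.length : ℤ)).toNat]'(hlt t)
      have h1 : prodT T l L.length = (L.map T).prod := by
        apply prodT_eq
        intro t ht
        have : ((t : ℤ) % (L.length : ℤ)).toNat = t := by
          rw [Int.emod_eq_of_lt (by omega) (by exact_mod_cast ht)]
          simp
        simp only [l, this]
      rw [← h1]
      apply huni l L.length h0
      · intro t heq
        obtain ⟨hr, hc⟩ := hL
        have hq : (0 : ℤ) < L.length := by exact_mod_cast h0
        have h2 := Int.emod_nonneg t (ne_of_gt hq)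
        have h3 := Int.emod_lt_of_pos t hq
        by_cases hlast : t % (L.length : ℤ) = L.length - 1
        · have h4 : (t + 1) % (L.length : ℤ) = 0 := by
            rw [Int.add_emod, hlast]
            rcases eq_or_ne (L.length : ℤ) 1 with h5 | h5
            · rw [h5]; simp
            · rw [Int.emod_eq_of_lt (a := 1) (by omega) (by omega)]
              simp
          have e1 : l (t + 1) = L[L.length - 1] := by
            simp only [l, h4]; simp
          have e2 : l t = L[0] := by
            simp only [l, hlast]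
            congr 1
            omega
          rw [e1, e2] at heq
          have h6 := hc L[L.length - 1] (by
            rw [Option.mem_def, List.getLast?_eq_getElem?]
            exact List.getElem?_eq_getElem (by omega)) L[0] (by
            rw [Option.mem_def, List.head?_eq_getElem?]
            exact List.getElem?_eq_getElem (by omega))
          rw [heq] at h6
          have h7 := h6 rfl
          simp [inv] at h7
        · have h4 : (t + 1) % (L.length : ℤ) = t % (L.length : ℤ) + 1 := by
            rw [Int.add_emod]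
            rcases eq_or_ne (L.length : ℤ) 1 with h5 | h5
            · exfalso; omega
            · rw [Int.emod_eq_of_lt (a := 1) (by omega) (by omega)]
              rw [Int.emod_eq_of_lt (by omega) (by omega)]
          obtain ⟨s, hs⟩ : ∃ s : ℕ, (s : ℤ) = t % (L.length : ℤ) :=
            ⟨(t % (L.length : ℤ)).toNat, by omega⟩
          have hs2 : s + 1 < L.length := by omega
          have e1 : l (t + 1) = L[L.length - 1 - (s + 1)] := by
            simp only [l, h4, ← hs]
            congr 1
          have e2 : l t = L[L.length - 1 - (s + 1) + 1] := by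
            simp only [l, ← hs]
            congr 1
            simp only [Int.toNat_natCast]
            omega
          rw [e1, e2] at heq
          have h6 := List.isChain_iff_getElem.mp hr (L.length - 1 - (s + 1)) (by omega)
          rw [heq] at h6
          have h7 := h6 rfl
          simp [inv] at h7
      · intro t
        simp only [l, Int.add_emod_right]
  have hconj : ∀ (h c : FreeGroup (Fin 2)), (∀ v, ∃ n : ℕ, ((ρ c - 1) ^ n) v = 0) →
      ∀ v, ∃ n : ℕ, ((ρ (h * c * h⁻¹) - 1) ^ n) v = 0 := by
    intro h c hc v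
    obtain ⟨n, hn⟩ := hc (ρ h⁻¹ v)
    refine ⟨n, ?_⟩
    have h1 : ρ h * ρ h⁻¹ = 1 := by rw [← map_mul, mul_inv_cancel, map_one]
    have h2 : ρ h⁻¹ * ρ h = 1 := by rw [← map_mul, inv_mul_cancel, map_one]
    have h0 : ∀ A B C : Module.End k (ℕ →₀ k), A * C = 1 → A * B * C - 1 = A * (B - 1) * C := by
      intro A B C h
      exact conj_sub A B C h
    have h3 : ρ (h * c * h⁻¹) - 1 = ρ h * (ρ c - 1) * ρ h⁻¹ := by
      rw [map_mul, map_mul]
      exact h0 _ _ _ h1
    have h4 : ∀ n : ℕ, (ρ h * (ρ c - 1) * ρ h⁻¹) ^ n = ρ h * (ρ c - 1) ^ n * ρ h⁻¹ := by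
      intro n
      induction n with
      | zero => simp [h1]
      | succ n ih =>
        rw [pow_succ, ih, pow_succ]
        calc ρ h * (ρ c - 1) ^ n * ρ h⁻¹ * (ρ h * (ρ c - 1) * ρ h⁻¹)
            = ρ h * (ρ c - 1) ^ n * (ρ h⁻¹ * ρ h) * (ρ c - 1) * ρ h⁻¹ := by
              simp only [mul_assoc]
          _ = ρ h * ((ρ c - 1) ^ n * (ρ c - 1)) * ρ h⁻¹ := by
              rw [h2, mul_one]; simp only [mul_assoc]
    rw [h3, h4, Module.End.mul_apply, Module.End.mul_apply, hn, map_zero]
  have hfin : ∀ g, ∀ v, ∃ n : ℕ, ((ρ g - 1) ^ n) v = 0 := by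
    intro g
    have h1 := FreeGroup.reduceCyclically.conj_conjugator_reduceCyclically g.toWord
    have h2 := FreeGroup.reduceCyclically.isCyclicallyReduced (L := g.toWord)
      FreeGroup.isReduced_toWord
    have h3 : g = FreeGroup.mk (FreeGroup.reduceCyclically.conjugator g.toWord) *
        FreeGroup.mk (FreeGroup.reduceCyclically g.toWord) *
        (FreeGroup.mk (FreeGroup.reduceCyclically.conjugator g.toWord))⁻¹ := by
      rw [FreeGroup.inv_mk, FreeGroup.mul_mk, FreeGroup.mul_mk, h1, FreeGroup.mk_toWord]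
    rw [h3]
    exact hconj _ _ (hcyc _ h2)
  refine simple_quot ρ (Finsupp.single 0 1) ?_ (FreeGroup.of 0) (FreeGroup.of 1) ?_ hfin
  · intro h
    have := DFunLike.congr_fun h 0
    simp at this
  · have e0 : ρ (FreeGroup.of 0) = T (0, true) := by
      change ((FreeGroup.lift U (FreeGroup.of 0) : (Module.End k (ℕ →₀ k))ˣ) :
        Module.End k (ℕ →₀ k)) = _
      rw [FreeGroup.lift_apply_of]
    have e1 : ρ (FreeGroup.of 1) = T (1, true) := by
      change ((FreeGroup.lift U (FreeGroup.of 1) : (Module.End k (ℕ →₀ k))ˣ) :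
        Module.End k (ℕ →₀ k)) = _
      rw [FreeGroup.lift_apply_of]
    rw [e0, e1]
    exact hxy

end

end Pool.Agent.Helper684
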