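import Mathlib

set_option autoImplicit false

namespace Pool.Agent.Helper684

/-! General facts about paths in families of linear relations. -/

section general

variable {k : Type} [Field k] {V : Type} [AddCommGroup V] [Module k V]

/-- an infinite forward path from `y` at time `j` -/
def Fwd (R : ℤ → Submodule k (V × V)) (j : ℤ) (y : V) : Prop :=
  ∃ u : ℕ → V, u 0 = y ∧ ∀ t : ℕ, (u t, u (t + 1)) ∈ R (j + t)

/-- a forward path of `K` steps from `y` at time `j` -/
def FwdK (R : ℤ → Submodule k (V × V)) (j : ℤ) (K : ℕ) (y : V) : Prop :=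
  ∃ u : ℕ → V, u 0 = y ∧ ∀ t : ℕ, t < K → (u t, u (t + 1)) ∈ R (j + t)

def Functional (R : ℤ → Submodule k (V × V)) : Prop := ∀ j y, ((0 : V), y) ∈ R j → y = 0

def CoFunctional (R : ℤ → Submodule k (V × V)) : Prop := ∀ j x, (x, (0 : V)) ∈ R j → x = 0

theorem Functional.eq {R : ℤ → Submodule k (V × V)} (h : Functional R) {j : ℤ} {x y y' : V}
    (h1 : (x, y) ∈ R j) (h2 : (x, y') ∈ R j) : y = y' := by
  have := (R j).sub_mem h1 h2
  simp only [Prod.mk_sub_mk, sub_self] at this
  exact sub_eq_zero.1 (h j _ this)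

theorem CoFunctional.eq {R : ℤ → Submodule k (V × V)} (h : CoFunctional R) {j : ℤ} {x x' y : V}
    (h1 : (x, y) ∈ R j) (h2 : (x', y) ∈ R j) : x = x' := by
  have := (R j).sub_mem h1 h2
  simp only [Prod.mk_sub_mk, sub_self] at this
  exact sub_eq_zero.1 (h j _ this)

theorem path_unique {R : ℤ → Submodule k (V × V)} (h : Functional R) {j : ℤ} {K : ℕ}
    {u u' : ℕ → V} (h0 : u 0 = u' 0) (hu : ∀ t : ℕ, t < K → (u t, u (t + 1)) ∈ R (j + t))
    (hu' : ∀ t : ℕ, t < K → (u' t, u' (t + 1)) ∈ R (j + t)) : ∀ t, t ≤ K → u t = u' t := by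
  intro t
  induction t with
  | zero => intro _; exact h0
  | succ t ih =>
    intro ht
    have e := ih (by omega)
    have h1 := hu t (by omega)
    have h2 := hu' t (by omega)
    rw [e] at h1
    exact h.eq h1 h2

/-- gluing of longer and longer finite paths -/
theorem fwd_of_fwdK {R : ℤ → Submodule k (V × V)} (h : Functional R) {j : ℤ} {y : V}
    (hy : ∀ K, FwdK R j K y) : Fwd R j y := by
  choose u hu0 hu using hy
  refine ⟨fun t => u (t + 1) t, hu0 1, fun t => ?_⟩
  have e : u (t + 1) t = u (t + 1 + 1) t := by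
    apply path_unique h (K := t + 1) (j := j) (u := u (t + 1)) (u' := u (t + 1 + 1))
      (by rw [hu0, hu0]) (hu (t + 1)) (fun s hs => hu (t + 1 + 1) s (by omega)) t (by omega)
  show (u (t + 1) t, u (t + 1 + 1) (t + 1)) ∈ _
  rw [e]
  exact hu (t + 1 + 1) t (by omega)

theorem Fwd.fwdK {R : ℤ → Submodule k (V × V)} {j : ℤ} {y : V} (h : Fwd R j y) (K : ℕ) :
    FwdK R j K y := by
  obtain ⟨u, h0, hu⟩ := h
  exact ⟨u, h0, fun t _ => hu t⟩

theorem FwdK.mono {R : ℤ → Submodule k (V × V)} {j : ℤ} {y : V} {K K' : ℕ} (hK : K ≤ K')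
    (h : FwdK R j K' y) : FwdK R j K y := by
  obtain ⟨u, h0, hu⟩ := h
  exact ⟨u, h0, fun t ht => hu t (by omega)⟩

theorem Fwd.add {R : ℤ → Submodule k (V × V)} {j : ℤ} {y y' : V} (h : Fwd R j y)
    (h' : Fwd R j y') : Fwd R j (y + y') := by
  obtain ⟨u, h0, hu⟩ := h
  obtain ⟨u', h0', hu'⟩ := h'
  refine ⟨fun t => u t + u' t, by simp [h0, h0'], fun t => ?_⟩
  exact (R (j + t)).add_mem (hu t) (hu' t)

theorem Fwd.smul {R : ℤ → Submodule k (V × V)} {j : ℤ} {y : V} (c : k) (h : Fwd R j y) :
    Fwd R j (c • y) := by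
  obtain ⟨u, h0, hu⟩ := h
  refine ⟨fun t => c • u t, by simp [h0], fun t => ?_⟩
  exact (R (j + t)).smul_mem c (hu t)

theorem Fwd.zero (R : ℤ → Submodule k (V × V)) (j : ℤ) : Fwd R j 0 :=
  ⟨fun _ => 0, rfl, fun t => (R (j + t)).zero_mem⟩

theorem Fwd.shift {R : ℤ → Submodule k (V × V)} {j : ℤ} {u : ℕ → V}
    (hu : ∀ t : ℕ, (u t, u (t + 1)) ∈ R (j + t)) (s : ℕ) : Fwd R (j + s) (u s) := by
  refine ⟨fun t => u (s + t), rfl, fun t => ?_⟩
  have := hu (s + t)
  push_cast at this
  rw [← add_assoc] at this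
  exact this

theorem Fwd.cons {R : ℤ → Submodule k (V × V)} {j : ℤ} {x y : V} (h : (x, y) ∈ R j)
    (hy : Fwd R (j + 1) y) : Fwd R j x := by
  obtain ⟨u, h0, hu⟩ := hy
  refine ⟨fun t => Nat.casesOn t x (fun s => u s), rfl, fun t => ?_⟩
  cases t with
  | zero => simpa [h0] using h
  | succ t =>
    have := hu t
    simp only
    convert this using 2
    push_cast; ring

theorem Fwd.uncons {R : ℤ → Submodule k (V × V)} {j : ℤ} {x : V} (h : Fwd R j x) :
    ∃ y, (x, y) ∈ R j ∧ Fwd R (j + 1) y := by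
  obtain ⟨u, h0, hu⟩ := h
  refine ⟨u 1, ?_, ?_⟩
  · have := hu 0
    simpa [h0] using this
  · have := Fwd.shift hu 1
    simpa using this

def fwdKSub (R : ℤ → Submodule k (V × V)) (j : ℤ) (K : ℕ) : Submodule k V where
  carrier := {y | FwdK R j K y}
  add_mem' := by
    rintro a b ⟨u, h0, hu⟩ ⟨u', h0', hu'⟩
    exact ⟨fun t => u t + u' t, by simp [h0, h0'],
      fun t ht => (R (j + t)).add_mem (hu t ht) (hu' t ht)⟩
  zero_mem' := ⟨fun _ => 0, rfl, fun t _ => (R (j + t)).zero_mem⟩
  smul_mem' := by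
    rintro c a ⟨u, h0, hu⟩
    exact ⟨fun t => c • u t, by simp [h0], fun t ht => (R (j + t)).smul_mem c (hu t ht)⟩

theorem Fwd.congr {R : ℤ → Submodule k (V × V)} {j j' : ℤ} {y : V}
    (h : ∀ t : ℤ, R (j + t) = R (j' + t)) (hy : Fwd R j y) : Fwd R j' y := by
  obtain ⟨u, h0, hu⟩ := hy
  exact ⟨u, h0, fun t => by rw [← h]; exact hu t⟩

theorem FwdK.congr {R : ℤ → Submodule k (V × V)} {j j' : ℤ} {y : V} {K : ℕ}
    (h : ∀ t : ℤ, R (j + t) = R (j' + t)) (hy : FwdK R j K y) : FwdK R j' K y := by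
  obtain ⟨u, h0, hu⟩ := hy
  exact ⟨u, h0, fun t ht => by rw [← h]; exact hu t ht⟩

theorem periodic_mul {α : Type} {f : ℤ → α} {m : ℤ} (h : ∀ t, f (t + m) = f t) (t r : ℤ) :
    f (t + r * m) = f t := by
  induction r using Int.induction_on with
  | zero => simp
  | succ i ih => rw [add_mul, one_mul, ← add_assoc, h, ih]
  | pred i ih =>
    rw [← ih, ← h (t + (-(i : ℤ) - 1) * m)]
    congr 1; ring

theorem periodic_of_dvd {α : Type} {f : ℤ → α} {m : ℤ} (h : ∀ t, f (t + m) = f t) {t t' : ℤ}
    (hd : m ∣ t - t') : f t = f t' := by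
  obtain ⟨r, hr⟩ := hd
  have : t = t' + r * m := by linarith [mul_comm m r]
  rw [this, periodic_mul h]

/-- stabilisation: long enough paths are infinite -/
theorem stab {R : ℤ → Submodule k (V × V)} (h : Functional R) {m : ℕ} (hm : 0 < m)
    (hper : ∀ t : ℤ, R (t + m) = R t) (U : Submodule k V) [FiniteDimensional k U]
    (hU : ∀ j x y, (x, y) ∈ R j → x ∈ U) :
    ∃ K, ∀ j y, FwdK R j K y → Fwd R j y := by
  have key : ∀ j : ℤ, ∃ K, ∀ y, FwdK R j K y → Fwd R j y := by
    intro j
    let D : ℕ →o (Submodule k U)ᵒᵈ :=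
      ⟨fun K => OrderDual.toDual ((fwdKSub R j K).comap U.subtype), by
        intro K K' hK
        apply OrderDual.toDual_le_toDual.2
        intro y hy
        exact FwdK.mono hK hy⟩
    obtain ⟨n, hn⟩ := IsArtinian.monotone_stabilizes D
    refine ⟨n + 1, fun y hy => ?_⟩
    have hyU : y ∈ U := by
      obtain ⟨u, h0, hu⟩ := hy
      have := hU _ _ _ (hu 0 (by omega))
      rwa [h0] at this
    apply fwd_of_fwdK h
    intro K
    by_cases hK : K ≤ n
    · exact hy.mono (by omega)
    · have e : D n = D K := hn K (by omega)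
      have h1 : (⟨y, hyU⟩ : U) ∈ (fwdKSub R j n).comap U.subtype := hy.mono (by omega)
      have h2 : (⟨y, hyU⟩ : U) ∈ (fwdKSub R j K).comap U.subtype := by
        have : (fwdKSub R j n).comap U.subtype = (fwdKSub R j K).comap U.subtype := e
        rw [← this]; exact h1
      exact h2
  choose K hK using key
  refine ⟨(Finset.range m).sup (fun i => K i), fun j y hy => ?_⟩
  have hmz : (0 : ℤ) < m := by exact_mod_cast hm
  set i := (j % m).toNat with hi
  have hi0 : 0 ≤ j % m := Int.emod_nonneg _ (by omega)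
  have him : j % m < m := Int.emod_lt_of_pos _ hmz
  have hii : (i : ℤ) = j % m := Int.toNat_of_nonneg hi0
  have hilt : i < m := by omega
  have hcong : ∀ t : ℤ, R (j + t) = R ((i : ℤ) + t) := by
    intro t
    apply periodic_of_dvd (f := R) hper
    rw [hii]
    have := Int.emod_emod_of_dvd j (dvd_refl (m : ℤ))
    exact ⟨j / m, by linarith [Int.emod_add_mul_ediv j m]⟩
  have h1 : FwdK R i ((Finset.range m).sup (fun i => K i)) y := hy.congr hcong
  have h2 : FwdK R i (K i) y := h1.mono (Finset.le_sup (f := fun i : ℕ => K i)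
    (Finset.mem_range.2 hilt))
  exact (hK i y h2).congr (fun t => (hcong t).symm)

/-- space of forward paths -/
def FwdSpace (R : ℤ → Submodule k (V × V)) (j : ℤ) : Submodule k (ℕ → V) where
  carrier := {u | ∀ t : ℕ, (u t, u (t + 1)) ∈ R (j + t)}
  add_mem' := by
    intro a b ha hb t
    exact (R (j + t)).add_mem (ha t) (hb t)
  zero_mem' := fun t => (R (j + t)).zero_mem
  smul_mem' := by
    intro c a ha t
    exact (R (j + t)).smul_mem c (ha t)

theorem FwdSpace.finiteDimensional {R : ℤ → Submodule k (V × V)} (h : Functional R)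
    (U : Submodule k V) [FiniteDimensional k U]
    (hU : ∀ j x y, (x, y) ∈ R j → x ∈ U) (j : ℤ) : FiniteDimensional k (FwdSpace R j) := by
  let f : FwdSpace R j →ₗ[k] U :=
    { toFun := fun u => ⟨u.1 0, hU _ _ _ (u.2 0)⟩
      map_add' := fun a b => rfl
      map_smul' := fun c a => rfl }
  apply FiniteDimensional.of_injective f
  rw [injective_iff_map_eq_zero]
  intro u hu
  have h0 : u.1 0 = 0 := congrArg Subtype.val hu
  have : ∀ t, u.1 t = 0 := by
    intro t
    induction t with
    | zero => exact h0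
    | succ t ih =>
      have := u.2 t
      rw [ih] at this
      exact h _ _ this
  exact Subtype.ext (funext this)

theorem bi {R : ℤ → Submodule k (V × V)} (h : Functional R) (h' : CoFunctional R)
    {m : ℕ} (hm : 0 < m) (hper : ∀ t : ℤ, R (t + m) = R t) (U : Submodule k V)
    [FiniteDimensional k U] (hU : ∀ j x y, (x, y) ∈ R j → x ∈ U) {j : ℤ} {y : V}
    (hy : Fwd R j y) : ∃ τ : ℤ → V, (∀ t, (τ t, τ (t + 1)) ∈ R t) ∧ τ j = y := by
  have := FwdSpace.finiteDimensional h U hU j
  have hmem : ∀ u ∈ FwdSpace R j, (fun t => u (t + m)) ∈ FwdSpace R j := by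
    intro u hu t
    have := hu (t + m)
    have e : (j + ((t + m : ℕ) : ℤ)) = (j + t) + m := by push_cast; ring
    rw [e, hper] at this
    have e2 : t + m + 1 = t + 1 + m := by ring
    rw [e2] at this
    exact this
  let sh : FwdSpace R j →ₗ[k] FwdSpace R j :=
    { toFun := fun u => ⟨fun t => u.1 (t + m), hmem u.1 u.2⟩
      map_add' := fun a b => rfl
      map_smul' := fun c a => rfl }
  have hinj : Function.Injective sh := by
    rw [injective_iff_map_eq_zero]
    intro u hu
    have h0 : ∀ t, u.1 (t + m) = 0 := fun t => congrFun (congrArg Subtype.val hu) t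
    have h1 : ∀ s, s ≤ m → u.1 (m - s) = 0 := by
      intro s
      induction s with
      | zero => intro _; simpa using h0 0
      | succ s ih =>
        intro hs
        have := u.2 (m - (s + 1))
        have e : m - (s + 1) + 1 = m - s := by omega
        rw [e, ih (by omega)] at this
        exact h' _ _ this
    have h2 : ∀ t, u.1 t = 0 := by
      intro t
      by_cases ht : t ≤ m
      · have := h1 (m - t) (by omega)
        have e : m - (m - t) = t := by omega
        rwa [e] at this
      · have := h0 (t - m)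
        have e : t - m + m = t := by omega
        rwa [e] at this
    exact Subtype.ext (funext h2)
  have hsurj : Function.Surjective sh := LinearMap.injective_iff_surjective.1 hinj
  obtain ⟨u, hu0, hu⟩ := hy
  choose pre hpre using hsurj
  let F : ℕ → FwdSpace R j := fun r => Nat.rec ⟨u, hu⟩ (fun _ w => pre w) r
  have hF0 : F 0 = ⟨u, hu⟩ := rfl
  have hFs : ∀ r t, (F (r + 1)).1 (t + m) = (F r).1 t := by
    intro r t
    have : sh (F (r + 1)) = F r := hpre (F r)
    exact congrFun (congrArg Subtype.val this) t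
  have hFs' : ∀ e r t, (F (r + e)).1 (t + e * m) = (F r).1 t := by
    intro e
    induction e with
    | zero => intro r t; simp
    | succ e ih =>
      intro r t
      have e1 : t + (e + 1) * m = (t + e * m) + m := by ring
      rw [e1, ← add_assoc, hFs, ih]
  have hmz : (1 : ℤ) ≤ m := by exact_mod_cast hm
  let τ : ℤ → V := fun t => (F (j - t).toNat).1 (t - j + (j - t).toNat * m).toNat
  have hτ : ∀ t (r : ℕ), (j - t) ≤ r → τ t = (F r).1 (t - j + r * m).toNat := by
    intro t r hr
    have h1 : (j - t).toNat ≤ r := by omega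
    obtain ⟨e, he⟩ := Nat.exists_eq_add_of_le h1
    have h2 := hFs' e (j - t).toNat (t - j + (j - t).toNat * m).toNat
    have h3 : τ t = (F (j - t).toNat).1 (t - j + (j - t).toNat * m).toNat := rfl
    have e1 : (t - j + (j - t).toNat * m).toNat + e * m
        = (t - j + (((j - t).toNat + e : ℕ) : ℤ) * m).toNat := by
      have hA : (j - t) ≤ (j - t).toNat := Int.self_le_toNat _
      generalize (j - t).toNat = A at hA
      have h4 : (0 : ℤ) ≤ A := by positivity
      have hnn : 0 ≤ t - j + A * m := by nlinarith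
      have h5 : ((A + e : ℕ) : ℤ) * m = A * m + ((e * m : ℕ) : ℤ) := by push_cast; ring
      rw [h5]
      generalize (A : ℤ) * m = P at hnn
      generalize e * m = Q
      omega
    rw [he, h3, ← h2, e1]
  refine ⟨τ, fun t => ?_, ?_⟩
  · have h1 := hτ t (j - t).toNat (Int.self_le_toNat _)
    have h2 := hτ (t + 1) (j - t).toNat (by have := Int.self_le_toNat (j - t); omega)
    have hnn : 0 ≤ t - j + (j - t).toNat * m := by
      have h3 : (j - t) ≤ (j - t).toNat := Int.self_le_toNat _
      have h4 : (0 : ℤ) ≤ (j - t).toNat := by positivity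
      nlinarith
    have e : (t + 1 - j + (j - t).toNat * m).toNat = (t - j + (j - t).toNat * m).toNat + 1 := by
      omega
    rw [h1, h2, e]
    have h3 := (F (j - t).toNat).2 (t - j + (j - t).toNat * m).toNat
    have e2 : (j + ((t - j + (j - t).toNat * m).toNat : ℤ)) = t + (j - t).toNat * m := by
      rw [Int.toNat_of_nonneg hnn]; ring
    rw [e2, periodic_mul (f := R) hper] at h3
    exact h3
  · have h1 := hτ j 0 (by simp)
    rw [h1]
    simp [hF0, hu0]

theorem unip_of_eig [IsAlgClosed k] {Z : Type} [AddCommGroup Z] [Module k Z]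
    [FiniteDimensional k Z] (f : Module.End k Z)
    (h : ∀ μ : k, μ ≠ 1 → ∀ v, f v = μ • v → v = 0) : ∃ M, (f - 1) ^ M = 0 := by
  have hinj : ∀ μ : k, μ ≠ 1 → ∀ (n : ℕ) v, ((f - μ • (1 : Module.End k Z)) ^ n) v = 0 → v = 0 := by
    intro μ hμ n
    induction n with
    | zero => intro v hv; simpa using hv
    | succ n ih =>
      intro v hv
      rw [pow_succ, Module.End.mul_apply] at hv
      have := ih _ hv
      apply h μ hμ
      simpa [sub_eq_zero] using this
  have htop := Module.End.iSup_maxGenEigenspace_eq_top f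
  have h1 : f.maxGenEigenspace 1 = ⊤ := by
    rw [eq_top_iff, ← htop]
    apply iSup_le
    intro μ
    by_cases hμ : μ = 1
    · rw [hμ]
    · intro v hv
      rw [Module.End.mem_maxGenEigenspace] at hv
      obtain ⟨n, hn⟩ := hv
      rw [hinj μ hμ n v hn]
      exact Submodule.zero_mem _
  rw [Module.End.maxGenEigenspace_eq_genEigenspace_finrank] at h1
  refine ⟨Module.finrank k Z, LinearMap.ext fun v => ?_⟩
  have : v ∈ (f.genEigenspace 1) (Module.finrank k Z) := by rw [h1]; trivial
  rw [Module.End.mem_genEigenspace_nat] at this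
  simpa using this

/-- shift operator on sequences -/
def Sh (q : ℤ) : Module.End k (ℤ → V) := LinearMap.funLeft k V (fun t => t + q)

theorem Sh_apply (q : ℤ) (w : ℤ → V) (t : ℤ) : (Sh q : Module.End k (ℤ → V)) w t = w (t + q) := rfl

theorem Sh_pow (q : ℤ) (r : ℕ) : (Sh q : Module.End k (ℤ → V)) ^ r = Sh (r * q) := by
  induction r with
  | zero => ext w t; simp [Sh_apply]
  | succ r ih =>
    rw [pow_succ, ih]
    apply LinearMap.ext
    intro w
    funext t
    rw [Module.End.mul_apply, Sh_apply, Sh_apply, Sh_apply]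
    congr 1
    push_cast; ring

theorem Sh_nilp_mono {q : ℤ} {M M' : ℕ} (hM : M ≤ M') {w : ℤ → V}
    (h : (((Sh q : Module.End k (ℤ → V)) - 1) ^ M) w = 0) :
    (((Sh q : Module.End k (ℤ → V)) - 1) ^ M') w = 0 := by
  obtain ⟨e, rfl⟩ := Nat.exists_eq_add_of_le' hM
  rw [pow_add, Module.End.mul_apply, h, map_zero]

theorem Sh_nilp_mul {q : ℤ} {M : ℕ} (r : ℕ) {w : ℤ → V}
    (h : (((Sh q : Module.End k (ℤ → V)) - 1) ^ M) w = 0) :
    (((Sh (r * q) : Module.End k (ℤ → V)) - 1) ^ M) w = 0 := by
  rw [← Sh_pow]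
  set A : Module.End k (ℤ → V) := Sh q with hA
  have h2 : A ^ r - 1 = (∑ i ∈ Finset.range r, A ^ i) * (A - 1) := by
    rw [geom_sum_mul]
  have hc : Commute (∑ i ∈ Finset.range r, A ^ i) (A - 1) := by
    apply Commute.sum_left
    intro i _
    exact ((Commute.refl A).pow_left i).sub_right (Commute.one_right _)
  rw [h2, hc.mul_pow, Module.End.mul_apply, h, map_zero]

theorem nilp_of_eig [IsAlgClosed k] {R : ℤ → Submodule k (V × V)} (h : Functional R)
    (h' : CoFunctional R) {m : ℕ} (hper : ∀ t : ℤ, R (t + m) = R t) (U : Submodule k V)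
    [FiniteDimensional k U] (hU : ∀ j x y, (x, y) ∈ R j → x ∈ U)
    (hI : ∀ w : ℤ → V, (∀ t, (w t, w (t + 1)) ∈ R t) → ∀ μ : k, (∀ t, w (t + m) = μ • w t) →
      μ ≠ 1 → w 0 = 0) :
    ∃ M : ℕ, ∀ τ : ℤ → V, (∀ t, (τ t, τ (t + 1)) ∈ R t) →
      (((Sh m : Module.End k (ℤ → V)) - 1) ^ M) τ = 0 := by
  let Z : Submodule k (ℤ → V) :=
    { carrier := {u | ∀ t : ℤ, (u t, u (t + 1)) ∈ R t}
      add_mem' := by
        intro a b ha hb t
        exact (R t).add_mem (ha t) (hb t)
      zero_mem' := fun t => (R t).zero_mem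
      smul_mem' := by
        intro c a ha t
        exact (R t).smul_mem c (ha t) }
  have hzero : ∀ u ∈ Z, u 0 = 0 → u = 0 := by
    intro u hu h0
    funext t
    induction t using Int.induction_on with
    | zero => exact h0
    | succ i ih =>
      have := hu i
      rw [ih] at this
      exact h _ _ this
    | pred i ih =>
      have := hu (-(i : ℤ) - 1)
      rw [sub_add_cancel, ih] at this
      exact h' _ _ this
  have hfd : FiniteDimensional k Z := by
    let f : Z →ₗ[k] U :=
      { toFun := fun u => ⟨u.1 0, hU _ _ _ (u.2 0)⟩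
        map_add' := fun a b => rfl
        map_smul' := fun c a => rfl }
    apply FiniteDimensional.of_injective f
    rw [injective_iff_map_eq_zero]
    intro u hu
    exact Subtype.ext (hzero u.1 u.2 (congrArg Subtype.val hu))
  have hmem : ∀ u ∈ Z, (Sh m : Module.End k (ℤ → V)) u ∈ Z := by
    intro u hu t
    have := hu (t + m)
    rw [hper] at this
    rw [Sh_apply, Sh_apply]
    have e : t + 1 + (m : ℤ) = t + m + 1 := by ring
    rw [e]; exact this
  let E : Module.End k Z := (Sh m : Module.End k (ℤ → V)).restrict hmem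
  obtain ⟨M, hM⟩ := unip_of_eig E (by
    intro μ hμ v hv
    apply Subtype.ext
    apply hzero v.1 v.2
    apply hI v.1 v.2 μ _ hμ
    intro t
    exact congrFun (congrArg Subtype.val hv) t)
  refine ⟨M, fun τ hτ => ?_⟩
  have h1 : ∀ n : ℕ, ∀ z : Z, (((E - 1) ^ n) z).1 = (((Sh m : Module.End k (ℤ → V)) - 1) ^ n) z.1 := by
    intro n
    induction n with
    | zero => intro z; rfl
    | succ n ih =>
      intro z
      rw [pow_succ, pow_succ, Module.End.mul_apply, Module.End.mul_apply, ih]
      rfl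
  have h2 := h1 M ⟨τ, hτ⟩
  rw [hM] at h2
  exact h2.symm

end general

end Pool.Agent.Helper684
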