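import Pool.Agent.Helper684.Seq

set_option autoImplicit false

namespace Pool.Agent.Helper684

/-! Letters, stages, adding one new vector. -/

noncomputable section

abbrev Lt := Fin 2 × Bool

/-- inverse letter -/
def inv (l : Lt) : Lt := (l.1, !l.2)

@[simp] theorem inv_inv (l : Lt) : inv (inv l) = l := by
  simp [inv]

theorem inv_ne (l : Lt) : inv l ≠ l := by
  intro h
  have := congrArg Prod.snd h
  simp [inv] at this

theorem eq_inv_comm {l l' : Lt} : l = inv l' ↔ l' = inv l := by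
  constructor
  · intro h; rw [h, inv_inv]
  · intro h; rw [h, inv_inv]

theorem inv_inj {l l' : Lt} (h : inv l = inv l') : l = l' := by
  have := congrArg inv h
  simpa using this

theorem agree_all {α : Type} {f g : ℤ → α} {m : ℕ} (hm : 0 < m) (hf : ∀ t, f (t + m) = f t)
    (hg : ∀ t, g (t + m) = g t) {c : ℤ} (h : ∀ r : ℕ, r < m → f (c + r) = g (c + r)) :
    ∀ t, f t = g t := by
  intro t
  have hmz : (0 : ℤ) < m := by exact_mod_cast hm
  have h0 : 0 ≤ (t - c) % m := Int.emod_nonneg _ (by omega)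
  have h1 : (t - c) % m < m := Int.emod_lt_of_pos _ hmz
  have h2 : (((t - c) % m).toNat : ℤ) = (t - c) % m := Int.toNat_of_nonneg h0
  have hd : (m : ℤ) ∣ t - (c + ((t - c) % m).toNat) := by
    rw [h2]
    exact ⟨(t - c) / m, by linarith [Int.emod_add_mul_ediv (t - c) m]⟩
  rw [periodic_of_dvd hf hd, periodic_of_dvd hg hd]
  exact h _ (by omega)

/-- parity: a reduced bi-infinite word is not a translate of its inverse -/
theorem parity {l : ℤ → Lt} (red : ∀ t, l (t + 1) ≠ inv (l t)) {d : ℤ}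
    (h : ∀ t, l t = inv (l (d - t))) : False := by
  rcases Int.even_or_odd' d with ⟨r, hr | hr⟩
  · have := h r
    have e : d - r = r := by omega
    rw [e] at this
    exact inv_ne _ this.symm
  · have := h r
    have e : d - r = r + 1 := by omega
    rw [e] at this
    exact red r (eq_inv_comm.1 this)

theorem parity_m {l : ℤ → Lt} (red : ∀ t, l (t + 1) ≠ inv (l t)) {m : ℕ} (hm : 0 < m)
    (per : ∀ t, l (t + m) = l t) {c d : ℤ}
    (h : ∀ r : ℕ, r < m → l (c + r) = inv (l (d - r))) : False := by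
  apply parity red (d := c + d)
  apply agree_all hm per (c := c)
  · intro t
    have : c + d - t = (c + d - (t + m)) + m := by ring
    rw [this, per]
  · intro r hr
    rw [h r hr]
    congr 2
    ring

section

variable {k : Type} [Field k]

def VN (k : Type) [Field k] (N : ℕ) : Submodule k (ℕ →₀ k) := Finsupp.supported k k {i | i < N}

theorem mem_VN {N : ℕ} {x : ℕ →₀ k} : x ∈ VN k N ↔ ∀ i, N ≤ i → x i = 0 := by
  rw [VN, Finsupp.mem_supported']
  constructor
  · intro h i hi
    exact h i (by simpa using hi)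
  · intro h i hi
    exact h i (by simpa using hi)

theorem VN_mono {N N' : ℕ} (h : N ≤ N') : VN k N ≤ VN k N' := by
  intro x hx
  rw [mem_VN] at *
  intro i hi
  exact hx i (by omega)

instance (N : ℕ) : FiniteDimensional k (VN k N) := by
  have : Finite ({i | i < N} : Set ℕ) := Set.finite_lt_nat N
  exact Module.Finite.equiv (Finsupp.supportedEquivFinsupp (R := k) (M := k)
    ({i | i < N} : Set ℕ)).symm

theorem single_mem_VN {N i : ℕ} (h : i < N) (c : k) : Finsupp.single i c ∈ VN k N := by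
  rw [mem_VN]
  intro j hj
  rw [Finsupp.single_apply, if_neg (by omega)]

/-- finite dimensional injective linear relations, one for each letter -/
structure Stage (k : Type) [Field k] where
  N : ℕ
  Γ : Lt → Submodule k ((ℕ →₀ k) × (ℕ →₀ k))
  sym : ∀ l x y, (x, y) ∈ Γ l → (y, x) ∈ Γ (inv l)
  bd : ∀ l x y, (x, y) ∈ Γ l → x ∈ VN k N
  fn : ∀ l y, ((0 : ℕ →₀ k), y) ∈ Γ l → y = 0

theorem Stage.bd' (S : Stage k) {l : Lt} {x y : ℕ →₀ k} (h : (x, y) ∈ S.Γ l) : y ∈ VN k S.N :=
  S.bd _ _ _ (S.sym _ _ _ h)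

theorem Stage.sym' (S : Stage k) {l : Lt} {x y : ℕ →₀ k} (h : (x, y) ∈ S.Γ (inv l)) :
    (y, x) ∈ S.Γ l := by
  have := S.sym _ _ _ h
  rwa [inv_inv] at this

theorem Stage.fn' (S : Stage k) {l : Lt} {x : ℕ →₀ k} (h : (x, (0 : ℕ →₀ k)) ∈ S.Γ l) : x = 0 :=
  S.fn _ _ (S.sym _ _ _ h)

/-- the key invariant: quasi-periodic reduced paths have multiplier one -/
def Good (Γ : Lt → Submodule k ((ℕ →₀ k) × (ℕ →₀ k))) : Prop :=
  ∀ (l : ℤ → Lt) (w : ℤ → (ℕ →₀ k)) (q : ℕ) (μ : k), 0 < q → (∀ t, l (t + 1) ≠ inv (l t)) →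
    (∀ t, l (t + q) = l t) → (∀ t, (w t, w (t + 1)) ∈ Γ (l t)) → (∀ t, w (t + q) = μ • w t) →
    μ ≠ 1 → w 0 = 0

/-- order on stages -/
def Stage.Le (S S' : Stage k) : Prop := S.N ≤ S'.N ∧ ∀ l, S.Γ l ≤ S'.Γ l

theorem Stage.Le.refl (S : Stage k) : S.Le S := ⟨le_refl _, fun _ => le_refl _⟩

theorem Stage.Le.trans {S S' S'' : Stage k} (h : S.Le S') (h' : S'.Le S'') : S.Le S'' :=
  ⟨h.1.trans h'.1, fun l => (h.2 l).trans (h'.2 l)⟩

/-- the family of relations along a sequence of letters -/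
theorem Stage.functional (S : Stage k) (l : ℤ → Lt) : Functional (fun t => S.Γ (l t)) :=
  fun _ _ h => S.fn _ _ h

theorem Stage.cofunctional (S : Stage k) (l : ℤ → Lt) : CoFunctional (fun t => S.Γ (l t)) :=
  fun _ _ h => S.fn' h

/-- enlarge the ambient bound -/
def Stage.raise (S : Stage k) (N' : ℕ) (h : S.N ≤ N') : Stage k where
  N := N'
  Γ := S.Γ
  sym := S.sym
  bd := fun l x y hxy => VN_mono h (S.bd l x y hxy)
  fn := S.fn

theorem Stage.raise_le (S : Stage k) (N' : ℕ) (h : S.N ≤ N') : S.Le (S.raise N' h) :=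
  ⟨h, fun _ => le_refl _⟩

/-- add the new vector `e_N = u . l0` -/
def addΓ (S : Stage k) (l0 : Lt) (u : ℕ →₀ k) (l : Lt) : Submodule k ((ℕ →₀ k) × (ℕ →₀ k)) :=
  if l = l0 then S.Γ l ⊔ Submodule.span k {(u, Finsupp.single S.N 1)}
  else if l = inv l0 then S.Γ l ⊔ Submodule.span k {(Finsupp.single S.N 1, u)}
  else S.Γ l

theorem mem_addΓ_self {S : Stage k} {l0 : Lt} {u x y : ℕ →₀ k} :
    (x, y) ∈ addΓ S l0 u l0 ↔ ∃ c : k, (x - c • u, y - c • Finsupp.single S.N 1) ∈ S.Γ l0 := by
  rw [addΓ, if_pos rfl, Submodule.mem_sup]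
  constructor
  · rintro ⟨z, hz, z', hz', e⟩
    rw [Submodule.mem_span_singleton] at hz'
    obtain ⟨c, rfl⟩ := hz'
    refine ⟨c, ?_⟩
    have : z = (x - c • u, y - c • Finsupp.single S.N 1) := by
      rw [eq_sub_of_add_eq e]; rfl
    rwa [← this]
  · rintro ⟨c, hc⟩
    refine ⟨_, hc, c • (u, Finsupp.single S.N 1), Submodule.smul_mem _ _
      (Submodule.mem_span_singleton_self _), ?_⟩
    ext1 <;> simp

theorem mem_addΓ_inv {S : Stage k} {l0 : Lt} {u x y : ℕ →₀ k} :
    (x, y) ∈ addΓ S l0 u (inv l0) ↔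
      ∃ c : k, (x - c • Finsupp.single S.N 1, y - c • u) ∈ S.Γ (inv l0) := by
  rw [addΓ, if_neg (inv_ne l0), if_pos rfl, Submodule.mem_sup]
  constructor
  · rintro ⟨z, hz, z', hz', e⟩
    rw [Submodule.mem_span_singleton] at hz'
    obtain ⟨c, rfl⟩ := hz'
    refine ⟨c, ?_⟩
    have : z = (x - c • Finsupp.single S.N 1, y - c • u) := by
      rw [eq_sub_of_add_eq e]; rfl
    rwa [← this]
  · rintro ⟨c, hc⟩
    refine ⟨_, hc, c • (Finsupp.single S.N 1, u), Submodule.smul_mem _ _
      (Submodule.mem_span_singleton_self _), ?_⟩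
    ext1 <;> simp

theorem mem_addΓ_other {S : Stage k} {l0 l : Lt} {u : ℕ →₀ k} (h1 : l ≠ l0) (h2 : l ≠ inv l0) :
    addΓ S l0 u l = S.Γ l := by
  rw [addΓ, if_neg h1, if_neg h2]

theorem addΓ_inv_iff {S : Stage k} {l0 : Lt} {u x y : ℕ →₀ k} :
    (x, y) ∈ addΓ S l0 u (inv l0) ↔ (y, x) ∈ addΓ S l0 u l0 := by
  rw [mem_addΓ_inv, mem_addΓ_self]
  constructor
  · rintro ⟨c, hc⟩; exact ⟨c, S.sym' hc⟩
  · rintro ⟨c, hc⟩; exact ⟨c, S.sym _ _ _ hc⟩

/-- the stage with one more vector -/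
def Stage.add (S : Stage k) (l0 : Lt) (u : ℕ →₀ k) (hu : u ∈ VN k S.N)
    (hd : ∀ y, (u, y) ∉ S.Γ l0) : Stage k where
  N := S.N + 1
  Γ := addΓ S l0 u
  sym := by
    intro l x y h
    by_cases h1 : l = l0
    · subst h1
      rw [addΓ_inv_iff]; exact h
    · by_cases h2 : l = inv l0
      · subst h2
        rw [inv_inv]
        exact addΓ_inv_iff.1 h
      · rw [mem_addΓ_other h1 h2] at h
        rw [mem_addΓ_other]
        · exact S.sym _ _ _ h
        · intro h3; exact h2 (eq_inv_comm.1 h3.symm)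
        · intro h3; exact h1 (inv_inj h3)
  bd := by
    intro l x y h
    by_cases h1 : l = l0
    · subst h1
      rw [mem_addΓ_self] at h
      obtain ⟨c, hc⟩ := h
      have := S.bd _ _ _ hc
      have h3 : x = (x - c • u) + c • u := by abel
      rw [h3]
      exact VN_mono (Nat.le_succ _) (Submodule.add_mem _ this (Submodule.smul_mem _ _ hu))
    · by_cases h2 : l = inv l0
      · subst h2
        rw [mem_addΓ_inv] at h
        obtain ⟨c, hc⟩ := h
        have := S.bd _ _ _ hc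
        have h3 : x = (x - c • Finsupp.single S.N 1) + c • Finsupp.single S.N 1 := by abel
        rw [h3]
        exact Submodule.add_mem _ (VN_mono (Nat.le_succ _) this)
          (Submodule.smul_mem _ _ (single_mem_VN (Nat.lt_succ_self _) _))
      · rw [mem_addΓ_other h1 h2] at h
        exact VN_mono (Nat.le_succ _) (S.bd _ _ _ h)
  fn := by
    intro l y h
    by_cases h1 : l = l0
    · subst h1
      rw [mem_addΓ_self] at h
      obtain ⟨c, hc⟩ := h
      have hc0 : c = 0 := by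
        by_contra hne
        apply hd ((-c⁻¹) • (y - c • Finsupp.single S.N 1))
        have := (S.Γ l).smul_mem (-c⁻¹) hc
        rw [Prod.smul_mk] at this
        convert this using 2
        rw [zero_sub, smul_neg, neg_smul, neg_neg, smul_smul, inv_mul_cancel₀ hne, one_smul]
      rw [hc0] at hc
      simp only [zero_smul, sub_zero] at hc
      exact S.fn _ _ hc
    · by_cases h2 : l = inv l0
      · subst h2
        rw [mem_addΓ_inv] at h
        obtain ⟨c, hc⟩ := h
        have h3 := S.bd _ _ _ hc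
        have hc0 : c = 0 := by
          rw [mem_VN] at h3
          have := h3 S.N (le_refl _)
          simpa using this
        rw [hc0] at hc
        simp only [zero_smul, sub_zero] at hc
        exact S.fn _ _ hc
      · rw [mem_addΓ_other h1 h2] at h
        exact S.fn _ _ h

theorem Stage.le_add (S : Stage k) (l0 : Lt) (u : ℕ →₀ k) (hu : u ∈ VN k S.N)
    (hd : ∀ y, (u, y) ∉ S.Γ l0) : S.Le (S.add l0 u hu hd) := by
  refine ⟨Nat.le_succ _, fun l => ?_⟩
  show S.Γ l ≤ addΓ S l0 u l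
  unfold addΓ
  split_ifs
  · exact le_sup_left
  · exact le_sup_left
  · exact le_refl _

theorem Stage.add_new (S : Stage k) (l0 : Lt) (u : ℕ →₀ k) (hu : u ∈ VN k S.N)
    (hd : ∀ y, (u, y) ∉ S.Γ l0) : (u, Finsupp.single S.N 1) ∈ (S.add l0 u hu hd).Γ l0 := by
  show _ ∈ addΓ S l0 u l0
  rw [mem_addΓ_self]
  refine ⟨1, ?_⟩
  rw [one_smul, one_smul, sub_self, sub_self]
  exact (S.Γ l0).zero_mem

/-- vectors with a component on the new vector only allow the inverse letter -/
theorem Stage.add_coord (S : Stage k) (l0 : Lt) (u : ℕ →₀ k) (hu : u ∈ VN k S.N)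
    (hd : ∀ y, (u, y) ∉ S.Γ l0) {l : Lt} {x y : ℕ →₀ k} (h : (x, y) ∈ (S.add l0 u hu hd).Γ l)
    (hx : x S.N ≠ 0) : l = inv l0 := by
  by_contra h2
  apply hx
  have h' : (x, y) ∈ addΓ S l0 u l := h
  have key : x ∈ VN k S.N := by
    by_cases h1 : l = l0
    · subst h1
      rw [mem_addΓ_self] at h'
      obtain ⟨c, hc⟩ := h'
      have := S.bd _ _ _ hc
      have h3 : x = (x - c • u) + c • u := by abel
      rw [h3]
      exact Submodule.add_mem _ this (Submodule.smul_mem _ _ hu)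
    · rw [mem_addΓ_other h1 h2] at h'
      exact S.bd _ _ _ h'
  exact mem_VN.1 key _ (le_refl _)

theorem Stage.add_good (S : Stage k) (l0 : Lt) (u : ℕ →₀ k) (hu : u ∈ VN k S.N)
    (hd : ∀ y, (u, y) ∉ S.Γ l0) (hI : Good S.Γ) : Good (S.add l0 u hu hd).Γ := by
  intro l w q μ hq hred hper hw hμ hne
  have hN : ∀ t, w t S.N = 0 := by
    intro t
    by_contra h
    have h1 := S.add_coord l0 u hu hd (hw t) h
    have h2 := hw (t - 1)
    rw [sub_add_cancel] at h2
    have h3 := S.add_coord l0 u hu hd ((S.add l0 u hu hd).sym _ _ _ h2) h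
    have h4 := hred (t - 1)
    rw [sub_add_cancel] at h4
    apply h4
    rw [h1, h3]
  have hw' : ∀ t, (w t, w (t + 1)) ∈ S.Γ (l t) := by
    intro t
    have h' : (w t, w (t + 1)) ∈ addΓ S l0 u (l t) := hw t
    by_cases h1 : l t = l0
    · rw [h1] at h' ⊢
      rw [mem_addΓ_self] at h'
      obtain ⟨c, hc⟩ := h'
      have h3 := mem_VN.1 (S.bd' hc) S.N (le_refl _)
      have hc0 : c = 0 := by simpa [hN] using h3
      rw [hc0] at hc
      simpa using hc
    · by_cases h2 : l t = inv l0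
      · rw [h2] at h' ⊢
        rw [mem_addΓ_inv] at h'
        obtain ⟨c, hc⟩ := h'
        have h3 := mem_VN.1 (S.bd _ _ _ hc) S.N (le_refl _)
        have hc0 : c = 0 := by simpa [hN] using h3
        rw [hc0] at hc
        simpa using hc
      · rwa [mem_addΓ_other h1 h2] at h'
  exact hI l w q μ hq hred hper hw' hμ hne

end

end

end Pool.Agent.Helper684
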